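import Pool.Agent.Lib.MP_767201_co.SE.Defs

section

/-!
# TASK SE B1: Boolean combinations; graphs determined by equality patterns

`PatDet k G`: there are functions `t i : G.V → ℕ`, `i : Fin k`, such that adjacency of `u ≠ v` depends only on the set of the pairs `(i, j)` with `t i u = t j v`.

Proof of `labelDet_bool`. `S v = ⋃ i, (S i v).image (Nat.pair i)`, at most `∑ i, k i` elements; `Nat.pair i l ∈ S u ∩ S v` iff `l ∈ S i u ∩ S i v`; `f T := β (fun i => f i {l | Nat.pair i l ∈ T})` (the finset `T.filter..image` or `(T.image Nat.unpair)` filtered; any finset with this membership).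

Proof of `labelDet_pat`. For a vertex `x` and a number `y` let `I x y = {i | t i x = y}`, `val x = {t i x | i}` (at most `k` numbers). For a finite set `Z` of numbers let `r Z x : ℕ → Finset (Fin k)` be `I x` on `Z` and `∅` outside of `Z`. The labels of `x` are the pairs `(Z, {r Z x, q})`, `Z ⊆ val x`, `q : ℕ → Finset (Fin k)` with support in `Z`
(an unordered pair; `q = r Z x` allowed), and the labels `(Z)`, `Z ⊆ val x`. Represent them as elements of a countable type (`Encodable.encode`), for example `Finset ℕ × Option (Sym2 (Finset (ℕ × Fin k)))`, where `r Z x` is the finite set `{(y, i) | y ∈ Z, t i x = y}` and `q` runs over the subsets of `Z ×ˢ univ`. There are at most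
`2^k (1 + 2^(k k))` labels at `x`. Let `u ≠ v`, `Z = val u ∩ val v`. From `S u ∩ S v` one gets `Z` (the largest `Z` with `(Z) ∈ S u ∩ S v`). The labels `(Z, {p, q})` in `S u ∩ S v` are those with `r Z u ∈ {p, q}`, `r Z v ∈ {p, q}`: if `r Z u ≠ r Z v` exactly one, `{r Z u, r Z v}`; if they are equal all `(Z, {r Z u, q})`
(then `(Z, {r Z u, r Z u})` is one of them). So the unordered pair `{r Z u, r Z v}` is determined by `S u ∩ S v`, so the pattern `{(i, j) | t i u = t j v} = {(i, j) | ∃ y ∈ Z, (y, i) ∈ r Z u, (y, j) ∈ r Z v}` is determined up to transposition.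
`f T := ` there are `u' ≠ v'` with `S u' ∩ S v' = T` and `G.Adj u' v'`; if `S u ∩ S v = S u' ∩ S v'` then the pattern of `(u, v)` is the one of `(u', v')` or of `(v', u')`, so `Adj u v ↔ Adj u' v'`.
-/

set_option autoImplicit false

namespace Pool.Agent.Lib.MP_767201_co.SE

/-- Adjacency of different vertices is determined by the equality pattern of `k` functions. -/
def PatDet (k : ℕ) (G : FG) : Prop :=
  ∃ (t : Fin k → G.V → ℕ) (Φ : Set (Fin k × Fin k) → Prop),
    ∀ u v, u ≠ v → (G.G.Adj u v ↔ Φ {p | t p.1 u = t p.2 v})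

private def B1_slice (T : Finset ℕ) (i : ℕ) : Finset ℕ :=
  (T.filter fun x => (Nat.unpair x).1 = i).image fun x => (Nat.unpair x).2

private theorem B1_mem_slice (T : Finset ℕ) (i l : ℕ) : l ∈ B1_slice T i ↔ Nat.pair i l ∈ T := by
  unfold B1_slice
  rw [Finset.mem_image]
  constructor
  · rintro ⟨x, hx, rfl⟩
    rw [Finset.mem_filter] at hx
    rw [← hx.2, Nat.pair_unpair]
    exact hx.1
  · intro h
    refine ⟨Nat.pair i l, Finset.mem_filter.mpr ⟨h, ?_⟩, ?_⟩
    · rw [Nat.unpair_pair]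
    · rw [Nat.unpair_pair]

theorem labelDet_bool (G : FG) (n : ℕ) (H : Fin n → SimpleGraph G.V) (k : Fin n → ℕ)
    (hH : ∀ i, LabelDet (k i) ⟨G.V, G.fin, H i⟩) (β : (Fin n → Prop) → Prop)
    (hG : ∀ u v, u ≠ v → (G.G.Adj u v ↔ β (fun i => (H i).Adj u v))) : LabelDet (∑ i, k i) G := by
  classical
  have hH' : ∀ i, ∃ (S : G.V → Finset ℕ) (f : Finset ℕ → Prop), (∀ v, (S v).card ≤ k i) ∧
      ∀ u v, u ≠ v → ((H i).Adj u v ↔ f (S u ∩ S v)) := fun i => hH i
  choose S f hS hf using hH'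
  have hmem : ∀ (v : G.V) (i : Fin n) (l : ℕ),
      Nat.pair i l ∈ (Finset.univ.biUnion fun i : Fin n => (S i v).image (Nat.pair (i : ℕ))) ↔
        l ∈ S i v := by
    intro v i l
    rw [Finset.mem_biUnion]
    constructor
    · rintro ⟨j, _, hj⟩
      rw [Finset.mem_image] at hj
      obtain ⟨l', hl', h⟩ := hj
      rw [Nat.pair_eq_pair] at h
      have h1 : j = i := Fin.ext h.1
      subst h1
      rw [← h.2]
      exact hl'
    · intro h
      exact ⟨i, Finset.mem_univ _, Finset.mem_image.mpr ⟨l, h, rfl⟩⟩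
  refine ⟨fun v => Finset.univ.biUnion fun i : Fin n => (S i v).image (Nat.pair (i : ℕ)),
    fun T => β fun i => f i (B1_slice T i), fun v => ?_, fun u v huv => ?_⟩
  · refine Finset.card_biUnion_le.trans (Finset.sum_le_sum fun i _ => ?_)
    exact Finset.card_image_le.trans (hS i v)
  · rw [hG u v huv]
    have h1 : (fun i => (H i).Adj u v) = fun i : Fin n => f i (B1_slice
        ((Finset.univ.biUnion fun i : Fin n => (S i u).image (Nat.pair (i : ℕ))) ∩
          (Finset.univ.biUnion fun i : Fin n => (S i v).image (Nat.pair (i : ℕ)))) i) := by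
      funext i
      have h2 : B1_slice
          ((Finset.univ.biUnion fun i : Fin n => (S i u).image (Nat.pair (i : ℕ))) ∩
            (Finset.univ.biUnion fun i : Fin n => (S i v).image (Nat.pair (i : ℕ)))) i =
          S i u ∩ S i v := by
        ext l
        rw [B1_mem_slice, Finset.mem_inter, Finset.mem_inter, hmem, hmem]
      rw [h2]
      exact propext (hf i u v huv)
    rw [h1]

private def B1_val {V : Type} {k : ℕ} (t : Fin k → V → ℕ) (x : V) : Finset ℕ :=
  Finset.univ.image fun i => t i x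

private def B1_r {V : Type} {k : ℕ} (t : Fin k → V → ℕ) (Z : Finset ℕ) (x : V) :
    Finset (ℕ × Fin k) :=
  (Z ×ˢ Finset.univ).filter fun p => t p.2 x = p.1

private def B1_lab {V : Type} {k : ℕ} (t : Fin k → V → ℕ) (x : V) :
    Finset (Finset ℕ × Finset (Finset (ℕ × Fin k))) :=
  (B1_val t x).powerset.biUnion fun Z =>
    insert (Z, ∅) ((Z ×ˢ Finset.univ).powerset.image fun q => (Z, {B1_r t Z x, q}))

private theorem B1_mem_r {V : Type} {k : ℕ} (t : Fin k → V → ℕ) (Z : Finset ℕ) (x : V) (y : ℕ)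
    (i : Fin k) : (y, i) ∈ B1_r t Z x ↔ y ∈ Z ∧ t i x = y := by
  unfold B1_r
  rw [Finset.mem_filter, Finset.mem_product]
  simp only [Finset.mem_univ, and_true]

private theorem B1_mem_lab {V : Type} {k : ℕ} (t : Fin k → V → ℕ) (x : V) (Z : Finset ℕ)
    (s : Finset (Finset (ℕ × Fin k))) :
    (Z, s) ∈ B1_lab t x ↔ Z ⊆ B1_val t x ∧
      (s = ∅ ∨ ∃ q ⊆ Z ×ˢ (Finset.univ : Finset (Fin k)), s = {B1_r t Z x, q}) := by
  unfold B1_lab
  rw [Finset.mem_biUnion]
  constructor
  · rintro ⟨W, hW, h⟩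
    rw [Finset.mem_insert, Finset.mem_image] at h
    rcases h with h | ⟨q, hq, h⟩
    · rw [Prod.mk.injEq] at h
      obtain ⟨rfl, h⟩ := h
      exact ⟨Finset.mem_powerset.mp hW, Or.inl h⟩
    · rw [Prod.mk.injEq] at h
      obtain ⟨rfl, h⟩ := h
      exact ⟨Finset.mem_powerset.mp hW, Or.inr ⟨q, Finset.mem_powerset.mp hq, h.symm⟩⟩
  · rintro ⟨hZ, h⟩
    refine ⟨Z, Finset.mem_powerset.mpr hZ, ?_⟩
    rw [Finset.mem_insert, Finset.mem_image]
    rcases h with h | ⟨q, hq, h⟩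
    · exact Or.inl (by rw [h])
    · exact Or.inr ⟨q, Finset.mem_powerset.mpr hq, by rw [h]⟩

private theorem B1_card {V : Type} {k : ℕ} (t : Fin k → V → ℕ) (x : V) :
    (B1_lab t x).card ≤ 2 ^ k * (1 + 2 ^ (k * k)) := by
  have hval : (B1_val t x).card ≤ k := by
    unfold B1_val
    exact Finset.card_image_le.trans (by simp)
  unfold B1_lab
  refine Finset.card_biUnion_le.trans ?_
  have h1 : ∀ Z ∈ (B1_val t x).powerset,
      (insert ((Z, ∅) : Finset ℕ × Finset (Finset (ℕ × Fin k)))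
        ((Z ×ˢ (Finset.univ : Finset (Fin k))).powerset.image fun q =>
          ((Z, {B1_r t Z x, q}) : Finset ℕ × Finset (Finset (ℕ × Fin k))))).card ≤
        1 + 2 ^ (k * k) := by
    intro Z hZ
    refine (Finset.card_insert_le _ _).trans ?_
    have h2 : ((Z ×ˢ (Finset.univ : Finset (Fin k))).powerset.image fun q =>
        ((Z, {B1_r t Z x, q}) : Finset ℕ × Finset (Finset (ℕ × Fin k)))).card ≤ 2 ^ (k * k) := by
      refine Finset.card_image_le.trans ?_
      rw [Finset.card_powerset, Finset.card_product, Finset.card_univ, Fintype.card_fin]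
      refine Nat.pow_le_pow_right (by norm_num) ?_
      exact Nat.mul_le_mul_right _
        ((Finset.card_le_card (Finset.mem_powerset.mp hZ)).trans hval)
    omega
  refine (Finset.sum_le_sum h1).trans ?_
  rw [Finset.sum_const, smul_eq_mul, Finset.card_powerset]
  exact Nat.mul_le_mul_right _ (Nat.pow_le_pow_right (by norm_num) hval)

private theorem B1_pat {V : Type} {k : ℕ} (t : Fin k → V → ℕ) (u v : V) :
    {p : Fin k × Fin k | t p.1 u = t p.2 v} =
      {p | ∃ y ∈ B1_val t u ∩ B1_val t v, (y, p.1) ∈ B1_r t (B1_val t u ∩ B1_val t v) u ∧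
        (y, p.2) ∈ B1_r t (B1_val t u ∩ B1_val t v) v} := by
  ext p
  show t p.1 u = t p.2 v ↔ ∃ y ∈ B1_val t u ∩ B1_val t v,
    (y, p.1) ∈ B1_r t (B1_val t u ∩ B1_val t v) u ∧
        (y, p.2) ∈ B1_r t (B1_val t u ∩ B1_val t v) v
  constructor
  · intro h
    have h1 : t p.1 u ∈ B1_val t u ∩ B1_val t v := by
      rw [Finset.mem_inter]
      refine ⟨Finset.mem_image.mpr ⟨p.1, Finset.mem_univ _, rfl⟩, ?_⟩
      exact Finset.mem_image.mpr ⟨p.2, Finset.mem_univ _, h.symm⟩
    exact ⟨t p.1 u, h1, (B1_mem_r t _ u _ _).mpr ⟨h1, rfl⟩,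
      (B1_mem_r t _ v _ _).mpr ⟨h1, h.symm⟩⟩
  · rintro ⟨y, _, h1, h2⟩
    rw [((B1_mem_r t _ u _ _).mp h1).2, ((B1_mem_r t _ v _ _).mp h2).2]

private theorem B1_val_sub {V : Type} {k : ℕ} (t : Fin k → V → ℕ) (u v u' v' : V)
    (h : B1_lab t u ∩ B1_lab t v ⊆ B1_lab t u' ∩ B1_lab t v') :
    B1_val t u ∩ B1_val t v ⊆ B1_val t u' ∩ B1_val t v' := by
  have h1 : ((B1_val t u ∩ B1_val t v, ∅) : Finset ℕ × Finset (Finset (ℕ × Fin k))) ∈
      B1_lab t u ∩ B1_lab t v := by
    rw [Finset.mem_inter, B1_mem_lab, B1_mem_lab]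
    exact ⟨⟨Finset.inter_subset_left, Or.inl rfl⟩, ⟨Finset.inter_subset_right, Or.inl rfl⟩⟩
  have h2 := h h1
  rw [Finset.mem_inter, B1_mem_lab, B1_mem_lab] at h2
  exact Finset.subset_inter h2.1.1 h2.2.1

private theorem B1_r_sub {V : Type} {k : ℕ} (t : Fin k → V → ℕ) (Z : Finset ℕ) (x : V) :
    B1_r t Z x ⊆ Z ×ˢ (Finset.univ : Finset (Fin k)) := Finset.filter_subset _ _

private theorem B1_r_mem {V : Type} {k : ℕ} (t : Fin k → V → ℕ) (u v u' v' : V)
    (h : B1_lab t u ∩ B1_lab t v ⊆ B1_lab t u' ∩ B1_lab t v') :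
    (B1_r t (B1_val t u ∩ B1_val t v) u' = B1_r t (B1_val t u ∩ B1_val t v) u ∨
      B1_r t (B1_val t u ∩ B1_val t v) u' = B1_r t (B1_val t u ∩ B1_val t v) v) ∧
    (B1_r t (B1_val t u ∩ B1_val t v) v' = B1_r t (B1_val t u ∩ B1_val t v) u ∨
      B1_r t (B1_val t u ∩ B1_val t v) v' = B1_r t (B1_val t u ∩ B1_val t v) v) := by
  have h1 : ((B1_val t u ∩ B1_val t v, {B1_r t (B1_val t u ∩ B1_val t v) u,
      B1_r t (B1_val t u ∩ B1_val t v) v}) : Finset ℕ × Finset (Finset (ℕ × Fin k))) ∈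
      B1_lab t u ∩ B1_lab t v := by
    rw [Finset.mem_inter, B1_mem_lab, B1_mem_lab]
    refine ⟨⟨Finset.inter_subset_left, Or.inr ⟨_, B1_r_sub t _ v, rfl⟩⟩,
      ⟨Finset.inter_subset_right, Or.inr ⟨_, B1_r_sub t _ u, ?_⟩⟩⟩
    exact Finset.pair_comm _ _
  have h2 := h h1
  rw [Finset.mem_inter, B1_mem_lab, B1_mem_lab] at h2
  have key : ∀ x : V, (({B1_r t (B1_val t u ∩ B1_val t v) u,
      B1_r t (B1_val t u ∩ B1_val t v) v} : Finset (Finset (ℕ × Fin k))) = ∅ ∨
      ∃ q ⊆ (B1_val t u ∩ B1_val t v) ×ˢ (Finset.univ : Finset (Fin k)),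
        ({B1_r t (B1_val t u ∩ B1_val t v) u, B1_r t (B1_val t u ∩ B1_val t v) v} :
          Finset (Finset (ℕ × Fin k))) = {B1_r t (B1_val t u ∩ B1_val t v) x, q}) →
      (B1_r t (B1_val t u ∩ B1_val t v) x = B1_r t (B1_val t u ∩ B1_val t v) u ∨
      B1_r t (B1_val t u ∩ B1_val t v) x = B1_r t (B1_val t u ∩ B1_val t v) v) := by
    rintro x (h3 | ⟨q, _, h3⟩)
    · exact absurd h3 (Finset.insert_ne_empty _ _)
    · have h4 : B1_r t (B1_val t u ∩ B1_val t v) x ∈
          ({B1_r t (B1_val t u ∩ B1_val t v) x, q} : Finset (Finset (ℕ × Fin k))) :=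
        Finset.mem_insert_self _ _
      rw [← h3, Finset.mem_insert, Finset.mem_singleton] at h4
      exact h4
  exact ⟨key u' h2.1.2, key v' h2.2.2⟩

private theorem B1_main {V : Type} {k : ℕ} (t : Fin k → V → ℕ) (u v u' v' : V)
    (h : B1_lab t u ∩ B1_lab t v = B1_lab t u' ∩ B1_lab t v') :
    {p : Fin k × Fin k | t p.1 u = t p.2 v} = {p : Fin k × Fin k | t p.1 u' = t p.2 v'} ∨
    {p : Fin k × Fin k | t p.1 u = t p.2 v} = {p : Fin k × Fin k | t p.1 v' = t p.2 u'} := by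
  have hZ : B1_val t u ∩ B1_val t v = B1_val t u' ∩ B1_val t v' :=
    (B1_val_sub t u v u' v' h.subset).antisymm (B1_val_sub t u' v' u v h.symm.subset)
  obtain ⟨h1, h2⟩ := B1_r_mem t u v u' v' h.subset
  obtain ⟨h3, h4⟩ := B1_r_mem t u' v' u v h.symm.subset
  have hZ' : B1_val t v' ∩ B1_val t u' = B1_val t u ∩ B1_val t v := by
    rw [Finset.inter_comm, hZ]
  rw [← hZ] at h3 h4
  have e1 := B1_pat t u v
  have e2 := B1_pat t u' v'
  have e3 := B1_pat t v' u'
  rw [← hZ] at e2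
  rw [hZ'] at e3
  rw [e1, e2, e3]
  have key : (B1_r t (B1_val t u ∩ B1_val t v) u = B1_r t (B1_val t u ∩ B1_val t v) u' ∧
      B1_r t (B1_val t u ∩ B1_val t v) v = B1_r t (B1_val t u ∩ B1_val t v) v') ∨
      (B1_r t (B1_val t u ∩ B1_val t v) u = B1_r t (B1_val t u ∩ B1_val t v) v' ∧
      B1_r t (B1_val t u ∩ B1_val t v) v = B1_r t (B1_val t u ∩ B1_val t v) u') := by
    rcases h1 with h1 | h1 <;> rcases h2 with h2 | h2 <;> rcases h3 with h3 | h3 <;>
      rcases h4 with h4 | h4 <;> simp_all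
  rcases key with ⟨k1, k2⟩ | ⟨k1, k2⟩
  · left
    rw [k1, k2]
  · right
    rw [k1, k2]

theorem labelDet_pat (k : ℕ) (G : FG) (h : PatDet k G) : LabelDet (2 ^ k * (1 + 2 ^ (k * k))) G := by
  classical
  obtain ⟨t, Φ, hΦ⟩ := h
  have hinj : Function.Injective
      (Encodable.encode : Finset ℕ × Finset (Finset (ℕ × Fin k)) → ℕ) := Encodable.encode_injective
  refine ⟨fun x => (B1_lab t x).image Encodable.encode, fun T => ∃ u' v' : G.V, u' ≠ v' ∧
    (B1_lab t u').image Encodable.encode ∩ (B1_lab t v').image Encodable.encode = T ∧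
      G.G.Adj u' v', fun x => Finset.card_image_le.trans (B1_card t x), fun u v huv => ?_⟩
  constructor
  · intro h
    exact ⟨u, v, huv, rfl, h⟩
  · rintro ⟨u', v', huv', h1, h2⟩
    rw [← Finset.image_inter _ _ hinj, ← Finset.image_inter _ _ hinj] at h1
    have h3 := Finset.image_injective hinj h1
    rw [hΦ u v huv]
    rcases B1_main t u v u' v' h3.symm with h4 | h4
    · rw [h4, ← hΦ u' v' huv']
      exact h2
    · rw [h4, ← hΦ v' u' huv'.symm]
      exact h2.symm

end Pool.Agent.Lib.MP_767201_co.SE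
end

section

/-!
# Definitions for the proof

* `nim E f`: the number of values of `f` on `E`; `fib E f x`: the number of elements of `E` with value `x`.
* Flags: lists of finite sets, newest element first; `top`; `lev k θ = |θ| (k+1) + |top θ|`.
* `Sys S F R`: a system of nested symmetric and transitive relations `R θ`; `Lon R x y θ`: the flag `θ` is a longest
  one with `R θ x y`; `Inv`: every invalid pair has a high level; `Valid`.
* `NG S R θ`: the exact pairs of the flag `θ`.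
* Label structures: `A x` is the set of labels of `x`, `len g`, `par g` the length and the parent of the label `g`;
  `IsL A len x y n`: the maximal length of a common label of `x`, `y` is `n` (0: no common label);
  `RG A len g`: the exact pairs of `g`; `LSok K k D E A len par`: the properties.
* `BG A`: the incidence graph. `LSof`: a label structure of a graph.
* `LPS`: label path systems; `Dense`.
-/

set_option autoImplicit false

namespace Pool.Agent.Lib.MP_767201_co.SE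

/-- The number of values of `f` on `E`. -/
noncomputable def nim {ε N : Type} (E : Finset ε) (f : ε → N) : ℕ := Set.ncard (f '' (E : Set ε))

/-- The size of the fibre of `f` over `x` in `E`. -/
noncomputable def fib {ε N : Type} (E : Finset ε) (f : ε → N) (x : N) : ℕ := Set.ncard {e | e ∈ E ∧ f e = x}

section Systems

variable {V L : Type} [DecidableEq L]

omit [DecidableEq L] in
/-- The newest set of a flag. -/
def top (θ : List (Finset L)) : Finset L := θ.headD ∅

omit [DecidableEq L] in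
/-- The level of a flag. -/
def lev (k : ℕ) (θ : List (Finset L)) : ℕ := θ.length * (k + 1) + (top θ).card

/-- A system of nested relations. -/
structure Sys (S : V → Finset L) (F : Finset L → Prop) (R : List (Finset L) → V → V → Prop) : Prop where
  root : ∀ x y, R [] x y
  symm : ∀ θ x y, R θ x y → R θ y x
  trans : ∀ θ x y z, R θ x y → R θ y z → R θ x z
  mono : ∀ Q θ x y, R (Q :: θ) x y → R θ x y
  sub : ∀ Q θ x, R (Q :: θ) x x → Q ⊆ S x
  lt : ∀ Q θ x, R (Q :: θ) x x → top θ ⊂ Q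
  alt : ∀ Q θ x, R (Q :: θ) x x → (F Q ↔ ¬ F (top θ))

/-- `θ` is a longest flag for the pair `x, y`. -/
def Lon (R : List (Finset L) → V → V → Prop) (x y : V) (θ : List (Finset L)) : Prop :=
  R θ x y ∧ ∀ θ', R θ' x y → θ'.length ≤ θ.length

/-- Every invalid pair has a level above `n`. -/
def Inv (S : V → Finset L) (F : Finset L → Prop) (R : List (Finset L) → V → V → Prop) (k n : ℕ) : Prop :=
  ∀ x y, x ≠ y → ∀ θ, Lon R x y θ → ¬ (F (S x ∩ S y) ↔ Odd θ.length) →
    n < (θ.length + 1) * (k + 1) + (S x ∩ S y).card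

/-- All pairs are valid. -/
def Valid (S : V → Finset L) (F : Finset L → Prop) (R : List (Finset L) → V → V → Prop) : Prop :=
  ∀ x y, x ≠ y → ∀ θ, Lon R x y θ → (F (S x ∩ S y) ↔ Odd θ.length)

/-- The number of related triples at the level `n`. -/
noncomputable def pn (k : ℕ) (R : List (Finset L) → V → V → Prop) (n : ℕ) : ℕ :=
  Set.ncard {t : List (Finset L) × V × V | lev k t.1 = n ∧ R t.1 t.2.1 t.2.2}

/-- A valid system which is lexicographically minimal. -/
structure Opt (S : V → Finset L) (F : Finset L → Prop) (k : ℕ) (R : List (Finset L) → V → V → Prop) : Prop where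
  sys : Sys S F R
  valid : Valid S F R
  min : ∀ R', Sys S F R' → Valid S F R' → ∀ n < (k + 1) * (k + 1), (∀ m < n, pn k R' m = pn k R m) →
    pn k R n ≤ pn k R' n

/-- The exact pairs of the flag `θ`. -/
def NG (S : V → Finset L) (R : List (Finset L) → V → V → Prop) (θ : List (Finset L)) : SimpleGraph V where
  Adj u v := u ≠ v ∧ R θ u v ∧ R θ v u ∧ S u ∩ S v = top θ ∧
    ∀ θ', θ' ≠ θ → R θ' u v → R θ' v u → θ'.length < θ.length
  symm := ⟨fun u v h => ⟨h.1.symm, h.2.2.1, h.2.1, by rw [Finset.inter_comm]; exact h.2.2.2.1,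
    fun θ' h1 h2 h3 => h.2.2.2.2 θ' h1 h3 h2⟩⟩
  loopless := ⟨fun u h => h.1 rfl⟩

end Systems

section Labels

variable {V Γ : Type}

/-- `n` is the maximal length of a common label of `x` and `y` (`0` if there is none). -/
def IsL (A : V → Finset Γ) (len : Γ → ℕ) (x y : V) (n : ℕ) : Prop :=
  (∀ g ∈ A x, g ∈ A y → len g ≤ n) ∧ (n = 0 ∨ ∃ g ∈ A x, g ∈ A y ∧ len g = n)

/-- The exact pairs of the label `g`. -/
def RG (A : V → Finset Γ) (len : Γ → ℕ) (g : Γ) : SimpleGraph V where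
  Adj x y := x ≠ y ∧ g ∈ A x ∧ g ∈ A y ∧ ∀ g' ∈ A x, g' ∈ A y → g' ≠ g → len g' < len g
  symm := ⟨fun _ _ h => ⟨h.1.symm, h.2.2.1, h.2.1, fun g' h1 h2 h3 => h.2.2.2 g' h2 h1 h3⟩⟩
  loopless := ⟨fun _ h => h.1 rfl⟩

/-- A label structure for the relation `E`. -/
structure LSok (K k D : ℕ) (E : V → V → Prop) (A : V → Finset Γ) (len : Γ → ℕ) (par : Γ → Γ) : Prop where
  card : ∀ x, (A x).card ≤ K
  pos : ∀ x, ∀ g ∈ A x, 1 ≤ len g
  le : ∀ x, ∀ g ∈ A x, len g ≤ k
  parA : ∀ x, ∀ g ∈ A x, 2 ≤ len g → par g ∈ A x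
  parL : ∀ x, ∀ g ∈ A x, 2 ≤ len g → len (par g) + 1 = len g
  val : ∀ x y n, x ≠ y → IsL A len x y n → (E x y ↔ Odd n)
  wit : ∀ x, ∀ g ∈ A x, ∃ y, (RG A len g).Adj x y
  conn : ∀ x y, ∀ g, g ∈ A x → g ∈ A y → ∃ p : (RG A len g).Walk x y, p.length ≤ D

/-- The incidence graph between the vertices and the labels. -/
def BG (A : V → Finset Γ) : SimpleGraph (V ⊕ Γ) where
  Adj a b := (∃ v g, a = Sum.inl v ∧ b = Sum.inr g ∧ g ∈ A v) ∨ (∃ v g, b = Sum.inl v ∧ a = Sum.inr g ∧ g ∈ A v)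
  symm := ⟨fun _ _ h => h.symm⟩
  loopless := ⟨fun a h => by
    rcases h with ⟨v, g, h1, h2, _⟩ | ⟨v, g, h1, h2, _⟩ <;> (rw [h1] at h2; exact absurd h2 (by simp))⟩

/-- A label structure of the graph `G`; `b` says whether vertices without common labels are adjacent. -/
def LSof (K k D : ℕ) (G : FG) (b : Prop) (A : G.V → Finset Γ) (len : Γ → ℕ) (par : Γ → Γ) : Prop :=
  LSok K k D (fun x y => ¬ (G.G.Adj x y ↔ b)) A len par

/-- A label path system: `z 0 e, v 0 e, z 1 e, v 1 e, ..., v (m-1) e, z m e` for `e ∈ E`. -/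
structure LPS (A : V → Finset Γ) (len : Γ → ℕ) (m : ℕ) (l : ℕ → ℕ) {ε : Type} (E : Finset ε) (z : ℕ → ε → Γ)
    (v : ℕ → ε → V) : Prop where
  pos : 1 ≤ m
  memL : ∀ i < m, ∀ e ∈ E, z i e ∈ A (v i e)
  memR : ∀ i < m, ∀ e ∈ E, z (i + 1) e ∈ A (v i e)
  len : ∀ i ≤ m, ∀ e ∈ E, len (z i e) = l i
  inj : ∀ i, 1 ≤ i → i < m → Set.InjOn (z i) E
  ends : ∀ e ∈ E, ∀ e' ∈ E, z 0 e = z 0 e' → z m e = z m e' → e = e'

/-- The density of a nonempty system with the ends `z 0`, `z m` is at least `d`. -/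
def Dense {ε : Type} (d : ℕ) (E : Finset ε) (z : ℕ → ε → Γ) (m : ℕ) : Prop :=
  E.Nonempty ∧ d * (nim E (z 0) + nim E (z m)) ≤ E.card

/-- The parents at the position `i` are constant. -/
def ConstPar {ε : Type} (len : Γ → ℕ) (par : Γ → Γ) (E : Finset ε) (z : ℕ → ε → Γ) (i : ℕ) : Prop :=
  ∀ e ∈ E, ∀ e' ∈ E, 2 ≤ len (z i e) → par (z i e) = par (z i e')

/-- The sum of the lengths. -/
def sumL (m : ℕ) (l : ℕ → ℕ) : ℕ := ∑ i ∈ Finset.range (m + 1), l i

/-- There are no label path systems of density at least `d` of a type smaller than `(m, σ)`. -/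
def NoSmaller (A : V → Finset Γ) (len : Γ → ℕ) (m σ d : ℕ) : Prop :=
  ∀ (m' : ℕ) (l' : ℕ → ℕ) (ε : Type) (E : Finset ε) (z : ℕ → ε → Γ) (v : ℕ → ε → V),
    (m' < m ∨ (m' = m ∧ sumL m' l' < σ)) → LPS A len m' l' E z v → ¬ Dense d E z m'

end Labels

end Pool.Agent.Lib.MP_767201_co.SE
end

section

/-!
# Chains

`Chain`: for `e ∈ E` the vertices `w 0 e, ..., w (M+1) e`; consecutive ones are an exact pair of the label `z (ι j) e`; `ι 0 = 0`, `ι M = m`, interior indices in between; parents at every position constant; the ends `w 0`, `w (M+1)` depend only on `z 0`, `z m`.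
`Typed`: `κ (w j e) = j`, and a label which occurs at `e` and at `e'` occurs at the same positions. `occ`: the label `g` occurs at `e`.
-/

set_option autoImplicit false

namespace Pool.Agent.Lib.MP_767201_co.SE

variable {V Γ ε : Type}

/-- Chains of exact pairs. -/
structure Chain (A : V → Finset Γ) (len : Γ → ℕ) (par : Γ → Γ) (m M : ℕ) (l ι : ℕ → ℕ) (E : Finset ε)
    (z : ℕ → ε → Γ) (w : ℕ → ε → V) : Prop where
  M1 : 1 ≤ M
  m1 : 1 ≤ m
  i0 : ι 0 = 0
  iM : ι M = m
  iint : ∀ j, 1 ≤ j → j < M → 1 ≤ ι j ∧ ι j < m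
  adj : ∀ j ≤ M, ∀ e ∈ E, (RG A len (z (ι j) e)).Adj (w j e) (w (j + 1) e)
  lenz : ∀ i ≤ m, ∀ e ∈ E, len (z i e) = l i
  inj : ∀ i, 1 ≤ i → i < m → Set.InjOn (z i) (E : Set ε)
  ends : ∀ e ∈ E, ∀ e' ∈ E, z 0 e = z 0 e' → z m e = z m e' → e = e'
  cpar : ∀ i ≤ m, ConstPar len par E z i
  end0 : ∀ e ∈ E, ∀ e' ∈ E, z 0 e = z 0 e' → w 0 e = w 0 e'
  endM : ∀ e ∈ E, ∀ e' ∈ E, z m e = z m e' → w (M + 1) e = w (M + 1) e'

/-- The label `g` occurs at `e`. -/
def occ (A : V → Finset Γ) (M : ℕ) (w : ℕ → ε → V) (g : Γ) (e : ε) : Prop := ∃ i ≤ M + 1, g ∈ A (w i e)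

/-- Consistent types. -/
structure Typed (A : V → Finset Γ) (M : ℕ) (κ : V → ℕ) (E : Finset ε) (w : ℕ → ε → V) : Prop where
  kap : ∀ j ≤ M + 1, ∀ e ∈ E, κ (w j e) = j
  typ : ∀ e ∈ E, ∀ e' ∈ E, ∀ g, occ A M w g e → occ A M w g e' → ∀ t ≤ M + 1, (g ∈ A (w t e) ↔ g ∈ A (w t e'))

/-- The relation of the output graph: `κ y = κ x + 1` and `Q x y` is true iff `β (κ x)` is. -/
def outRel (Q : V → V → Prop) (κ : V → ℕ) (β : ℕ → Prop) (x y : V) : Prop := κ y = κ x + 1 ∧ (Q x y ↔ β (κ x))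

/-- The vertices of the output graph. -/
def outV (M : ℕ) (E : Finset ε) (w : ℕ → ε → V) : Set V := {x | ∃ e ∈ E, ∃ j ≤ M + 1, x = w j e}

/-- The output graph. -/
def outG (Q : V → V → Prop) (κ : V → ℕ) (β : ℕ → Prop) (U : Set V) : SimpleGraph U where
  Adj x y := x ≠ y ∧ (outRel Q κ β x.1 y.1 ∨ outRel Q κ β y.1 x.1)
  symm := ⟨fun _ _ h => ⟨h.1.symm, h.2.symm⟩⟩
  loopless := ⟨fun _ h => h.1 rfl⟩

end Pool.Agent.Lib.MP_767201_co.SE
end
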