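import Pool.Agent.Lib.MP_767201_co.Mg.G001

section

/-!
# TASK SE P3: linking the vertices of one label path

Proof. Let `H` be the graph on `V` with `x ~ y` iff `∃ i, 1 ≤ i, i < m, (RG A len (z i e)).Adj x y` (symmetric, irreflexive). For `1 ≤ i < m`: `z i e ∈ A (v (i-1) e)` (`memR` at `i - 1`) and `z i e ∈ A (v i e)` (`memL`), so `conn` gives a walk of length at most `D` in `RG A len (z i e)`, hence in `H`
(`SimpleGraph.Walk.mapLe`), from `v (i-1) e` to `v i e`. Concatenating (induction on `i ≤ m-1`): a walk in `H` from `v 0 e` to `v (m-1) e` of length at most `(m-1) D ≤ m D`. Let `p` be a path (`Walk.toPath`, `Walk.bypass`, `length_bypass_le`) of length at most `m D`, `M := p.length + 1`, `w j := p.getVert (j - 1)`.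
`w 1 = v 0 e`, `w M = v (m-1) e`; injective on `1..M` (`IsPath.getVert_injOn`); `w j ~ w (j+1)` in `H` for `1 ≤ j < M` (`adj_getVert_succ`): `i j` is a choice of the index.
-/

set_option autoImplicit false

namespace Pool.Agent.Lib.MP_767201_co.SE

variable {V Γ ε : Type}

private theorem P3_walk {A : V → Finset Γ} {len : Γ → ℕ} {z : ℕ → ε → Γ} {v : ℕ → ε → V} {e : ε} {D m : ℕ}
    (H : SimpleGraph V) (hH : ∀ i, 1 ≤ i → i < m → RG A len (z i e) ≤ H)
    (conn : ∀ x y, ∀ g, g ∈ A x → g ∈ A y → ∃ p : (RG A len g).Walk x y, p.length ≤ D)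
    (mL : ∀ i < m, z i e ∈ A (v i e)) (mR : ∀ i < m, z (i + 1) e ∈ A (v i e)) (n : ℕ) (hn : n + 1 ≤ m) :
    ∃ p : H.Walk (v 0 e) (v n e), p.length ≤ n * D := by
  induction n with
  | zero => exact ⟨SimpleGraph.Walk.nil, by simp⟩
  | succ n ih =>
    obtain ⟨p, hp⟩ := ih (by omega)
    obtain ⟨q, hq⟩ := conn (v n e) (v (n + 1) e) (z (n + 1) e) (mR n (by omega)) (mL (n + 1) (by omega))
    refine ⟨p.append (q.mapLe (hH (n + 1) (by omega) (by omega))), ?_⟩
    rw [SimpleGraph.Walk.length_append, SimpleGraph.Walk.length_map]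
    rw [Nat.succ_mul]
    omega

theorem links {K k D : ℕ} {Q : V → V → Prop} {A : V → Finset Γ} {len : Γ → ℕ} {par : Γ → Γ}
    (h : LSok K k D Q A len par) {m : ℕ} {l : ℕ → ℕ} {E : Finset ε} {z : ℕ → ε → Γ} {v : ℕ → ε → V}
    (hL : LPS A len m l E z v) {e : ε} (he : e ∈ E) :
    ∃ (M : ℕ) (w : ℕ → V) (ι : ℕ → ℕ), 1 ≤ M ∧ M ≤ m * D + 1 ∧ w 1 = v 0 e ∧ w M = v (m - 1) e ∧
      (∀ i j, 1 ≤ i → i ≤ M → 1 ≤ j → j ≤ M → w i = w j → i = j) ∧
      ∀ j, 1 ≤ j → j < M → 1 ≤ ι j ∧ ι j < m ∧ (RG A len (z (ι j) e)).Adj (w j) (w (j + 1)) := by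
  classical
  let H : SimpleGraph V :=
    { Adj := fun x y => ∃ i, 1 ≤ i ∧ i < m ∧ (RG A len (z i e)).Adj x y
      symm := ⟨fun x y hxy => by
        obtain ⟨i, h1, h2, h3⟩ := hxy
        exact ⟨i, h1, h2, h3.symm⟩⟩
      loopless := ⟨fun x hx => by
        obtain ⟨i, _, _, h3⟩ := hx
        exact h3.ne rfl⟩ }
  have hH : ∀ i, 1 ≤ i → i < m → RG A len (z i e) ≤ H := by
    intro i h1 h2 x y hxy
    exact ⟨i, h1, h2, hxy⟩
  have hm := hL.pos
  obtain ⟨p, hp⟩ := P3_walk H hH h.conn (fun i hi => hL.memL i hi e he)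
    (fun i hi => hL.memR i hi e he) (m - 1) (by omega)
  have hb : p.bypass.IsPath := p.bypass_isPath
  have hbl : p.bypass.length ≤ m * D :=
    (p.length_bypass_le.trans hp).trans (Nat.mul_le_mul_right D (Nat.sub_le m 1))
  have hadj : ∀ j, ∃ i, 1 ≤ j → j < p.bypass.length + 1 → 1 ≤ i ∧ i < m ∧
      (RG A len (z i e)).Adj (p.bypass.getVert (j - 1)) (p.bypass.getVert (j + 1 - 1)) := by
    intro j
    by_cases hj : 1 ≤ j ∧ j < p.bypass.length + 1
    · have h1 : H.Adj (p.bypass.getVert (j - 1)) (p.bypass.getVert (j - 1 + 1)) :=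
        p.bypass.adj_getVert_succ (by omega)
      have h2 : j + 1 - 1 = j - 1 + 1 := by omega
      rw [h2]
      obtain ⟨i, h3, h4, h5⟩ := h1
      exact ⟨i, fun _ _ => ⟨h3, h4, h5⟩⟩
    · exact ⟨0, fun h1 h2 => absurd ⟨h1, h2⟩ hj⟩
  choose ι hι using hadj
  refine ⟨p.bypass.length + 1, fun j => p.bypass.getVert (j - 1), ι, by omega, by omega, ?_, ?_, ?_, ?_⟩
  · exact p.bypass.getVert_zero
  · exact p.bypass.getVert_length
  · intro i j h1 h2 h3 h4 h5
    have h6 := hb.getVert_injOn (show i - 1 ∈ {i | i ≤ p.bypass.length} by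
      simp only [Set.mem_setOf_eq]; omega) (show j - 1 ∈ {i | i ≤ p.bypass.length} by
      simp only [Set.mem_setOf_eq]; omega) h5
    omega
  · intro j h1 h2
    exact hι j h1 h2

end Pool.Agent.Lib.MP_767201_co.SE
end

section

/-!
# TASK SE M1: basic facts about systems

Proofs. `refl_left`: symmetry and transitivity. `mem_sub`: induction on the flag: the head of `θ` is a subset of `S x` by
`sub`; the tail by `mono`. `top_sub`: `top θ` is empty or the head. `len_le_top`: induction: `top θ ⊂ Q` gives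
`(top θ).card + 1 ≤ Q.card`. `F_top`: induction with `alt`; `¬ F ∅`. `of_suffix`: induction on the longer list with `mono`.
`top_lt`: induction on the longer list (`⊂` is transitive). `lev_lt`: length and card of the top are at most `k`.
`exists_lon`: lengths are at most `k`, the empty flag is related (`Nat.findGreatest` or a maximal element of a bounded set of
numbers). `univ_finite`: lists of length at most `k` over the finite set of the subsets of the finite set `⋃ S x`
(`List.finite_length_le` for the subtype of those subsets, or induction on `k`).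
-/

set_option autoImplicit false

namespace Pool.Agent.Lib.MP_767201_co.SE

variable {V L : Type} [DecidableEq L] {S : V → Finset L} {F : Finset L → Prop} {R : List (Finset L) → V → V → Prop}

theorem Sys.refl_left (h : Sys S F R) {θ : List (Finset L)} {x y : V} (hR : R θ x y) : R θ x x :=
  h.trans θ x y x hR (h.symm θ x y hR)

theorem Sys.refl_right (h : Sys S F R) {θ : List (Finset L)} {x y : V} (hR : R θ x y) : R θ y y :=
  h.trans θ y x y (h.symm θ x y hR) hR

theorem Sys.mem_sub (h : Sys S F R) {θ : List (Finset L)} {x y : V} (hR : R θ x y) : ∀ Q ∈ θ, Q ⊆ S x := by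
  induction θ with
  | nil =>
    intro Q hQ
    exact absurd hQ List.not_mem_nil
  | cons Q' θ ih =>
    intro Q hQ
    rcases List.mem_cons.1 hQ with h1 | h1
    · rw [h1]
      exact h.sub Q' θ x (h.refl_left hR)
    · exact ih (h.mono Q' θ x y hR) Q h1

theorem Sys.top_sub (h : Sys S F R) {θ : List (Finset L)} {x y : V} (hR : R θ x y) : top θ ⊆ S x ∩ S y := by
  cases θ with
  | nil => exact Finset.empty_subset _
  | cons Q θ =>
    exact Finset.subset_inter (h.mem_sub hR Q List.mem_cons_self)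
      (h.mem_sub (h.symm _ _ _ hR) Q List.mem_cons_self)

theorem Sys.len_le_top (h : Sys S F R) {θ : List (Finset L)} {x y : V} (hR : R θ x y) : θ.length ≤ (top θ).card := by
  induction θ with
  | nil => exact Nat.zero_le _
  | cons Q θ ih =>
    have h1 := ih (h.mono Q θ x y hR)
    have h2 : top θ ⊂ Q := h.lt Q θ x (h.refl_left hR)
    have h3 := Finset.card_lt_card h2
    have h4 : top (Q :: θ) = Q := rfl
    rw [h4, List.length_cons]
    omega

theorem Sys.top_card_le (h : Sys S F R) {k : ℕ} (hk : ∀ x, (S x).card ≤ k) {θ : List (Finset L)} {x y : V}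
    (hR : R θ x y) : (top θ).card ≤ k :=
  ((Finset.card_le_card ((h.top_sub hR).trans Finset.inter_subset_left))).trans (hk x)

theorem Sys.len_le (h : Sys S F R) {k : ℕ} (hk : ∀ x, (S x).card ≤ k) {θ : List (Finset L)} {x y : V}
    (hR : R θ x y) : θ.length ≤ k :=
  (h.len_le_top hR).trans (h.top_card_le hk hR)

theorem Sys.F_top (h : Sys S F R) (hF : ¬ F ∅) {θ : List (Finset L)} {x y : V} (hR : R θ x y) :
    F (top θ) ↔ Odd θ.length := by
  induction θ with
  | nil =>
    have h1 : top ([] : List (Finset L)) = ∅ := rfl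
    rw [h1, List.length_nil]
    exact ⟨fun h2 => absurd h2 hF, fun h2 => absurd h2 (by decide)⟩
  | cons Q θ ih =>
    have h1 := ih (h.mono Q θ x y hR)
    have h2 := h.alt Q θ x (h.refl_left hR)
    have h3 : top (Q :: θ) = Q := rfl
    rw [h3, h2, h1, List.length_cons, Nat.odd_add_one]

theorem Sys.of_suffix (h : Sys S F R) {θ θ' : List (Finset L)} {x y : V} (hR : R θ' x y) (hs : θ <:+ θ') : R θ x y := by
  induction θ' with
  | nil =>
    rw [List.suffix_nil.1 hs]
    exact hR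
  | cons Q t ih =>
    rcases List.suffix_cons_iff.1 hs with h1 | h1
    · rw [h1]
      exact hR
    · exact ih (h.mono Q t x y hR) h1

theorem Sys.top_lt (h : Sys S F R) {θ θ' : List (Finset L)} {x y : V} (hR : R θ' x y) (hs : θ <:+ θ') (hne : θ ≠ θ') :
    top θ ⊂ top θ' := by
  induction θ' with
  | nil => exact absurd (List.suffix_nil.1 hs) hne
  | cons Q t ih =>
    rcases List.suffix_cons_iff.1 hs with h1 | h1
    · exact absurd h1 hne
    · have h2 : top t ⊂ top (Q :: t) := h.lt Q t x (h.refl_left hR)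
      by_cases h3 : θ = t
      · rw [h3]
        exact h2
      · exact (ih (h.mono Q t x y hR) h1 h3).trans h2

theorem Sys.lev_lt (h : Sys S F R) {k : ℕ} (hk : ∀ x, (S x).card ≤ k) {θ : List (Finset L)} {x y : V}
    (hR : R θ x y) : lev k θ < (k + 1) * (k + 1) := by
  have h1 := h.len_le hk hR
  have h2 := h.top_card_le hk hR
  unfold lev
  have h3 : θ.length * (k + 1) ≤ k * (k + 1) := Nat.mul_le_mul_right _ h1
  have h4 : (k + 1) * (k + 1) = k * (k + 1) + (k + 1) := Nat.succ_mul _ _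
  omega

theorem Sys.exists_lon (h : Sys S F R) {k : ℕ} (hk : ∀ x, (S x).card ≤ k) (x y : V) : ∃ θ, Lon R x y θ := by
  classical
  let P : ℕ → Prop := fun n => ∃ θ, R θ x y ∧ θ.length = n
  have h0 : P 0 := ⟨[], h.root x y, rfl⟩
  obtain ⟨θ, h1, h2⟩ := Nat.findGreatest_spec (P := P) (Nat.zero_le k) h0
  refine ⟨θ, h1, fun θ' h3 => ?_⟩
  rw [h2]
  exact Nat.le_findGreatest (h.len_le hk h3) ⟨θ', h3, rfl⟩

theorem univ_finite [Finite V] (S : V → Finset L) (k : ℕ) :
    {t : List (Finset L) × V × V | t.1.length ≤ k ∧ ∀ Q ∈ t.1, Q ⊆ S t.2.1}.Finite := by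
  classical
  have := Fintype.ofFinite V
  set U : Finset L := Finset.univ.biUnion S with hU
  have h1 : (Set.image (List.map (Subtype.val : {Q : Finset L // Q ∈ U.powerset} → Finset L))
      {l | l.length ≤ k}).Finite := (List.finite_length_le _ k).image _
  refine ((h1.prod (Set.finite_univ (α := V × V)))).subset ?_
  rintro ⟨l, v, w⟩ ⟨h2, h3⟩
  refine ⟨?_, Set.mem_univ _⟩
  have h4 : ∀ Q ∈ l, Q ∈ U.powerset := by
    intro Q hQ
    rw [Finset.mem_powerset]
    exact (h3 Q hQ).trans (Finset.subset_biUnion_of_mem S (Finset.mem_univ v))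
  refine ⟨l.attachWith _ h4, ?_, ?_⟩
  · change (l.attachWith _ h4).length ≤ k
    rw [List.length_attachWith]
    exact h2
  · simp

theorem Sys.sub_univ (h : Sys S F R) {k : ℕ} (hk : ∀ x, (S x).card ≤ k) :
    {t : List (Finset L) × V × V | R t.1 t.2.1 t.2.2} ⊆ {t | t.1.length ≤ k ∧ ∀ Q ∈ t.1, Q ⊆ S t.2.1} :=
  fun _ ht => ⟨h.len_le hk ht, h.mem_sub ht⟩

end Pool.Agent.Lib.MP_767201_co.SE
end

section

/-!
# TASK SE M2: the join of two classes

`joinR R θ Q x y` changes only the relation of the flag `Q :: θ`: the set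
`P = {x, y} ∪ {u | R (Q::θ) u x} ∪ {u | R (Q::θ) u y}` becomes (is contained in) one class.

Proof of `join_sys`. `root`, `symm`: clear. All elements `u` of `P` satisfy `R θ u x`: for `x`, `y` from `hR`
(symmetry, transitivity), for the others by `mono` and `R θ y x`. Also `Q ⊆ S u`: for `x`, `y` as `Q = S x ∩ S y`; for the others
by `R (Q::θ) u u` and `sub`. `trans` at `Q :: θ`: if `v ∈ P` and `R (Q::θ) v w` then `w ∈ P` (`v = x`: `R (Q::θ) w x`;
`R (Q::θ) v x`: then `R (Q::θ) w x`), and the same from the other side; if both pairs are of the new kind: clear.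
`mono` at `Q :: θ`: `u, v ∈ P` are `R θ`-related to `x`. `mono` at `Q' :: Q :: θ`: old relation. `sub`, `lt`, `alt` at `Q :: θ`
for `u ∈ P`: above, `hlt`, `halt`. Note `Q :: θ ≠ θ`.
`join_lon`: the new relation contains the old one, so if `(u, v)` is not new at `Q :: θ` the two systems have the same related flags.
-/

set_option autoImplicit false

namespace Pool.Agent.Lib.MP_767201_co.SE

variable {V L : Type} [DecidableEq L] {S : V → Finset L} {F : Finset L → Prop} {R : List (Finset L) → V → V → Prop}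

omit [DecidableEq L] in
/-- The join. -/
def joinR (R : List (Finset L) → V → V → Prop) (θ : List (Finset L)) (Q : Finset L) (x y : V) :
    List (Finset L) → V → V → Prop :=
  fun θ' u v => R θ' u v ∨ (θ' = Q :: θ ∧ (u = x ∨ u = y ∨ R (Q :: θ) u x ∨ R (Q :: θ) u y) ∧
    (v = x ∨ v = y ∨ R (Q :: θ) v x ∨ R (Q :: θ) v y))

theorem join_sys (h : Sys S F R) {θ : List (Finset L)} {Q : Finset L} {x y : V} (hR : R θ x y) (hQ : Q = S x ∩ S y)
    (hlt : top θ ⊂ Q) (halt : F Q ↔ ¬ F (top θ)) : Sys S F (joinR R θ Q x y) := by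
  have hPx : ∀ u, (u = x ∨ u = y ∨ R (Q :: θ) u x ∨ R (Q :: θ) u y) → R θ u x := by
    rintro u (rfl | rfl | hu | hu)
    · exact h.refl_left hR
    · exact h.symm _ _ _ hR
    · exact h.mono _ _ _ _ hu
    · exact h.trans _ _ _ _ (h.mono _ _ _ _ hu) (h.symm _ _ _ hR)
  have hPS : ∀ u, (u = x ∨ u = y ∨ R (Q :: θ) u x ∨ R (Q :: θ) u y) → Q ⊆ S u := by
    rintro u (rfl | rfl | hu | hu)
    · rw [hQ]; exact Finset.inter_subset_left
    · rw [hQ]; exact Finset.inter_subset_right
    · exact h.sub _ _ _ (h.refl_left hu)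
    · exact h.sub _ _ _ (h.refl_left hu)
  have hPr : ∀ v w, (v = x ∨ v = y ∨ R (Q :: θ) v x ∨ R (Q :: θ) v y) → R (Q :: θ) v w →
      (w = x ∨ w = y ∨ R (Q :: θ) w x ∨ R (Q :: θ) w y) := by
    rintro v w (rfl | rfl | hv | hv) hvw
    · exact Or.inr (Or.inr (Or.inl (h.symm _ _ _ hvw)))
    · exact Or.inr (Or.inr (Or.inr (h.symm _ _ _ hvw)))
    · exact Or.inr (Or.inr (Or.inl (h.trans _ _ _ _ (h.symm _ _ _ hvw) hv)))
    · exact Or.inr (Or.inr (Or.inr (h.trans _ _ _ _ (h.symm _ _ _ hvw) hv)))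
  refine ⟨fun u v => Or.inl (h.root u v), ?_, ?_, ?_, ?_, ?_, ?_⟩
  · rintro θ' u v (h1 | ⟨h1, h2, h3⟩)
    · exact Or.inl (h.symm _ _ _ h1)
    · exact Or.inr ⟨h1, h3, h2⟩
  · rintro θ' u v w (h1 | ⟨h1, h2, h3⟩) (h4 | ⟨h4, h5, h6⟩)
    · exact Or.inl (h.trans _ _ _ _ h1 h4)
    · rw [h4] at h1
      exact Or.inr ⟨h4, hPr v u h5 (h.symm _ _ _ h1), h6⟩
    · rw [h1] at h4
      exact Or.inr ⟨h1, h2, hPr v w h3 h4⟩
    · exact Or.inr ⟨h1, h2, h6⟩
  · rintro Q' θ' u v (h1 | ⟨h1, h2, h3⟩)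
    · exact Or.inl (h.mono _ _ _ _ h1)
    · obtain ⟨_, rfl⟩ := List.cons.inj h1
      exact Or.inl (h.trans _ _ _ _ (hPx u h2) (h.symm _ _ _ (hPx v h3)))
  · rintro Q' θ' u (h1 | ⟨h1, h2, _⟩)
    · exact h.sub _ _ _ h1
    · obtain ⟨h4, _⟩ := List.cons.inj h1
      rw [h4]
      exact hPS u h2
  · rintro Q' θ' u (h1 | ⟨h1, _, _⟩)
    · exact h.lt _ _ _ h1
    · obtain ⟨h4, h5⟩ := List.cons.inj h1
      rw [h4, h5]
      exact hlt
  · rintro Q' θ' u (h1 | ⟨h1, _, _⟩)
    · exact h.alt _ _ _ h1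
    · obtain ⟨h4, h5⟩ := List.cons.inj h1
      rw [h4, h5]
      exact halt

omit [DecidableEq L] in
theorem join_old {θ θ' : List (Finset L)} {Q : Finset L} {x y : V} (hne : θ' ≠ Q :: θ) :
    joinR R θ Q x y θ' = R θ' := by
  funext u v
  exact propext ⟨fun h => h.elim id (fun h => absurd h.1 hne), Or.inl⟩

omit [DecidableEq L] in
theorem join_new {θ : List (Finset L)} {Q : Finset L} {x y : V} : joinR R θ Q x y (Q :: θ) x y :=
  Or.inr ⟨rfl, Or.inl rfl, Or.inr (Or.inl rfl)⟩

omit [DecidableEq L] in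
theorem join_lon {θ : List (Finset L)} {Q : Finset L} {x y u v : V} {θ' : List (Finset L)}
    (hl : Lon (joinR R θ Q x y) u v θ') : Lon R u v θ' ∨ θ.length + 1 ≤ θ'.length := by
  obtain ⟨h1 | ⟨h1, _, _⟩, h2⟩ := hl
  · exact Or.inl ⟨h1, fun θ'' h3 => h2 θ'' (Or.inl h3)⟩
  · right
    rw [h1, List.length_cons]

end Pool.Agent.Lib.MP_767201_co.SE
end

section

/-!
# TASK SE M9a: the labels of an optimal system

`labs R x`: the pairs (nonempty flag `θ` with `R θ x x`, class of `x` for `R θ`) whose class has at least two elements. `parOf R (θ, C)`: the tail of `θ` and the class containing `C`.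

Proofs. `labs_finite`, `labs_ncard`: `p ∈ labs R x` is determined by `p.1`, a list of length at most `k` (`len_le`) whose members are subsets of `S x` (`mem_sub`), `(S x).card ≤ k`. The map
`p ↦ (fun i : Fin k => p.1[i]?)` into the functions from `Fin k` to `Option` of subsets of `S x` (at most `2^k + 1` values) is injective on lists of length at most `k`. So at most `(2^k+1)^k`.
`mem_labs_inter`: from left to right: `p.2 = {z | R p.1 x z} = {z | R p.1 y z}` contains `y`. From right to left: `R p.1 x x`, `R p.1 y y`, the classes of `x` and of `y` agree (symmetry, transitivity) and contain `x ≠ y`.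
`par_mem`: `p.1 = Q :: θ`, `θ ≠ []`. `R θ x x` by `mono`. `{z | ∃ x' ∈ p.2, R θ x' z} = {z | R θ x z}`: `x' ∈ p.2` gives `R (Q::θ) x x'`, so `R θ x x'`; and `x ∈ p.2`. The `y ≠ x` with `R (Q::θ) x y` has `R θ x y`.
-/

set_option autoImplicit false

namespace Pool.Agent.Lib.MP_767201_co.SE

variable {V L : Type} [DecidableEq L] {S : V → Finset L} {F : Finset L → Prop} {R : List (Finset L) → V → V → Prop}

omit [DecidableEq L] in
/-- The labels of `x`. -/
def labs (R : List (Finset L) → V → V → Prop) (x : V) : Set (List (Finset L) × Set V) :=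
  {p | p.1 ≠ [] ∧ R p.1 x x ∧ p.2 = {y | R p.1 x y} ∧ ∃ y, y ≠ x ∧ R p.1 x y}

omit [DecidableEq L] in
/-- The parent of a label. -/
def parOf (R : List (Finset L) → V → V → Prop) (p : List (Finset L) × Set V) : List (Finset L) × Set V :=
  (p.1.tail, {z | ∃ x ∈ p.2, R p.1.tail x z})

omit [DecidableEq L] in
private theorem M9a_get (P : Finset (Finset L)) (l : List (Finset L)) (hl : ∀ Q ∈ l, Q ∈ P) (i : ℕ)
    (g : Finset L → Option {Q // Q ∈ P}) (hg : ∀ Q (h : Q ∈ P), g Q = some ⟨Q, h⟩) :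
    ((l[i]?).bind g).map Subtype.val = l[i]? := by
  cases hc : l[i]? with
  | none => rfl
  | some Q =>
    have h1 : Q ∈ l := List.mem_of_getElem? hc
    rw [Option.bind_some, hg Q (hl Q h1)]
    rfl

private theorem M9a_inj (h : Sys S F R) {k : ℕ} (hk : ∀ x, (S x).card ≤ k) (x : V) :
    ∃ f : List (Finset L) × Set V → (Fin k → Option {Q // Q ∈ (S x).powerset}), Set.InjOn f (labs R x) := by
  classical
  refine ⟨fun p i => (p.1[i.val]?).bind (fun Q => if h : Q ∈ (S x).powerset then some ⟨Q, h⟩ else none), ?_⟩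
  intro p hp q hq hpq
  have hpl : ∀ Q ∈ p.1, Q ∈ (S x).powerset := fun Q hQ => Finset.mem_powerset.mpr (h.mem_sub hp.2.1 Q hQ)
  have hql : ∀ Q ∈ q.1, Q ∈ (S x).powerset := fun Q hQ => Finset.mem_powerset.mpr (h.mem_sub hq.2.1 Q hQ)
  have h1 : p.1 = q.1 := by
    apply List.ext_getElem?
    intro i
    by_cases hi : i < k
    · have h2 := congrFun hpq ⟨i, hi⟩
      have h3 := M9a_get _ p.1 hpl i (fun Q => if h : Q ∈ (S x).powerset then some ⟨Q, h⟩ else none)
        (fun Q hQ => dif_pos hQ)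
      have h4 := M9a_get _ q.1 hql i (fun Q => if h : Q ∈ (S x).powerset then some ⟨Q, h⟩ else none)
        (fun Q hQ => dif_pos hQ)
      rw [← h3, ← h4]
      exact congrArg (Option.map Subtype.val) h2
    · have h2 := h.len_le hk hp.2.1
      have h3 := h.len_le hk hq.2.1
      rw [List.getElem?_eq_none (by omega), List.getElem?_eq_none (by omega)]
  apply Prod.ext h1
  rw [hp.2.2.1, hq.2.2.1, h1]

theorem labs_finite (h : Sys S F R) {k : ℕ} (hk : ∀ x, (S x).card ≤ k) (x : V) : (labs R x).Finite := by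
  obtain ⟨f, hf⟩ := M9a_inj h hk x
  exact Set.Finite.of_finite_image (Set.toFinite _) hf

theorem labs_ncard (h : Sys S F R) {k : ℕ} (hk : ∀ x, (S x).card ≤ k) (x : V) :
    (labs R x).ncard ≤ (2 ^ k + 1) ^ k := by
  obtain ⟨f, hf⟩ := M9a_inj h hk x
  have h1 : (labs R x).ncard ≤ (Set.univ : Set (Fin k → Option {Q // Q ∈ (S x).powerset})).ncard :=
    Set.ncard_le_ncard_of_injOn f (fun _ _ => Set.mem_univ _) hf
  rw [Set.ncard_univ, Nat.card_eq_fintype_card, Fintype.card_fun, Fintype.card_option, Fintype.card_fin,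
    Fintype.card_coe, Finset.card_powerset] at h1
  refine h1.trans (Nat.pow_le_pow_left ?_ k)
  have h2 := Nat.pow_le_pow_right (show 0 < 2 by norm_num) (hk x)
  omega

theorem mem_labs_inter (h : Sys S F R) {x y : V} (hxy : x ≠ y) (p : List (Finset L) × Set V) :
    (p ∈ labs R x ∧ p ∈ labs R y) ↔ (p.1 ≠ [] ∧ R p.1 x y ∧ p.2 = {z | R p.1 x z}) := by
  constructor
  · rintro ⟨⟨h1, h2, h3, _⟩, ⟨_, h4, h5, _⟩⟩
    refine ⟨h1, ?_, h3⟩
    have h6 : y ∈ p.2 := by
      rw [h5]
      exact h4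
    rw [h3] at h6
    exact h6
  · rintro ⟨h1, hR, h3⟩
    refine ⟨⟨h1, h.refl_left hR, h3, y, hxy.symm, hR⟩, ⟨h1, h.refl_right hR, ?_, x, hxy, h.symm _ _ _ hR⟩⟩
    rw [h3]
    ext z
    exact ⟨fun hz => h.trans _ _ _ _ (h.symm _ _ _ hR) hz, fun hz => h.trans _ _ _ _ hR hz⟩

theorem par_mem (h : Sys S F R) {x : V} {p : List (Finset L) × Set V} (hp : p ∈ labs R x) (h2 : 2 ≤ p.1.length) :
    parOf R p ∈ labs R x := by
  obtain ⟨θ', C⟩ := p
  obtain ⟨h1, h2', h3, y, hy, hRy⟩ := hp
  cases θ' with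
  | nil => exact absurd rfl h1
  | cons Q θ =>
    have h3' : C = {y | R (Q :: θ) x y} := h3
    have h2'' : 2 ≤ (Q :: θ).length := h2
    have hRxx : R θ x x := h.mono _ _ _ _ h2'
    refine ⟨?_, hRxx, ?_, y, hy, h.mono _ _ _ _ hRy⟩
    · intro hnil
      have h4 : θ = [] := hnil
      rw [h4] at h2''
      simp at h2''
    · show {z | ∃ x' ∈ C, R θ x' z} = {z | R θ x z}
      ext z
      constructor
      · rintro ⟨x', hx', hz⟩
        rw [h3'] at hx'
        exact h.trans _ _ _ _ (h.mono _ _ _ _ hx') hz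
      · intro hz
        refine ⟨x, ?_, hz⟩
        rw [h3']
        exact h2'

end Pool.Agent.Lib.MP_767201_co.SE
end
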