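import Pool.Agent.Lib.MP_767201_co.Mg.G010

section

/-!
# TASK SE M3: the completion lemma

Proof of `join_step`. `x ≠ y`, `θ` longest for `(x,y)`, invalid. `Q := S x ∩ S y`. `top θ ⊆ Q` (`top_sub`); `F (top θ) ↔ Odd θ.length`
(`F_top`) and not (`F Q ↔ Odd θ.length`), so `F Q ↔ ¬ F (top θ)` and `top θ ≠ Q`, so `top θ ⊂ Q`. `R' = joinR R θ Q x y`. It is a
system (`join_sys`). `¬ R (Q::θ) x y` as `θ` is longest; so `R'` has a new triple. `R' θ' = R θ'` for `lev k θ' ≤ n`: `lev k (Q::θ) =
(θ.length+1)(k+1) + Q.card > n` by `Inv`, so `θ' ≠ Q::θ` (`join_old`). `Inv` for `R'`: let `(u,v)` be invalid for `R'` with a longest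
`θ'`. By `join_lon` either `θ'` is longest for `R`: use `Inv` of `R`; or `θ.length + 1 ≤ θ'.length`: then
`(θ'.length+1)(k+1) ≥ (θ.length+2)(k+1) > (θ.length+1)(k+1) + Q.card > n`, as `Q.card ≤ (S x).card ≤ k`.

Proof of `completion`. All systems `R'` have their set of related triples inside the finite set of `univ_finite` (`Sys.sub_univ`), so the
number of triples (`Set.ncard`) is bounded. Among the systems `R'` with `Inv S F R' k n` and `R' θ = R θ` for `lev k θ ≤ n`
choose one with the maximal number of triples. If it is not valid, `join_step` gives one with more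
(`Set.ncard_lt_ncard` for a strict inclusion of finite sets).
-/

set_option autoImplicit false

namespace Pool.Agent.Lib.MP_767201_co.SE

variable {V L : Type} [DecidableEq L] {S : V → Finset L} {F : Finset L → Prop} {R : List (Finset L) → V → V → Prop}

theorem join_step {k n : ℕ} (hk : ∀ x, (S x).card ≤ k) (hF : ¬ F ∅) (h : Sys S F R) (hi : Inv S F R k n)
    {x y : V} (hxy : x ≠ y) {θ : List (Finset L)} (hl : Lon R x y θ) (hbad : ¬ (F (S x ∩ S y) ↔ Odd θ.length)) :
    ∃ R' : List (Finset L) → V → V → Prop, Sys S F R' ∧ Inv S F R' k n ∧ (∀ θ', lev k θ' ≤ n → R' θ' = R θ') ∧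
      {t : List (Finset L) × V × V | R t.1 t.2.1 t.2.2} ⊂ {t | R' t.1 t.2.1 t.2.2} := by
  have hR : R θ x y := hl.1
  have hFt := h.F_top hF hR
  have hts := h.top_sub hR
  have hne : top θ ≠ S x ∩ S y := by
    intro he
    rw [he] at hFt
    exact hbad hFt
  have hlt : top θ ⊂ S x ∩ S y := lt_of_le_of_ne hts hne
  have halt : F (S x ∩ S y) ↔ ¬ F (top θ) := by
    rw [hFt]
    tauto
  have hnew : ¬ R ((S x ∩ S y) :: θ) x y := by
    intro h1
    have h2 := hl.2 _ h1
    rw [List.length_cons] at h2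
    omega
  have h2 := hi x y hxy θ hl hbad
  refine ⟨joinR R θ (S x ∩ S y) x y, join_sys h hR rfl hlt halt, ?_, ?_, ?_, ?_⟩
  · intro u v huv θ' hl' hbad'
    rcases join_lon hl' with h1 | h1
    · exact hi u v huv θ' h1 hbad'
    · have h3 : (S x ∩ S y).card ≤ k := (Finset.card_le_card Finset.inter_subset_left).trans (hk x)
      have h4 : (θ.length + 2) * (k + 1) ≤ (θ'.length + 1) * (k + 1) :=
        Nat.mul_le_mul_right _ (by omega)
      have h5 : (θ.length + 2) * (k + 1) = (θ.length + 1) * (k + 1) + (k + 1) := by ring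
      calc n < (θ.length + 1) * (k + 1) + (S x ∩ S y).card := h2
        _ ≤ (θ.length + 1) * (k + 1) + (k + 1) := by omega
        _ ≤ (θ'.length + 1) * (k + 1) := by rw [← h5]; exact h4
        _ ≤ _ := Nat.le_add_right _ _
  · intro θ' hθ'
    refine join_old ?_
    intro he
    have h3 : lev k θ' = (θ.length + 1) * (k + 1) + (S x ∩ S y).card := by
      rw [he]
      rfl
    rw [h3] at hθ'
    exact absurd h2 (not_lt.2 hθ')
  · intro t ht
    exact Or.inl ht
  · intro hsub
    have h3 : ((S x ∩ S y) :: θ, x, y) ∈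
        {t : List (Finset L) × V × V | joinR R θ (S x ∩ S y) x y t.1 t.2.1 t.2.2} := join_new
    exact hnew (hsub h3)

theorem completion [Finite V] {k n : ℕ} (hk : ∀ x, (S x).card ≤ k) (hF : ¬ F ∅) (h : Sys S F R)
    (hi : Inv S F R k n) :
    ∃ R' : List (Finset L) → V → V → Prop, Sys S F R' ∧ Valid S F R' ∧ ∀ θ, lev k θ ≤ n → R' θ = R θ := by
  have hfin := univ_finite S k
  have key : ∀ m : ℕ, ∀ R₁ : List (Finset L) → V → V → Prop, Sys S F R₁ → Inv S F R₁ k n →
      (∀ θ, lev k θ ≤ n → R₁ θ = R θ) →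
      Set.ncard {t : List (Finset L) × V × V | t.1.length ≤ k ∧ ∀ Q ∈ t.1, Q ⊆ S t.2.1} ≤
        m + Set.ncard {t : List (Finset L) × V × V | R₁ t.1 t.2.1 t.2.2} →
      ∃ R' : List (Finset L) → V → V → Prop, Sys S F R' ∧ Valid S F R' ∧
        ∀ θ, lev k θ ≤ n → R' θ = R θ := by
    intro m
    induction m with
    | zero =>
      intro R₁ h₁ hi₁ hR₁ hm
      by_cases hv : Valid S F R₁
      · exact ⟨R₁, h₁, hv, hR₁⟩
      · exfalso
        unfold Valid at hv
        push Not at hv
        obtain ⟨x, y, hxy, θ, hl, hbad⟩ := hv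
        obtain ⟨R₂, h₂, _, _, hss⟩ := join_step hk hF h₁ hi₁ hxy hl (by tauto)
        have h3 := Set.ncard_lt_ncard hss (hfin.subset (h₂.sub_univ hk))
        have h4 := Set.ncard_le_ncard (h₂.sub_univ hk) hfin
        omega
    | succ m ih =>
      intro R₁ h₁ hi₁ hR₁ hm
      by_cases hv : Valid S F R₁
      · exact ⟨R₁, h₁, hv, hR₁⟩
      · unfold Valid at hv
        push Not at hv
        obtain ⟨x, y, hxy, θ, hl, hbad⟩ := hv
        obtain ⟨R₂, h₂, hi₂, hR₂, hss⟩ := join_step hk hF h₁ hi₁ hxy hl (by tauto)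
        have h3 := Set.ncard_lt_ncard hss (hfin.subset (h₂.sub_univ hk))
        exact ih R₂ h₂ hi₂ (fun θ' hθ' => (hR₂ θ' hθ').trans (hR₁ θ' hθ')) (by omega)
  exact key _ R h hi (fun _ _ => rfl) (Nat.le_add_right _ _)

end Pool.Agent.Lib.MP_767201_co.SE
end

section

/-!
# TASK SE M4: an optimal system exists

Proof of `lexmin`. Induction on `N`. Step: let `a` be given for `N`. Among the `a'` with `P a'` and `p a' m = p a m` for all
`m < N` choose `a₁` with `p a₁ N` minimal. For `n < N` the condition for `a₁` follows from the one of `a` (the first `N` values agree), for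
`n = N` from the choice.
Proof of `exists_opt`. `R₀ θ x y := θ = []` is a system (everything about `Q :: θ` is void), and `Inv S F R₀ k 0` holds as
`0 < (θ.length+1)(k+1) + _`. `completion` gives a valid system; `lexmin` with `P R := Sys S F R ∧ Valid S F R`, `p = pn k`,
`N = (k+1)(k+1)`.
-/

set_option autoImplicit false

namespace Pool.Agent.Lib.MP_767201_co.SE

theorem lexmin {α : Type} (P : α → Prop) (p : α → ℕ → ℕ) (N : ℕ) (h : ∃ a, P a) :
    ∃ a, P a ∧ ∀ a', P a' → ∀ n < N, (∀ m < n, p a' m = p a m) → p a n ≤ p a' n := by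
  classical
  induction N with
  | zero =>
    obtain ⟨a, ha⟩ := h
    exact ⟨a, ha, fun _ _ n hn => absurd hn (Nat.not_lt_zero n)⟩
  | succ N ih =>
    obtain ⟨a, ha, hmin⟩ := ih
    have hex : ∃ v, ∃ a', P a' ∧ (∀ m < N, p a' m = p a m) ∧ p a' N = v :=
      ⟨_, a, ha, fun _ _ => rfl, rfl⟩
    obtain ⟨a₁, h1, h2, h3⟩ := Nat.find_spec hex
    refine ⟨a₁, h1, fun a' ha' n hn heq => ?_⟩
    rcases Nat.lt_succ_iff_lt_or_eq.1 hn with hn' | hn'
    · rw [h2 n hn']
      exact hmin a' ha' n hn' fun m hm => by rw [heq m hm, h2 m (hm.trans hn')]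
    · rw [hn'] at heq ⊢
      rw [h3]
      exact Nat.find_min' hex ⟨a', ha', fun m hm => by rw [heq m hm, h2 m hm], rfl⟩

theorem exists_opt {V L : Type} [DecidableEq L] [Finite V] (S : V → Finset L) (F : Finset L → Prop) {k : ℕ}
    (hk : ∀ x, (S x).card ≤ k) (hF : ¬ F ∅) : ∃ R : List (Finset L) → V → V → Prop, Opt S F k R := by
  have h0 : Sys S F (fun θ (_ _ : V) => θ = []) :=
    { root := fun _ _ => rfl
      symm := fun _ _ _ h => h
      trans := fun _ _ _ _ h _ => h
      mono := fun _ _ _ _ h => absurd h (by simp)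
      sub := fun _ _ _ h => absurd h (by simp)
      lt := fun _ _ _ h => absurd h (by simp)
      alt := fun _ _ _ h => absurd h (by simp) }
  have h1 : Inv S F (fun θ (_ _ : V) => θ = []) k 0 := by
    intro x y _ θ _ _
    positivity
  obtain ⟨R', hs, hv, _⟩ := completion hk hF h0 h1
  obtain ⟨R, ⟨hRs, hRv⟩, hmin⟩ := lexmin
    (fun R : List (Finset L) → V → V → Prop => Sys S F R ∧ Valid S F R) (fun R => pn k R)
    ((k + 1) * (k + 1)) ⟨R', hs, hv⟩
  exact ⟨R, hRs, hRv, fun R₁ h1 h2 => hmin R₁ ⟨h1, h2⟩⟩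

end Pool.Agent.Lib.MP_767201_co.SE
end

section

/-!
# TASK SE M9b: validity of the label structure

Proof of `ls_val`. There is a longest flag `θ` for `(x, y)` (`exists_lon`), and validity gives `F (S x ∩ S y) ↔ Odd θ.length`. Show `n = θ.length`: `n` is the maximal length of a common label by `IsL`. By `mem_labs_inter` the common labels are
the `(θ', class)` with `θ' ≠ []`, `R θ' x y`. If `n = 0` and `θ ≠ []` then `(θ, class of x)` is a common label of positive length, contradiction to the first part of `IsL`; so `θ = []`. If `n` is the length of a common label then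
`n ≤ θ.length`, `θ ≠ []`, and `(θ, class of x)` is a common label, so `θ.length ≤ n`.
-/

set_option autoImplicit false

namespace Pool.Agent.Lib.MP_767201_co.SE

variable {V L : Type} [DecidableEq L] {S : V → Finset L} {F : Finset L → Prop} {R : List (Finset L) → V → V → Prop}

theorem ls_val (h : Sys S F R) (hv : Valid S F R) {k : ℕ} (hk : ∀ x, (S x).card ≤ k)
    {A : V → Finset (List (Finset L) × Set V)} (hA : ∀ x p, p ∈ A x ↔ p ∈ labs R x) {x y : V} {n : ℕ} (hxy : x ≠ y)
    (hn : IsL A (fun p => p.1.length) x y n) : F (S x ∩ S y) ↔ Odd n := by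
  obtain ⟨θ, hθ⟩ := h.exists_lon hk x y
  have h1 := hv x y hxy θ hθ
  have h2 : θ.length ≤ n := by
    by_cases h0 : θ = []
    · rw [h0]
      exact Nat.zero_le _
    · obtain ⟨h3, h4⟩ := (mem_labs_inter h hxy (θ, {z | R θ x z})).2 ⟨h0, hθ.1, rfl⟩
      exact hn.1 _ ((hA _ _).2 h3) ((hA _ _).2 h4)
  have h3 : n ≤ θ.length := by
    rcases hn.2 with h0 | ⟨g, hx, hy, hg⟩
    · rw [h0]
      exact Nat.zero_le _
    · obtain ⟨_, h4, _⟩ := (mem_labs_inter h hxy g).1 ⟨(hA _ _).1 hx, (hA _ _).1 hy⟩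
      rw [← hg]
      exact hθ.2 g.1 h4
  rw [le_antisymm h3 h2]
  exact h1

end Pool.Agent.Lib.MP_767201_co.SE
end

section

/-!
# TASK SE M5: splitting the classes of a flag

`splitR R θ₀ X θ u v`: `R θ u v` and, if `θ₀` is a suffix of `θ`, then `u ∈ X ↔ v ∈ X`.

`split_sys`: `root` as `θ₀ ≠ []` is not a suffix of `[]`; `symm`, `trans` clear; `mono`: a suffix of `θ` is a suffix of `Q :: θ`; `sub`, `lt`,
`alt` as `splitR` is contained in `R`.
`split_inv`: let `x ≠ y`, `θ` longest for `splitR`, invalid. `θ₀ = Q₀ :: θ₁`. If `R θ₀ x y` is false or `x ∈ X ↔ y ∈ X` then `splitR` and `R` have the same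
related flags at `(x,y)` (a related flag with suffix `θ₀` implies `R θ₀ x y` by `of_suffix`), so `θ` is longest for `R` and `(x,y)` is valid, a
contradiction. So `R θ₀ x y` and the pair crosses; by symmetry (the condition `hno` is symmetric: the graph is, and use `Finset.inter_comm`) `x ∈ X`, `y ∉ X`.
`R θ₁ x y` (`mono`) and `θ₀` is not a suffix of `θ₁` (length), so `θ₁.length ≤ θ.length`. If `θ₀.length ≤ θ.length` then
`(θ.length+1)(k+1) ≥ θ₀.length (k+1) + (k+1) > lev k θ₀` as `(top θ₀).card ≤ k` (`top_card_le`). Otherwise `θ.length + 1 = θ₀.length`. `top θ₀ ⊆ S x ∩ S y` (`top_sub`), so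
`(top θ₀).card ≤ (S x ∩ S y).card`; if this is strict, done. If not, `S x ∩ S y = top θ₀`, and then `x, y` are adjacent in `NG S R θ₀`, a contradiction to `hno`: let `θ' ≠ θ₀`,
`R θ' x y`. If `θ₀` is a suffix of `θ'` then `top θ₀ ⊂ top θ' ⊆ S x ∩ S y = top θ₀` (`top_lt`, `top_sub`), impossible. So `splitR θ' x y`, `θ'.length ≤ θ.length < θ₀.length`.
-/

set_option autoImplicit false

namespace Pool.Agent.Lib.MP_767201_co.SE

variable {V L : Type} [DecidableEq L] {S : V → Finset L} {F : Finset L → Prop} {R : List (Finset L) → V → V → Prop}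

omit [DecidableEq L] in
/-- The split system. -/
def splitR (R : List (Finset L) → V → V → Prop) (θ₀ : List (Finset L)) (X : Set V) : List (Finset L) → V → V → Prop :=
  fun θ u v => R θ u v ∧ (θ₀ <:+ θ → (u ∈ X ↔ v ∈ X))

theorem split_sys (h : Sys S F R) {θ₀ : List (Finset L)} (h0 : θ₀ ≠ []) (X : Set V) : Sys S F (splitR R θ₀ X) := by
  refine ⟨?_, ?_, ?_, ?_, ?_, ?_, ?_⟩
  · intro x y
    exact ⟨h.root x y, fun hs => absurd (List.suffix_nil.mp hs) h0⟩
  · intro θ x y hR
    exact ⟨h.symm _ _ _ hR.1, fun hs => (hR.2 hs).symm⟩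
  · intro θ x y z h1 h2
    exact ⟨h.trans _ _ _ _ h1.1 h2.1, fun hs => (h1.2 hs).trans (h2.2 hs)⟩
  · intro Q θ x y h1
    exact ⟨h.mono _ _ _ _ h1.1, fun hs => h1.2 (hs.trans (List.suffix_cons Q θ))⟩
  · intro Q θ x h1
    exact h.sub _ _ _ h1.1
  · intro Q θ x h1
    exact h.lt _ _ _ h1.1
  · intro Q θ x h1
    exact h.alt _ _ _ h1.1

theorem split_inv {k : ℕ} (hk : ∀ x, (S x).card ≤ k) (h : Sys S F R) (hv : Valid S F R) {θ₀ : List (Finset L)}
    (h0 : θ₀ ≠ []) (X : Set V) (hno : ∀ u ∈ X, ∀ v, v ∉ X → ¬ (NG S R θ₀).Adj u v) :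
    Inv S F (splitR R θ₀ X) k (lev k θ₀) := by
  intro x y hxy θ hlon hnv
  by_cases hcase : R θ₀ x y ∧ ¬ (x ∈ X ↔ y ∈ X)
  · obtain ⟨hR0, hX⟩ := hcase
    have hnadj : ¬ (NG S R θ₀).Adj x y := by
      intro hadj
      by_cases hx : x ∈ X
      · have hy : y ∉ X := fun hy => hX ⟨fun _ => hy, fun _ => hx⟩
        exact hno x hx y hy hadj
      · have hy : y ∈ X := by
          by_contra hy
          exact hX ⟨fun h1 => absurd h1 hx, fun h1 => absurd h1 hy⟩
        exact hno y hy x hx hadj.symm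
    cases θ₀ with
    | nil => exact absurd rfl h0
    | cons Q₀ θ₁ =>
      have h1 : R θ₁ x y := h.mono _ _ _ _ hR0
      have h2 : splitR R (Q₀ :: θ₁) X θ₁ x y := by
        refine ⟨h1, fun hs => ?_⟩
        have h3 := hs.length_le
        rw [List.length_cons] at h3
        omega
      have h3 : θ₁.length ≤ θ.length := hlon.2 _ h2
      have htk : (top (Q₀ :: θ₁)).card ≤ k := h.top_card_le hk hR0
      by_cases h4 : (Q₀ :: θ₁).length ≤ θ.length
      · have h5 : (Q₀ :: θ₁).length * (k + 1) ≤ θ.length * (k + 1) := Nat.mul_le_mul_right _ h4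
        unfold lev
        rw [Nat.add_mul]
        omega
      · have h5 : θ.length + 1 = (Q₀ :: θ₁).length := by
          rw [List.length_cons] at h4 ⊢
          omega
        have h6 : top (Q₀ :: θ₁) ⊆ S x ∩ S y := h.top_sub hR0
        have h7 := Finset.card_le_card h6
        rcases h7.lt_or_eq with h8 | h8
        · unfold lev
          rw [h5]
          omega
        · exfalso
          have h9 : top (Q₀ :: θ₁) = S x ∩ S y := Finset.eq_of_subset_of_card_le h6 h8.ge
          apply hnadj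
          refine ⟨hxy, hR0, h.symm _ _ _ hR0, h9.symm, ?_⟩
          intro θ' hne hR' _
          by_cases hs : (Q₀ :: θ₁) <:+ θ'
          · exfalso
            have h10 := h.top_lt hR' hs hne.symm
            have h11 := h.top_sub hR'
            rw [← h9] at h11
            exact h10.2 h11
          · have h10 : θ'.length ≤ θ.length := hlon.2 _ ⟨hR', fun hs' => absurd hs' hs⟩
            omega
  · exfalso
    have hiff : ∀ θ', R θ' x y → splitR R θ₀ X θ' x y := by
      intro θ' hR'
      refine ⟨hR', fun hs => ?_⟩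
      by_contra hc
      exact hcase ⟨h.of_suffix hR' hs, hc⟩
    exact hnv (hv x y hxy θ ⟨hlon.1.1, fun θ' hR' => hlon.2 θ' (hiff θ' hR')⟩)

end Pool.Agent.Lib.MP_767201_co.SE
end

section

/-!
# TASK SE M6: the exact pairs connect every class

Proof of `visible`. `X := {w | R θ u w ∧ (NG S R θ).Reachable u w}`. No element `a` of `X` is adjacent (in `NG S R θ`) to an element `b ∉ X`: adjacency
includes `R θ a b`, so `R θ u b` and `b` is reachable. Suppose `v` is not reachable from `u`; then `u ∈ X` (`R θ u u`), `v ∉ X`. `split_inv` and `completion` (with `n = lev k θ`): a valid system `R'` with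
`R' θ' = splitR R θ X θ'` for `lev k θ' ≤ lev k θ`.
`pn_split_lt`: for `m < lev k θ`: `splitR` and `R` have the same triples at the level `m`: if `θ` is a suffix of `θ'` and `R θ' a b` then `lev k θ ≤ lev k θ'` (equal if `θ' = θ`; otherwise
`θ'.length ≥ θ.length + 1` and `(top θ).card ≤ k`).
At the level `n = lev k θ`: the triples of `splitR` are a subset of those of `R`, and `(θ, u, v)` is not one of `splitR`. The set of all triples is finite (`univ_finite`, `Sys.sub_univ`), so `pn` decreases strictly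
(`Set.ncard_lt_ncard`). This contradicts `Opt.min` (`lev k θ < (k+1)(k+1)` by `lev_lt`; `pn k R' m = pn k (splitR R θ X) m = pn k R m` for `m < n`).
-/

set_option autoImplicit false

namespace Pool.Agent.Lib.MP_767201_co.SE

variable {V L : Type} [DecidableEq L] {S : V → Finset L} {F : Finset L → Prop} {R : List (Finset L) → V → V → Prop}

private theorem M6_lev_le {k : ℕ} (hk : ∀ x, (S x).card ≤ k) (h : Sys S F R) {θ θ' : List (Finset L)}
    {x y : V} (hR : R θ' x y) (hs : θ <:+ θ') : lev k θ ≤ lev k θ' := by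
  by_cases he : θ = θ'
  · rw [he]
  · have h1 : θ.length < θ'.length := by
      refine lt_of_le_of_ne hs.length_le fun h2 => he (hs.eq_of_length h2)
    have h2 : (top θ).card ≤ k := h.top_card_le hk (h.of_suffix hR hs)
    have h3 : (θ.length + 1) * (k + 1) ≤ θ'.length * (k + 1) := Nat.mul_le_mul_right _ h1
    unfold lev
    rw [add_mul] at h3
    omega

theorem pn_split_eq {k : ℕ} (hk : ∀ x, (S x).card ≤ k) (h : Sys S F R) (θ : List (Finset L)) (X : Set V)
    {m : ℕ} (hm : m < lev k θ) : pn k (splitR R θ X) m = pn k R m := by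
  unfold pn
  congr 1
  ext t
  constructor
  · rintro ⟨h1, h2⟩
    exact ⟨h1, h2.1⟩
  · rintro ⟨h1, h2⟩
    refine ⟨h1, h2, fun hs => ?_⟩
    have h3 := M6_lev_le hk h h2 hs
    omega

theorem pn_split_lt [Finite V] {k : ℕ} (hk : ∀ x, (S x).card ≤ k) (h : Sys S F R) (θ : List (Finset L)) (X : Set V)
    {u v : V} (hR : R θ u v) (hu : u ∈ X) (hv : v ∉ X) : pn k (splitR R θ X) (lev k θ) < pn k R (lev k θ) := by
  unfold pn
  refine Set.ncard_lt_ncard ?_ ?_
  · refine ⟨fun t ht => ⟨ht.1, ht.2.1⟩, fun hsub => ?_⟩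
    have h1 := hsub (show (θ, u, v) ∈ {t : List (Finset L) × V × V | lev k t.1 = lev k θ ∧ R t.1 t.2.1 t.2.2} from
      ⟨rfl, hR⟩)
    exact hv ((h1.2.2 (List.suffix_refl θ)).1 hu)
  · exact (univ_finite S k).subset fun t ht => h.sub_univ hk ht.2

omit [DecidableEq L] in
private theorem M6_pn {k n : ℕ} {R R' : List (Finset L) → V → V → Prop}
    (h : ∀ θ', lev k θ' ≤ n → R' θ' = R θ') {m : ℕ} (hm : m ≤ n) : pn k R' m = pn k R m := by
  unfold pn
  congr 1
  ext t
  constructor
  · rintro ⟨h1, h2⟩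
    rw [h t.1 (h1.le.trans hm)] at h2
    exact ⟨h1, h2⟩
  · rintro ⟨h1, h2⟩
    rw [← h t.1 (h1.le.trans hm)] at h2
    exact ⟨h1, h2⟩

theorem visible [Finite V] {k : ℕ} (hk : ∀ x, (S x).card ≤ k) (hF : ¬ F ∅) (ho : Opt S F k R)
    {θ : List (Finset L)} (h0 : θ ≠ []) {u v : V} (hR : R θ u v) : (NG S R θ).Reachable u v := by
  by_contra hcon
  have hno : ∀ a ∈ {w | R θ u w ∧ (NG S R θ).Reachable u w}, ∀ b,
      b ∉ {w | R θ u w ∧ (NG S R θ).Reachable u w} → ¬ (NG S R θ).Adj a b := by
    rintro a ⟨ha1, ha2⟩ b hb hab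
    exact hb ⟨ho.sys.trans θ u a b ha1 hab.2.1, ha2.trans hab.reachable⟩
  have hinv := split_inv hk ho.sys ho.valid h0 {w | R θ u w ∧ (NG S R θ).Reachable u w} hno
  obtain ⟨R', hs, hv, hR'⟩ := completion hk hF
    (split_sys ho.sys h0 {w | R θ u w ∧ (NG S R θ).Reachable u w}) hinv
  have h1 := ho.min R' hs hv (lev k θ) (ho.sys.lev_lt hk hR) fun m hm => by
    rw [M6_pn hR' hm.le, pn_split_eq hk ho.sys θ _ hm]
  rw [M6_pn hR' le_rfl] at h1
  have h2 := pn_split_lt hk ho.sys θ {w | R θ u w ∧ (NG S R θ).Reachable u w} hR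
    ⟨ho.sys.refl_left hR, SimpleGraph.Reachable.refl u⟩ fun h3 => hcon h3.2
  omega

end Pool.Agent.Lib.MP_767201_co.SE
end
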