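import Pool.Agent.Lib.MP_767201_co.Mg.G001

section

/-!
# TASK SE M7: skew Bollobás

Proof. More generally (induction on `b`): if `(A i).card ≤ s`, `(B i).card ≤ b` and the same conditions hold for `i, j` in a finite set `I` of numbers, then `I.card ≤ (s+1)^b`. `b = 0`: `B j = ∅`, so there are no
`i < j` in `I`: `I.card ≤ 1`. Step: let `i₀` be the least element of `I`. Every `j ∈ I`, `j ≠ i₀`, has an element of `A i₀` in `B j`; for `e ∈ A i₀` let `I_e = {j ∈ I | i₀ < j, e ∈ B j}`. For `j ∈ I_e`: `e ∉ A j`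
(`A j ∩ B j = ∅`); so for `i < j` in `I_e` the common element of `A i` and `B j` is not `e`. So `A` and `B j \ {e}` on `I_e` satisfy the conditions with `b - 1`: `I_e.card ≤ (s+1)^(b-1)`.
`I.card ≤ 1 + s (s+1)^(b-1) ≤ (s+1)^b`.
-/

set_option autoImplicit false

namespace Pool.Agent.Lib.MP_767201_co.SE

private theorem M7_gen {β : Type} [DecidableEq β] (s m : ℕ) (A : Fin m → Finset β) (hA : ∀ i, (A i).card ≤ s) :
    ∀ (b : ℕ) (B : Fin m → Finset β) (I : Finset (Fin m)), (∀ i ∈ I, (B i).card ≤ b) →
      (∀ i ∈ I, A i ∩ B i = ∅) → (∀ i ∈ I, ∀ j ∈ I, i < j → (A i ∩ B j).Nonempty) →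
      I.card ≤ (s + 1) ^ b := by
  intro b
  induction b with
  | zero =>
    intro B I hB h0 h1
    rw [pow_zero, Finset.card_le_one]
    intro i hi j hj
    by_contra hne
    rcases lt_or_gt_of_ne hne with h | h
    · obtain ⟨x, hx⟩ := h1 i hi j hj h
      have := Finset.card_eq_zero.mp (Nat.le_zero.mp (hB j hj))
      rw [this] at hx
      simp at hx
    · obtain ⟨x, hx⟩ := h1 j hj i hi h
      have := Finset.card_eq_zero.mp (Nat.le_zero.mp (hB i hi))
      rw [this] at hx
      simp at hx
  | succ b ih =>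
    intro B I hB h0 h1
    rcases I.eq_empty_or_nonempty with hI | hI
    · subst hI
      simp
    · obtain ⟨i₀, hi₀, hmin⟩ := I.exists_min_image id hI
      have hcov : I ⊆ insert i₀ ((A i₀).biUnion fun e => I.filter fun j => i₀ < j ∧ e ∈ B j) := by
        intro j hj
        by_cases hji : j = i₀
        · subst hji
          exact Finset.mem_insert_self _ _
        · have hlt : i₀ < j := lt_of_le_of_ne (hmin j hj) (Ne.symm hji)
          obtain ⟨e, he⟩ := h1 i₀ hi₀ j hj hlt
          rw [Finset.mem_inter] at he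
          apply Finset.mem_insert_of_mem
          rw [Finset.mem_biUnion]
          exact ⟨e, he.1, Finset.mem_filter.mpr ⟨hj, hlt, he.2⟩⟩
      have hpart : ∀ e ∈ A i₀, (I.filter fun j => i₀ < j ∧ e ∈ B j).card ≤ (s + 1) ^ b := by
        intro e _
        apply ih (fun j => (B j).erase e)
        · intro j hj
          rw [Finset.mem_filter] at hj
          have := Finset.card_erase_of_mem hj.2.2
          have h2 := hB j hj.1
          omega
        · intro j hj
          rw [Finset.mem_filter] at hj
          have h2 := h0 j hj.1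
          rw [Finset.eq_empty_iff_forall_notMem] at h2 ⊢
          intro x hx
          rw [Finset.mem_inter, Finset.mem_erase] at hx
          exact h2 x (Finset.mem_inter.mpr ⟨hx.1, hx.2.2⟩)
        · intro i hi j hj hij
          rw [Finset.mem_filter] at hi hj
          obtain ⟨x, hx⟩ := h1 i hi.1 j hj.1 hij
          rw [Finset.mem_inter] at hx
          refine ⟨x, Finset.mem_inter.mpr ⟨hx.1, Finset.mem_erase.mpr ⟨?_, hx.2⟩⟩⟩
          intro hxe
          subst hxe
          have h2 := h0 i hi.1
          rw [Finset.eq_empty_iff_forall_notMem] at h2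
          exact h2 x (Finset.mem_inter.mpr ⟨hx.1, hi.2.2⟩)
      have hs : 1 ≤ (s + 1) ^ b := Nat.one_le_pow _ _ (Nat.succ_pos _)
      calc I.card ≤ _ := Finset.card_le_card hcov
        _ ≤ ((A i₀).biUnion fun e => I.filter fun j => i₀ < j ∧ e ∈ B j).card + 1 :=
            Finset.card_insert_le _ _
        _ ≤ (∑ e ∈ A i₀, (I.filter fun j => i₀ < j ∧ e ∈ B j).card) + 1 :=
            Nat.add_le_add_right Finset.card_biUnion_le _
        _ ≤ (∑ _e ∈ A i₀, (s + 1) ^ b) + 1 := Nat.add_le_add_right (Finset.sum_le_sum hpart) _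
        _ = (A i₀).card * (s + 1) ^ b + 1 := by rw [Finset.sum_const, smul_eq_mul]
        _ ≤ s * (s + 1) ^ b + (s + 1) ^ b :=
            Nat.add_le_add (Nat.mul_le_mul_right _ (hA i₀)) hs
        _ = (s + 1) ^ (b + 1) := by ring

theorem skew {β : Type} [DecidableEq β] (s m : ℕ) (A B : Fin m → Finset β) (hA : ∀ i, (A i).card ≤ s)
    (hB : ∀ i, (B i).card ≤ s) (h0 : ∀ i, A i ∩ B i = ∅) (h1 : ∀ i j, i < j → (A i ∩ B j).Nonempty) :
    m ≤ (s + 1) ^ s := by
  have := M7_gen s m A hA s B Finset.univ (fun i _ => hB i) (fun i _ => h0 i) (fun i _ j _ h => h1 i j h)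
  simpa using this

end Pool.Agent.Lib.MP_767201_co.SE
end

section

/-!
# TASK SE M8: short walks

Proof. Let `p` be a walk of minimal length from `x` to `y` (`SimpleGraph.Reachable.exists_walk_length_eq_dist`), `n = p.length = dist x y`, `c i = p.getVert i`. Then `dist (c i) (c j) = j - i` for `i ≤ j ≤ n`
(otherwise a shorter walk from `c i` to `c j` would give a shorter one from `x` to `y`: `take`, `drop`, append, or the triangle inequality of `dist` with `dist x (c i) ≤ i`, `dist (c j) y ≤ n - j`). Let `m = (n+1)/2`; for `i < m`: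
`A i = T (c (2i))`, `B i = T (c (2i+1))` (`2i+1 ≤ n`). `A i ∩ B i = ∅` as they are adjacent. For `i < j`: `c (2i)`, `c (2j+1)` have distance `2(j-i)+1 ≥ 3`, so they are different and not adjacent, and reachable from
each other: the sets meet (`h1`). So `m ≤ (s+1)^s` (`skew`) and `n ≤ 2m`.
-/

set_option autoImplicit false

namespace Pool.Agent.Lib.MP_767201_co.SE

private theorem M8_key {V : Type} {N : SimpleGraph V} {x y : V} (p : N.Walk x y)
    (hp : p.length = N.dist x y) {i j : ℕ} (hj : j ≤ p.length)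
    (hi : i ≤ p.length) (q : N.Walk (p.getVert i) (p.getVert j)) : j ≤ q.length + i := by
  have h1 := SimpleGraph.dist_le ((p.take i).append (q.append (p.drop j)))
  rw [SimpleGraph.Walk.length_append, SimpleGraph.Walk.length_append,
    SimpleGraph.Walk.drop_length, SimpleGraph.Walk.take_length, ← hp] at h1
  omega

theorem short_walk {V β : Type} [DecidableEq β] (N : SimpleGraph V) (T : V → Finset β) (s : ℕ)
    (hs : ∀ x, (T x).card ≤ s) (h0 : ∀ x y, N.Adj x y → T x ∩ T y = ∅)
    (h1 : ∀ x y, x ≠ y → N.Reachable x y → ¬ N.Adj x y → (T x ∩ T y).Nonempty) (x y : V) (h : N.Reachable x y) :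
    ∃ p : N.Walk x y, p.length ≤ 2 * (s + 1) ^ s := by
  obtain ⟨p, hp⟩ := h.exists_walk_length_eq_dist
  refine ⟨p, ?_⟩
  have hm := skew s ((p.length + 1) / 2) (fun i => T (p.getVert (2 * (i : ℕ))))
    (fun i => T (p.getVert (2 * (i : ℕ) + 1))) (fun i => hs _) (fun i => hs _)
    (fun i => h0 _ _ (p.adj_getVert_succ (by have := i.2; omega)))
    (fun i j hij => by
      have hi2 := i.2
      have hj2 := j.2
      have hij' : (i : ℕ) < (j : ℕ) := hij
      have e1 : 2 * (i : ℕ) ≤ p.length := by omega
      have e2 : 2 * (j : ℕ) + 1 ≤ p.length := by omega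
      refine h1 _ _ ?_ ?_ ?_
      · intro h2
        have h3 := M8_key p hp e2 e1 ((SimpleGraph.Walk.nil : N.Walk (p.getVert (2 * (i : ℕ))) _).copy rfl h2)
        rw [SimpleGraph.Walk.length_copy, SimpleGraph.Walk.length_nil] at h3
        omega
      · exact (p.take (2 * (i : ℕ))).reachable.symm.trans (p.take (2 * (j : ℕ) + 1)).reachable
      · intro h2
        have h3 := M8_key p hp e2 e1 h2.toWalk
        rw [SimpleGraph.Walk.length_cons, SimpleGraph.Walk.length_nil] at h3
        omega)
  omega

end Pool.Agent.Lib.MP_767201_co.SE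
end
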