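import Pool.Agent.Lib.MP_767201_co.Mg.G004
import Pool.Agent.Lib.MP_767201_co.Mg.G012
import Pool.Agent.Lib.MP_767201_co.Mg.G013
import Pool.Agent.Lib.MP_767201_co.Mg.G010

section

/-!
# TASK SE L2a: orientation inside the colour classes; subsystems and reversal

Proof of `colour_orient`. For every colour `c0` apply `orient` to `E_{c0} = {e ∈ E | c e = c0}`: `E₁(c0)`, `E₂(c0)`. Take `E₁ = {e ∈ E | e ∈ E₁(c e)}`, `E₂ = {e ∈ E | e ∈ E₂(c e)}`. The fibre of `(a, c)` over `(x, c0)` in `E₁` is the fibre of `a` over `x` in `E₁(c0)`.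
`sub_lps`: all conditions pass to subsets. `rev_lps`: `memL` and `memR` change their roles: for `i < m`: `z (m-i) e ∈ A (v (m-1-i) e)` is `memR` at `m-1-i`; interior positions stay interior. `sumL_rev`: `Finset.sum_range_reflect`.
-/

set_option autoImplicit false

namespace Pool.Agent.Lib.MP_767201_co.SE

theorem colour_orient {ε N N₁ N₂ : Type} (E : Finset ε) (c : ε → N) (a : ε → N₁) (b : ε → N₂) (t : ℕ)
    (h : ∀ E' ⊆ E, (∀ e ∈ E', ∀ e' ∈ E', c e = c e') → E'.card ≤ t * (nim E' a + nim E' b)) :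
    ∃ E₁ E₂ : Finset ε, E₁ ⊆ E ∧ E₂ ⊆ E ∧ (∀ e ∈ E, e ∈ E₁ ∨ e ∈ E₂) ∧
      (∀ x, fib E₁ (fun e => (a e, c e)) x ≤ 2 * t) ∧ ∀ y, fib E₂ (fun e => (b e, c e)) y ≤ 2 * t := by
  classical
  have H : ∀ c0 : N, ∃ E₁ E₂ : Finset ε, E₁ ⊆ E.filter (fun e => c e = c0) ∧ E₂ ⊆ E.filter (fun e => c e = c0) ∧
      (∀ e ∈ E.filter (fun e => c e = c0), e ∈ E₁ ∨ e ∈ E₂) ∧ (∀ x, fib E₁ a x ≤ 2 * t) ∧
      ∀ y, fib E₂ b y ≤ 2 * t := by
    intro c0
    refine orient _ a b t fun E' hE' => h E' (hE'.trans (Finset.filter_subset _ _)) ?_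
    intro e he e' he'
    rw [(Finset.mem_filter.1 (hE' he)).2, (Finset.mem_filter.1 (hE' he')).2]
  choose F₁ F₂ h1 h2 h3 h4 h5 using H
  refine ⟨E.filter (fun e => e ∈ F₁ (c e)), E.filter (fun e => e ∈ F₂ (c e)), Finset.filter_subset _ _,
    Finset.filter_subset _ _, ?_, ?_, ?_⟩
  · intro e he
    rcases h3 (c e) e (Finset.mem_filter.2 ⟨he, rfl⟩) with h | h
    · exact Or.inl (Finset.mem_filter.2 ⟨he, h⟩)
    · exact Or.inr (Finset.mem_filter.2 ⟨he, h⟩)
  · rintro ⟨x, c0⟩
    refine le_trans ?_ (h4 c0 x)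
    refine Set.ncard_le_ncard ?_ ((F₁ c0).finite_toSet.subset fun e he => he.1)
    rintro e ⟨he, hx⟩
    simp only [Prod.mk.injEq] at hx
    have h6 := (Finset.mem_filter.1 he).2
    rw [hx.2] at h6
    exact ⟨h6, hx.1⟩
  · rintro ⟨x, c0⟩
    refine le_trans ?_ (h5 c0 x)
    refine Set.ncard_le_ncard ?_ ((F₂ c0).finite_toSet.subset fun e he => he.1)
    rintro e ⟨he, hx⟩
    simp only [Prod.mk.injEq] at hx
    have h6 := (Finset.mem_filter.1 he).2
    rw [hx.2] at h6
    exact ⟨h6, hx.1⟩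

variable {V Γ ε : Type} {A : V → Finset Γ} {len : Γ → ℕ} {m : ℕ} {l : ℕ → ℕ} {E : Finset ε}
  {z : ℕ → ε → Γ} {v : ℕ → ε → V}

theorem sub_lps (h : LPS A len m l E z v) {E' : Finset ε} (hE : E' ⊆ E) : LPS A len m l E' z v where
  pos := h.pos
  memL i hi e he := h.memL i hi e (hE he)
  memR i hi e he := h.memR i hi e (hE he)
  len i hi e he := h.len i hi e (hE he)
  inj i h1 h2 := (h.inj i h1 h2).mono fun _ he => hE he
  ends e he e' he' := h.ends e (hE he) e' (hE he')

theorem rev_lps (h : LPS A len m l E z v) :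
    LPS A len m (fun i => l (m - i)) E (fun i => z (m - i)) (fun i => v (m - 1 - i)) where
  pos := h.pos
  memL i hi e he := by
    have h1 := h.memR (m - 1 - i) (by omega) e he
    have e1 : m - 1 - i + 1 = m - i := by omega
    rw [e1] at h1
    exact h1
  memR i hi e he := by
    have h1 := h.memL (m - 1 - i) (by omega) e he
    have e1 : m - (i + 1) = m - 1 - i := by omega
    show z (m - (i + 1)) e ∈ A (v (m - 1 - i) e)
    rw [e1]
    exact h1
  len i hi e he := h.len (m - i) (by omega) e he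
  inj i h1 h2 := h.inj (m - i) (by omega) (by omega)
  ends e he e' he' h1 h2 := by
    have h3 : z (m - 0) e = z (m - 0) e' := h1
    have h4 : z (m - m) e = z (m - m) e' := h2
    rw [Nat.sub_zero] at h3
    rw [Nat.sub_self] at h4
    exact h.ends e he e' he' h4 h3

theorem sumL_rev (m : ℕ) (l : ℕ → ℕ) : sumL m (fun i => l (m - i)) = sumL m l := by
  unfold sumL
  rw [← Finset.sum_range_reflect l (m + 1)]
  refine Finset.sum_congr rfl fun i _ => ?_
  congr 1

theorem dense_rev {d : ℕ} (h : Dense d E z m) : Dense d E (fun i => z (m - i)) m := by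
  refine ⟨h.1, ?_⟩
  show d * (nim E (z (m - 0)) + nim E (z (m - m))) ≤ E.card
  rw [Nat.sub_zero, Nat.sub_self, add_comm]
  exact h.2

theorem dense_mono {d d' : ℕ} (h : Dense d' E z m) (hd : d ≤ d') : Dense d E z m :=
  ⟨h.1, le_trans (Nat.mul_le_mul_right _ hd) h.2⟩

/-- If the colour is constant on dense subsets only for small densities, the colour classes can be oriented. -/
theorem colour_orient' (N : Type) (c : ε → N) (d : ℕ)
    (h : ¬ ∃ E' ⊆ E, (∀ e ∈ E', ∀ e' ∈ E', c e = c e') ∧ Dense d E' z m) :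
    ∃ E₁ E₂ : Finset ε, E₁ ⊆ E ∧ E₂ ⊆ E ∧ (∀ e ∈ E, e ∈ E₁ ∨ e ∈ E₂) ∧
      (∀ x, fib E₁ (fun e => (z 0 e, c e)) x ≤ 2 * d) ∧ ∀ y, fib E₂ (fun e => (z m e, c e)) y ≤ 2 * d := by
  refine colour_orient E c (z 0) (z m) d fun E' hE' hc => ?_
  rcases E'.eq_empty_or_nonempty with rfl | hne
  · simp
  · by_contra hlt
    exact h ⟨E', hE', hc, hne, (not_le.1 hlt).le⟩

end Pool.Agent.Lib.MP_767201_co.SE
end

section

/-!
# TASK SE L2b: interior position with few elements for each pair (left end, parent)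

Proof. `c e := par (z s e)`, `n0 := nim E (z 0)`, `nm := nim E (z m)`.
1. `transversal₁` for `e ↦ (z 0 e, c e)` on `E₁` with `t = 2d`: `E₂ ⊆ E₁`, injective, `E₁.card ≤ 2d E₂.card`, so `E.card ≤ 4d E₂.card`.
2. For every `E' ⊆ E₂`: `E'.card ≤ ds (nim E' (z 0) + nim E' c)`. If `E'` is empty clear. Otherwise `z' i e := if i = s then c e else z i e`, `l' i := if i = s then l s - 1 else l i`: `LPS A len s l' E' z' v`: `memL`: for `i < s`: old; `memR`: at `i + 1 = s`: `c e ∈ A (v (s-1) e)` by `hpar` since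
   `z s e ∈ A (v (s-1) e)` and `len (z s e) = l s ≥ 2`; the length of `c e` is `l s - 1`; `inj` for `1 ≤ i < s`: old; `ends`: `(z 0, c)` is injective on `E₂`. As `s < m`, `hno` says that it is not dense: `E'.card < ds (nim E' (z' 0) + nim E' (z' s))`, and `z' 0 = z 0`, `z' s = c`.
3. `orient` on `E₂`, `a = z 0`, `b = c`, `t = ds`: `E₂ = E₂₁ ∪ E₂₂`. `E₂₁.card ≤ 2 ds nim E₂₁ (z 0) ≤ 2 ds n0` (`card_le_of_fib`, `nim_mono`), and `32 d ds² n0 ≤ E.card ≤ 4d E₂.card`, so `8 ds² n0 ≤ E₂.card`, `E₂₁.card ≤ E₂.card / 4`; so `E₂.card ≤ 2 E₂₂.card`.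
4. `transversal₁` for `c` on `E₂₂`, `t = 2 ds`: `E₃ ⊆ E₂₂`, `c` injective on `E₃`, `E₂₂.card ≤ 2 ds E₃.card`. So `E.card ≤ 16 d ds E₃.card`. `E₃` is nonempty.
5. `LPS A len m l' E₃ z' v` with the same `z'`, `l'`: at the position `s` (interior) `c` is injective, the membership at `v (s-1)` and `v s` by `hpar`; ends unchanged (`s ≠ 0`, `s ≠ m`). `sumL m l' + 1 = sumL m l`. `Dense ds`: `ds (nim E₃ (z 0) + nim E₃ (z m)) ≤ ds (n0 + nm)` and
   `32 d ds² (n0 + nm) ≤ E.card ≤ 16 d ds E₃.card` gives `2 ds (n0 + nm) ≤ E₃.card`. Contradiction to `hno`.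
-/

set_option autoImplicit false

namespace Pool.Agent.Lib.MP_767201_co.SE

variable {V Γ ε : Type} {A : V → Finset Γ} {len : Γ → ℕ} {par : Γ → Γ} {m : ℕ} {l : ℕ → ℕ} {E : Finset ε}
  {z : ℕ → ε → Γ} {v : ℕ → ε → V}

theorem interior_left (hpar : ∀ x, ∀ g ∈ A x, 2 ≤ len g → par g ∈ A x ∧ len (par g) + 1 = len g)
    (hL : LPS A len m l E z v) {s : ℕ} (hs1 : 1 ≤ s) (hs : s < m) (hl : 2 ≤ l s) {ds d : ℕ} (hds : 1 ≤ ds) (hd : 1 ≤ d)
    (hno : NoSmaller A len m (sumL m l) ds) (hD : Dense (32 * d * ds * ds) E z m) {E₁ : Finset ε} (h1 : E₁ ⊆ E)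
    (hf : ∀ x, fib E₁ (fun e => (z 0 e, par (z s e))) x ≤ 2 * d) (hcard : E.card ≤ 2 * E₁.card) : False := by
  classical
  obtain ⟨hEne, hDen⟩ := hD
  set c : ε → Γ := fun e => par (z s e) with hc
  set z' : ℕ → ε → Γ := fun i e => if i = s then c e else z i e with hz'
  set l' : ℕ → ℕ := fun i => if i = s then l s - 1 else l i with hl'
  have zs : z' s = c := by
    funext e
    exact if_pos rfl
  have zn : ∀ i, i ≠ s → z' i = z i := by
    intro i hi
    funext e
    exact if_neg hi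
  have hlen : ∀ e ∈ E, 2 ≤ len (z s e) := fun e he => by
    rw [hL.len s hs.le e he]
    exact hl
  have hcs : ∀ e ∈ E, c e ∈ A (v s e) := fun e he => (hpar _ _ (hL.memL s hs e he) (hlen e he)).1
  have hcs' : ∀ i, i + 1 = s → ∀ e ∈ E, c e ∈ A (v i e) := by
    intro i hi e he
    have h2 : z s e ∈ A (v i e) := by
      rw [← hi]
      exact hL.memR i (by omega) e he
    exact (hpar _ _ h2 (hlen e he)).1
  have hcl : ∀ e ∈ E, len (c e) = l s - 1 := by
    intro e he
    have h2 := (hpar _ _ (hL.memL s hs e he) (hlen e he)).2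
    rw [hL.len s hs.le e he] at h2
    change len (par (z s e)) = _
    omega
  -- general facts about z'
  have gL : ∀ i < m, ∀ e ∈ E, z' i e ∈ A (v i e) := by
    intro i hi e he
    by_cases his : i = s
    · rw [his, zs]
      exact hcs e he
    · rw [zn i his]
      exact hL.memL i hi e he
  have gR : ∀ i < m, ∀ e ∈ E, z' (i + 1) e ∈ A (v i e) := by
    intro i hi e he
    by_cases his : i + 1 = s
    · rw [his, zs]
      exact hcs' i his e he
    · rw [zn _ his]
      exact hL.memR i hi e he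
  have glen : ∀ i ≤ m, ∀ e ∈ E, len (z' i e) = l' i := by
    intro i hi e he
    by_cases his : i = s
    · rw [his, zs, hcl e he]
      exact (if_pos rfl).symm
    · rw [zn i his, hL.len i hi e he]
      exact (if_neg his).symm
  obtain ⟨E₂, hE₂, hinj2, hc2⟩ := transversal₁ E₁ (fun e => (z 0 e, c e)) (2 * d) hf
  have hE₂E : E₂ ⊆ E := hE₂.trans h1
  have hcE : E.card ≤ 4 * d * E₂.card := by
    calc E.card ≤ 2 * E₁.card := hcard
      _ ≤ 2 * (2 * d * E₂.card) := Nat.mul_le_mul_left _ hc2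
      _ = 4 * d * E₂.card := by ring
  have hstep : ∀ E' ⊆ E₂, E'.card ≤ ds * (nim E' (z 0) + nim E' c) := by
    intro E' hE'
    rcases E'.eq_empty_or_nonempty with hemp | hne
    · rw [hemp, Finset.card_empty]
      exact Nat.zero_le _
    · have hsub : ∀ e ∈ E', e ∈ E := fun e he => hE₂E (hE' he)
      have hlps : LPS A len s l' E' z' v :=
        { pos := hs1
          memL := fun i hi e he => gL i (hi.trans hs) e (hsub e he)
          memR := fun i hi e he => gR i (hi.trans hs) e (hsub e he)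
          len := fun i hi e he => glen i (hi.trans hs.le) e (hsub e he)
          inj := fun i hi1 hi => by
            rw [zn i hi.ne]
            exact (hL.inj i hi1 (hi.trans hs)).mono fun e he => hsub e he
          ends := fun e he e' he' h2 h3 => by
            rw [zn 0 (by omega)] at h2
            rw [zs] at h3
            exact hinj2 (hE' he) (hE' he') (Prod.ext h2 h3) }
      have h2 := hno s l' ε E' z' v (Or.inl hs) hlps
      unfold Dense at h2
      rw [zn 0 (by omega), zs] at h2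
      by_contra h3
      exact h2 ⟨hne, (not_le.1 h3).le⟩
  obtain ⟨E₂₁, E₂₂, hs21, hs22, hcov, hf21, hf22⟩ := orient E₂ (z 0) c ds hstep
  have hc21 : E₂₁.card ≤ 2 * ds * nim E (z 0) :=
    (card_le_of_fib E₂₁ (z 0) (2 * ds) hf21).trans
      (Nat.mul_le_mul_left _ (nim_mono (hs21.trans hE₂E) (z 0)))
  have hcc : E₂.card ≤ E₂₁.card + E₂₂.card := by
    refine (Finset.card_le_card ?_).trans (Finset.card_union_le E₂₁ E₂₂)
    intro e he
    rcases hcov e he with h2 | h2
    · exact Finset.mem_union_left _ h2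
    · exact Finset.mem_union_right _ h2
  have h8 : 8 * (ds * ds) * (nim E (z 0) + nim E (z m)) ≤ E₂.card := by
    have h2 := hDen.trans hcE
    have h3 : 4 * d * (8 * (ds * ds) * (nim E (z 0) + nim E (z m))) ≤ 4 * d * E₂.card := by
      refine le_trans (le_of_eq ?_) h2
      ring
    exact Nat.le_of_mul_le_mul_left h3 (by omega)
  have h8' : 8 * ds * nim E (z 0) ≤ E₂.card := by
    refine le_trans ?_ h8
    have h2 : ds ≤ ds * ds := Nat.le_mul_self ds
    exact Nat.mul_le_mul (Nat.mul_le_mul_left 8 h2) (Nat.le_add_right _ _)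
  have h4 : 4 * E₂₁.card ≤ E₂.card := by
    refine le_trans ?_ h8'
    calc 4 * E₂₁.card ≤ 4 * (2 * ds * nim E (z 0)) := Nat.mul_le_mul_left _ hc21
      _ = 8 * ds * nim E (z 0) := by ring
  have h22 : E₂.card ≤ 2 * E₂₂.card := by omega
  obtain ⟨E₃, hE₃, hinj3, hc3⟩ := transversal₁ E₂₂ c (2 * ds) hf22
  have hE₃E : ∀ e ∈ E₃, e ∈ E := fun e he => hE₂E (hs22 (hE₃ he))
  have hcE3 : E.card ≤ 16 * d * ds * E₃.card := by
    calc E.card ≤ 4 * d * E₂.card := hcE
      _ ≤ 4 * d * (2 * E₂₂.card) := Nat.mul_le_mul_left _ h22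
      _ ≤ 4 * d * (2 * (2 * ds * E₃.card)) := Nat.mul_le_mul_left _ (Nat.mul_le_mul_left _ hc3)
      _ = 16 * d * ds * E₃.card := by ring
  have hE₃ne : E₃.Nonempty := by
    rw [Finset.nonempty_iff_ne_empty]
    intro h2
    rw [h2, Finset.card_empty, mul_zero] at hcE3
    have h3 := hEne.card_pos
    omega
  have hlps : LPS A len m l' E₃ z' v :=
    { pos := hL.pos
      memL := fun i hi e he => gL i hi e (hE₃E e he)
      memR := fun i hi e he => gR i hi e (hE₃E e he)
      len := fun i hi e he => glen i hi e (hE₃E e he)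
      inj := fun i hi1 hi => by
        by_cases his : i = s
        · rw [his, zs]
          exact hinj3
        · rw [zn i his]
          exact (hL.inj i hi1 hi).mono fun e he => hE₃E e he
      ends := fun e he e' he' h2 h3 => by
        rw [zn 0 (by omega)] at h2
        rw [zn m (by omega)] at h3
        exact hL.ends e (hE₃E e he) e' (hE₃E e' he') h2 h3 }
  have hsum : sumL m l' < sumL m l := by
    unfold sumL
    refine Finset.sum_lt_sum (fun i _ => ?_) ⟨s, Finset.mem_range.2 (by omega), ?_⟩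
    · change (if i = s then l s - 1 else l i) ≤ l i
      split_ifs with h2
      · rw [h2]
        exact Nat.sub_le _ _
      · exact le_rfl
    · change (if s = s then l s - 1 else l s) < l s
      rw [if_pos rfl]
      omega
  refine hno m l' ε E₃ z' v (Or.inr ⟨rfl, hsum⟩) hlps ⟨hE₃ne, ?_⟩
  rw [zn 0 (by omega), zn m (by omega)]
  have h5 : ds * (nim E₃ (z 0) + nim E₃ (z m)) ≤ ds * (nim E (z 0) + nim E (z m)) :=
    Nat.mul_le_mul_left _ (add_le_add (nim_mono (fun e he => hE₃E e he) _)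
      (nim_mono (fun e he => hE₃E e he) _))
  have h6 : 16 * d * ds * (2 * ds * (nim E (z 0) + nim E (z m))) ≤ 16 * d * ds * E₃.card := by
    refine le_trans (le_of_eq ?_) (hDen.trans hcE3)
    ring
  have h7 := Nat.le_of_mul_le_mul_left h6 (Nat.mul_pos (by omega) hds)
  refine h5.trans (le_trans ?_ h7)
  rw [mul_assoc 2 ds]
  exact Nat.le_mul_of_pos_left _ two_pos

end Pool.Agent.Lib.MP_767201_co.SE
end

section

/-!
# TASK SE L2c: the left end

Proof. `c e := par (z 0 e)`, `n0 := nim E (z 0)`, `nm := nim E (z m)`.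
1. `E₁.card ≤ 2d nim E₁ (e ↦ (z 0 e, c e)) = 2d nim E₁ (z 0) ≤ 2d n0` (`card_le_of_fib`; the pair is a function of `z 0 e`) and `32 d ds² n0 ≤ E.card`; so `E₁.card ≤ E.card / 16` and `E.card ≤ 2 E₂.card` (`hcov`).
2. `transversal₁` for `e ↦ (z m e, c e)` on `E₂`, `t = 2d`: `E₃ ⊆ E₂` injective, `E₂.card ≤ 2d E₃.card`, so `E.card ≤ 4d E₃.card`; `E₃` is nonempty.
3. `z' i e := if i = 0 then c e else z i e`, `l' i := if i = 0 then l 0 - 1 else l i`: `LPS A len m l' E₃ z' v`: `c e ∈ A (v 0 e)` by `hpar` (`z 0 e ∈ A (v 0 e)`, `len (z 0 e) = l 0 ≥ 2`), its length is `l 0 - 1`; `inj` for `1 ≤ i < m`: old; `ends`: `m ≥ 1`, so `z' m = z m`, and `(z m, c)` is injective.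
   `sumL m l' + 1 = sumL m l`. `nim E₃ c ≤ nim E₃ (z 0) ≤ n0` (`c` is a function of `z 0`). `ds (nim E₃ (z' 0) + nim E₃ (z' m)) ≤ ds (n0 + nm)` and `32 d ds² (n0 + nm) ≤ E.card ≤ 4 d E₃.card`, so `Dense ds E₃ z' m`. Contradiction to `hno`.
-/

set_option autoImplicit false

namespace Pool.Agent.Lib.MP_767201_co.SE

variable {V Γ ε : Type} {A : V → Finset Γ} {len : Γ → ℕ} {par : Γ → Γ} {m : ℕ} {l : ℕ → ℕ} {E : Finset ε}
  {z : ℕ → ε → Γ} {v : ℕ → ε → V}

private theorem L2c_nim {ε N₁ N₂ : Type} (E : Finset ε) (a : ε → N₁) (b : ε → N₂) (F : N₁ → N₂)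
    (h : ∀ e, b e = F (a e)) : nim E b ≤ nim E a := by
  unfold nim
  have h1 : b '' (E : Set ε) = F '' (a '' (E : Set ε)) := by
    rw [Set.image_image]
    exact Set.image_congr fun e _ => h e
  rw [h1]
  exact Set.ncard_image_le ((E.finite_toSet).image a)

theorem end_left (hpar : ∀ x, ∀ g ∈ A x, 2 ≤ len g → par g ∈ A x ∧ len (par g) + 1 = len g)
    (hL : LPS A len m l E z v) (hl : 2 ≤ l 0) {ds d : ℕ} (hds : 1 ≤ ds) (hd : 1 ≤ d)
    (hno : NoSmaller A len m (sumL m l) ds) (hD : Dense (32 * d * ds * ds) E z m) {E₁ E₂ : Finset ε} (h1 : E₁ ⊆ E)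
    (h2 : E₂ ⊆ E) (hcov : ∀ e ∈ E, e ∈ E₁ ∨ e ∈ E₂)
    (hf1 : ∀ x, fib E₁ (fun e => (z 0 e, par (z 0 e))) x ≤ 2 * d)
    (hf2 : ∀ x, fib E₂ (fun e => (z m e, par (z 0 e))) x ≤ 2 * d) : False := by
  classical
  obtain ⟨hne, hcard⟩ := hD
  have hm := hL.pos
  -- step 1
  have a1 : E₁.card ≤ 2 * d * nim E (z 0) :=
    (card_le_of_fib E₁ _ (2 * d) hf1).trans (Nat.mul_le_mul_left _
      ((L2c_nim E₁ (z 0) (fun e => (z 0 e, par (z 0 e))) (fun g => (g, par g)) fun _ => rfl).trans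
        (nim_mono h1 (z 0))))
  have a2 : E.card ≤ E₁.card + E₂.card := by
    refine (Finset.card_le_card (t := E₁ ∪ E₂) fun e he => ?_).trans (Finset.card_union_le _ _)
    exact Finset.mem_union.mpr (hcov e he)
  have a3 : 16 * E₁.card ≤ E.card := by
    have b1 : 16 * (2 * d * nim E (z 0)) ≤ 32 * d * ds * ds * (nim E (z 0) + nim E (z m)) := by
      have b2 : 1 ≤ ds * ds := Nat.mul_le_mul hds hds
      calc 16 * (2 * d * nim E (z 0)) = 32 * d * 1 * nim E (z 0) := by ring
        _ ≤ 32 * d * (ds * ds) * (nim E (z 0) + nim E (z m)) :=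
          Nat.mul_le_mul (Nat.mul_le_mul_left _ b2) (Nat.le_add_right _ _)
        _ = 32 * d * ds * ds * (nim E (z 0) + nim E (z m)) := by ring
    omega
  have a4 : E.card ≤ 2 * E₂.card := by omega
  -- step 2
  obtain ⟨E₃, hE₃, hinj, hc3⟩ := transversal₁ E₂ (fun e => (z m e, par (z 0 e))) (2 * d) hf2
  have hE : E₃ ⊆ E := hE₃.trans h2
  have a5 : E.card ≤ 4 * d * E₃.card := by
    calc E.card ≤ 2 * E₂.card := a4
      _ ≤ 2 * (2 * d * E₃.card) := Nat.mul_le_mul_left _ hc3
      _ = 4 * d * E₃.card := by ring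
  have hne3 : E₃.Nonempty := by
    rw [← Finset.card_pos]
    have b1 : 0 < E.card := Finset.card_pos.mpr hne
    rcases Nat.eq_zero_or_pos E₃.card with b2 | b2
    · rw [b2, mul_zero] at a5
      omega
    · exact b2
  -- step 3
  have hm0 : m ≠ 0 := by omega
  have hc : ∀ e ∈ E₃, par (z 0 e) ∈ A (v 0 e) ∧ len (par (z 0 e)) + 1 = l 0 := by
    intro e he
    have b1 := hL.len 0 (Nat.zero_le _) e (hE he)
    have b2 := hpar (v 0 e) (z 0 e) (hL.memL 0 hm e (hE he)) (by rw [b1]; exact hl)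
    rw [b1] at b2
    exact b2
  have hz : LPS A len m (fun i => if i = 0 then l 0 - 1 else l i) E₃
      (fun i e => if i = 0 then par (z 0 e) else z i e) v :=
    { pos := hm
      memL := by
        intro i hi e he
        by_cases h0 : i = 0
        · subst h0
          simp only [if_true]
          exact (hc e he).1
        · simp only [if_neg h0]
          exact hL.memL i hi e (hE he)
      memR := by
        intro i hi e he
        simp only [Nat.add_eq_zero_iff, one_ne_zero, and_false, if_false]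
        exact hL.memR i hi e (hE he)
      len := by
        intro i hi e he
        by_cases h0 : i = 0
        · subst h0
          simp only [if_true]
          have := (hc e he).2
          omega
        · simp only [if_neg h0]
          exact hL.len i hi e (hE he)
      inj := by
        intro i hi1 hi
        have h0 : i ≠ 0 := by omega
        simp only [if_neg h0]
        exact (hL.inj i hi1 hi).mono (Finset.coe_subset.mpr hE)
      ends := by
        intro e he e' he' q1 q2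
        simp only [if_true] at q1
        simp only [if_neg hm0] at q2
        exact hinj (Finset.mem_coe.mpr he) (Finset.mem_coe.mpr he') (Prod.ext q2 q1) }
  have hs : sumL m (fun i => if i = 0 then l 0 - 1 else l i) < sumL m l := by
    unfold sumL
    rw [Finset.sum_range_succ' _ m, Finset.sum_range_succ' l m]
    simp only [Nat.add_eq_zero_iff, one_ne_zero, and_false, if_false, if_true]
    omega
  refine hno m _ ε E₃ _ v (Or.inr ⟨rfl, hs⟩) hz ⟨hne3, ?_⟩
  have c1 : nim E₃ (fun e => par (z 0 e)) ≤ nim E (z 0) :=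
    (L2c_nim E₃ (z 0) (fun e => par (z 0 e)) par fun _ => rfl).trans (nim_mono hE (z 0))
  have c2 : nim E₃ (z m) ≤ nim E (z m) := nim_mono hE (z m)
  simp only [if_true, if_neg hm0]
  have c3 : 4 * d * (8 * ds * ds * (nim E (z 0) + nim E (z m))) ≤ 4 * d * E₃.card := by
    calc 4 * d * (8 * ds * ds * (nim E (z 0) + nim E (z m)))
        = 32 * d * ds * ds * (nim E (z 0) + nim E (z m)) := by ring
      _ ≤ E.card := hcard
      _ ≤ 4 * d * E₃.card := a5
  have c4 : 8 * ds * ds * (nim E (z 0) + nim E (z m)) ≤ E₃.card :=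
    Nat.le_of_mul_le_mul_left c3 (by omega)
  calc ds * (nim E₃ (fun e => par (z 0 e)) + nim E₃ (z m))
      ≤ ds * (nim E (z 0) + nim E (z m)) := Nat.mul_le_mul_left _ (Nat.add_le_add c1 c2)
    _ = ds * 1 * (nim E (z 0) + nim E (z m)) := by ring
    _ ≤ ds * (8 * ds) * (nim E (z 0) + nim E (z m)) :=
      Nat.mul_le_mul_right _ (Nat.mul_le_mul_left _ (by omega))
    _ = 8 * ds * ds * (nim E (z 0) + nim E (z m)) := by ring
    _ ≤ E₃.card := c4

end Pool.Agent.Lib.MP_767201_co.SE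
end

section

/-!
# TASK SE M9c: exact pairs of a label

Proof of `ng_adj_rg`. `g = (θ, C) ∈ A u`, `u ~ v` in `NG S R θ`. Then `R θ u v`, so `C = {z | R θ u z}` is also the class of `v` and `g ∈ A v` (`mem_labs_inter`). If `g' ∈ A u`, `g' ∈ A v`, `g' ≠ g` then (`mem_labs_inter`)
`R g'.1 u v` and `g'.2` is the class of `u` for `g'.1`, so `g'.1 ≠ θ` and by the last condition of `NG` (`R g'.1 v u` by symmetry) `g'.1.length < θ.length`.
`ng_walk`: induction on the walk.
Proof of `ls_conn`. `g = (θ, C)`. If `x = y` take the walk of length 0. Otherwise `R θ x y` (`mem_labs_inter`), `visible`: reachable in `N := NG S R θ`. `short_walk` for `N` with `β = L ⊕ (List (Finset L) × Set V)` and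
`T u = (S u \ top θ) ⊕ {g' ∈ A u | g'.1 ≠ θ, θ.length ≤ g'.1.length}` (`Finset.disjSum`), at most `k + (2^k+1)^k` elements (`labs_ncard`, `Set.ncard` of the coercion of a finset). `u ~ v` in `N`: a common element of `S u`, `S v` is in
`S u ∩ S v = top θ`; a common label `g'` has `R g'.1 u v`, so `g'.1.length < θ.length` unless `g'.1 = θ`: `T u ∩ T v = ∅`. `u ≠ v` reachable in `N`: `R θ u v` (every step of a walk is `R θ`-related; `R θ` is transitive). If not adjacent in `N`: either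
`S u ∩ S v ≠ top θ`, but `top θ ⊆ S u ∩ S v` (`top_sub`), so there is a common element outside of `top θ`; or there is `θ' ≠ θ` with `R θ' u v` and `θ.length ≤ θ'.length`: `θ' ≠ []` as `θ ≠ []`, and `(θ', {z | R θ' u z})` is
a common label of `u` and `v`. Then `ng_walk` turns the walk in `N` into one in `RG`.
Proof of `ls_wit`. There is `y ≠ x` with `R θ x y`, reachable in `NG S R θ` (`visible`), so `x` has a neighbour (first vertex of a walk): `ng_adj_rg`.
-/

set_option autoImplicit false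

namespace Pool.Agent.Lib.MP_767201_co.SE

variable {V L : Type} [DecidableEq L] {S : V → Finset L} {F : Finset L → Prop} {R : List (Finset L) → V → V → Prop}

theorem ng_adj_rg (h : Sys S F R) {A : V → Finset (List (Finset L) × Set V)} (hA : ∀ x p, p ∈ A x ↔ p ∈ labs R x)
    {g : List (Finset L) × Set V} {u v : V} (hg : g ∈ A u) (huv : (NG S R g.1).Adj u v) :
    (RG A (fun p => p.1.length) g).Adj u v := by
  have hg' := (hA u g).1 hg
  have h1 := (mem_labs_inter h huv.1 g).2 ⟨hg'.1, huv.2.1, hg'.2.2.1⟩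
  refine ⟨huv.1, hg, (hA v g).2 h1.2, fun g' hu hv hne => ?_⟩
  have h2 := (mem_labs_inter h huv.1 g').1 ⟨(hA u g').1 hu, (hA v g').1 hv⟩
  refine huv.2.2.2.2 g'.1 (fun he => hne ?_) h2.2.1 (h.symm _ _ _ h2.2.1)
  refine Prod.ext he ?_
  rw [h2.2.2, hg'.2.2.1, he]

theorem ng_walk (h : Sys S F R) {A : V → Finset (List (Finset L) × Set V)} (hA : ∀ x p, p ∈ A x ↔ p ∈ labs R x)
    {g : List (Finset L) × Set V} {u v : V} (hg : g ∈ A u) (p : (NG S R g.1).Walk u v) :
    ∃ q : (RG A (fun p => p.1.length) g).Walk u v, q.length = p.length := by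
  induction p with
  | nil => exact ⟨SimpleGraph.Walk.nil, rfl⟩
  | cons hadj p ih =>
    have h1 := ng_adj_rg h hA hg hadj
    obtain ⟨q, hq⟩ := ih h1.2.2.1
    refine ⟨SimpleGraph.Walk.cons h1 q, ?_⟩
    rw [SimpleGraph.Walk.length_cons, SimpleGraph.Walk.length_cons, hq]

private theorem M9c_rel (h : Sys S F R) {θ : List (Finset L)} {u v : V} (p : (NG S R θ).Walk u v)
    (hne : u ≠ v) : R θ u v := by
  induction p with
  | nil => exact absurd rfl hne
  | @cons a b c hadj p ih =>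
    by_cases hbc : b = c
    · rw [← hbc]
      exact hadj.2.1
    · exact h.trans _ _ _ _ hadj.2.1 (ih hbc)

theorem ls_conn [Finite V] {k : ℕ} (hk : ∀ x, (S x).card ≤ k) (hF : ¬ F ∅) (ho : Opt S F k R)
    {A : V → Finset (List (Finset L) × Set V)} (hA : ∀ x p, p ∈ A x ↔ p ∈ labs R x)
    (x y : V) (g : List (Finset L) × Set V) (hx : g ∈ A x) (hy : g ∈ A y) :
    ∃ p : (RG A (fun p => p.1.length) g).Walk x y,
      p.length ≤ 2 * (k + (2 ^ k + 1) ^ k + 1) ^ (k + (2 ^ k + 1) ^ k) := by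
  classical
  by_cases hxy : x = y
  · subst hxy
    exact ⟨SimpleGraph.Walk.nil, Nat.zero_le _⟩
  have h := ho.sys
  obtain ⟨h0, hR, -⟩ := (mem_labs_inter h hxy g).1 ⟨(hA x g).1 hx, (hA y g).1 hy⟩
  have hreach := visible hk hF ho h0 hR
  let T : V → Finset (L ⊕ (List (Finset L) × Set V)) := fun u =>
    (S u \ top g.1).disjSum ((A u).filter fun g' => g'.1 ≠ g.1 ∧ g.1.length ≤ g'.1.length)
  have hTl : ∀ u l, Sum.inl l ∈ T u ↔ l ∈ S u ∧ l ∉ top g.1 := by
    intro u l
    change Sum.inl l ∈ (S u \ top g.1).disjSum _ ↔ _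
    rw [Finset.inl_mem_disjSum, Finset.mem_sdiff]
  have hTr : ∀ u g', Sum.inr g' ∈ T u ↔ g' ∈ A u ∧ g'.1 ≠ g.1 ∧ g.1.length ≤ g'.1.length := by
    intro u g'
    change Sum.inr g' ∈ (S u \ top g.1).disjSum _ ↔ _
    rw [Finset.inr_mem_disjSum, Finset.mem_filter]
  have hcard : ∀ u, (T u).card ≤ k + (2 ^ k + 1) ^ k := by
    intro u
    change ((S u \ top g.1).disjSum _).card ≤ _
    rw [Finset.card_disjSum]
    refine add_le_add ((Finset.card_le_card Finset.sdiff_subset).trans (hk u)) ?_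
    refine (Finset.card_filter_le _ _).trans ?_
    have h1 : (A u : Set (List (Finset L) × Set V)) = labs R u := Set.ext fun p => hA u p
    rw [← Set.ncard_coe_finset, h1]
    exact labs_ncard h hk u
  obtain ⟨p, hp⟩ := short_walk (NG S R g.1) T (k + (2 ^ k + 1) ^ k) hcard (by
    intro u v huv
    rw [Finset.eq_empty_iff_forall_notMem]
    rintro (l | g') hmem
    · rw [Finset.mem_inter, hTl, hTl] at hmem
      have h1 : l ∈ S u ∩ S v := Finset.mem_inter.2 ⟨hmem.1.1, hmem.2.1⟩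
      rw [huv.2.2.2.1] at h1
      exact hmem.1.2 h1
    · rw [Finset.mem_inter, hTr, hTr] at hmem
      have h2 := (mem_labs_inter h huv.1 g').1 ⟨(hA u g').1 hmem.1.1, (hA v g').1 hmem.2.1⟩
      have h3 := huv.2.2.2.2 g'.1 hmem.1.2.1 h2.2.1 (h.symm _ _ _ h2.2.1)
      have h4 := hmem.1.2.2
      omega) (by
    intro u v hne hr hna
    obtain ⟨q⟩ := hr
    have hRuv := M9c_rel h q hne
    by_cases hS : S u ∩ S v = top g.1
    · have h1 : ∃ θ', θ' ≠ g.1 ∧ R θ' u v ∧ ¬ θ'.length < g.1.length := by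
        by_contra hcon
        refine hna ⟨hne, hRuv, h.symm _ _ _ hRuv, hS, fun θ' h1 h2 _ => ?_⟩
        by_contra h3
        exact hcon ⟨θ', h1, h2, h3⟩
      obtain ⟨θ', h1, h2, h3⟩ := h1
      have h4 : θ' ≠ [] := by
        rintro rfl
        have h5 := List.length_pos_iff.2 h0
        exact h3 h5
      have h5 := (mem_labs_inter h hne (θ', {z | R θ' u z})).2 ⟨h4, h2, rfl⟩
      refine ⟨Sum.inr (θ', {z | R θ' u z}), ?_⟩
      rw [Finset.mem_inter, hTr, hTr]
      exact ⟨⟨(hA _ _).2 h5.1, h1, not_lt.1 h3⟩, ⟨(hA _ _).2 h5.2, h1, not_lt.1 h3⟩⟩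
    · have h1 := h.top_sub hRuv
      have h2 : ¬ S u ∩ S v ⊆ top g.1 := fun h3 => hS (h3.antisymm h1)
      obtain ⟨l, hl, hlt⟩ := Finset.not_subset.1 h2
      rw [Finset.mem_inter] at hl
      refine ⟨Sum.inl l, ?_⟩
      rw [Finset.mem_inter, hTl, hTl]
      exact ⟨⟨hl.1, hlt⟩, ⟨hl.2, hlt⟩⟩) x y hreach
  obtain ⟨q, hq⟩ := ng_walk h hA hx p
  exact ⟨q, hq.le.trans hp⟩

theorem ls_wit [Finite V] {k : ℕ} (hk : ∀ x, (S x).card ≤ k) (hF : ¬ F ∅) (ho : Opt S F k R)
    {A : V → Finset (List (Finset L) × Set V)} (hA : ∀ x p, p ∈ A x ↔ p ∈ labs R x)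
    (x : V) (g : List (Finset L) × Set V) (hx : g ∈ A x) : ∃ y, (RG A (fun p => p.1.length) g).Adj x y := by
  obtain ⟨h0, -, -, y, hyx, hR⟩ := (hA x g).1 hx
  obtain ⟨p⟩ := visible hk hF ho h0 hR
  cases p with
  | nil => exact absurd rfl hyx
  | cons hadj p => exact ⟨_, ng_adj_rg ho.sys hA hx hadj⟩

end Pool.Agent.Lib.MP_767201_co.SE
end
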