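import Pool.Agent.Lib.MP_767201_co.Mg.G001
import Pool.Agent.Lib.MP_767201_co.Mg.G012
import Pool.Agent.Lib.MP_767201_co.Mg.G008
import Pool.Agent.Lib.MP_767201_co.SE.M9d

section

/-!
# TASK SE P7: decoding

Notation: `g_j(e) = z (ι j) e`; by `adj`: `g_j(e) ∈ A (w j e)`, `g_j(e) ∈ A (w (j+1) e)`, and every other common label of these two vertices is shorter than `l (ι j)`. (`ι j ≤ m` for `j ≤ M`: `i0`, `iM`, `iint`.)
`common`: if `j ≤ M` and `g ∈ A (w j e)`, `g ∈ A (w (j+1) e')` then `g` occurs at `e` and at `e'`, so (`typ`) `g ∈ A (w (j+1) e)` and `g ∈ A (w j e')`: it is a common label for the link `j` of `e` and of `e'`. So `len g ≤ l (ι j)`, with equality only if `g = g_j(e)` and `g = g_j(e')`.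
`decode`: `w j e ≠ w (j+1) e'` by `kap`. If `g_j(e) = g_j(e')`: this is a common label of `w j e`, `w (j+1) e'`, so the maximal length of a common label is `l (ι j)` (`IsL`), `val` gives `Q ↔ Odd (l (ι j))`. If not: all common labels have length `< l (ι j)`. Put `l = l (ι j) ≥ 1` (`pos`). `l = 1`: no common label (`pos`),
`IsL .. 0`, so `¬ Q` and `Odd l`. `l ≥ 2`: `par g_j(e) ∈ A (w j e)` and `par g_j(e') ∈ A (w (j+1) e')` (`parA`), they are equal (`cpar`), of length `l - 1` (`parL`): `IsL .. (l-1)`, so `Q ↔ Odd (l-1)`. In both cases not (`Q ↔ Odd l`).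
`same_label`: if `w j e = w j e'` and `j ≤ M`: `g_j(e') ∈ A (w j e') = A (w j e)`, so by `common` (for the pair `w j e`, `w (j+1) e'`) it is `g_j(e)`. `same_label'`: if `w (j+1) e = w (j+1) e'`, `j ≤ M`: `g_j(e) ∈ A (w (j+1) e) = A (w (j+1) e')` and `g_j(e) ∈ A (w j e)`: `common` gives `g_j(e) = g_j(e')`
(length `l (ι j)`).
`coincide`: `1 ≤ j ≤ M`. If `j < M`: `same_label` at the interior link `j`, `inj`. If `j = M ≥ 2`: `same_label'` at the link `j - 1 ≥ 1`, `inj`. If `j = M = 1`: `same_label` at the link 1 (`ι 1 = m`) and `same_label'` at the link 0 (`ι 0 = 0`): `ends`.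
-/

set_option autoImplicit false

namespace Pool.Agent.Lib.MP_767201_co.SE

variable {V Γ ε : Type} {K k D : ℕ} {Q : V → V → Prop} {A : V → Finset Γ} {len : Γ → ℕ} {par : Γ → Γ}
  {m M : ℕ} {l ι : ℕ → ℕ} {E : Finset ε} {z : ℕ → ε → Γ} {w : ℕ → ε → V} {κ : V → ℕ}

private theorem P7_le (hC : Chain A len par m M l ι E z w) {j : ℕ} (hj : j ≤ M) : ι j ≤ m := by
  rcases Nat.eq_zero_or_pos j with h0 | h0
  · rw [h0, hC.i0]; exact Nat.zero_le _
  · rcases Nat.lt_or_ge j M with h1 | h1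
    · exact (hC.iint j h0 h1).2.le
    · have : j = M := by omega
      rw [this, hC.iM]

theorem common (hC : Chain A len par m M l ι E z w) (hT : Typed A M κ E w) {e e' : ε} (he : e ∈ E) (he' : e' ∈ E)
    {j : ℕ} (hj : j ≤ M) {g : Γ} (h1 : g ∈ A (w j e)) (h2 : g ∈ A (w (j + 1) e')) :
    len g ≤ l (ι j) ∧ (len g = l (ι j) → g = z (ι j) e ∧ g = z (ι j) e') := by
  have hoe : occ A M w g e := ⟨j, by omega, h1⟩
  have hoe' : occ A M w g e' := ⟨j + 1, by omega, h2⟩
  have h3 : g ∈ A (w (j + 1) e) := (hT.typ e he e' he' g hoe hoe' (j + 1) (by omega)).mpr h2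
  have h4 : g ∈ A (w j e') := (hT.typ e he e' he' g hoe hoe' j (by omega)).mp h1
  have key : ∀ f ∈ E, g ∈ A (w j f) → g ∈ A (w (j + 1) f) → g = z (ι j) f ∨ len g < l (ι j) := by
    intro f hf ha hb
    by_cases hg : g = z (ι j) f
    · exact Or.inl hg
    · right
      have h := (hC.adj j hj f hf).2.2.2 g ha hb hg
      rwa [hC.lenz (ι j) (P7_le hC hj) f hf] at h
  have k1 := key e he h1 h3
  have k2 := key e' he' h4 h2
  have hle : ∀ f ∈ E, g = z (ι j) f → len g = l (ι j) := fun f hf h => by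
    rw [h]; exact hC.lenz (ι j) (P7_le hC hj) f hf
  refine ⟨?_, fun hl => ⟨?_, ?_⟩⟩
  · rcases k1 with k1 | k1
    · exact (hle e he k1).le
    · exact k1.le
  · rcases k1 with k1 | k1
    · exact k1
    · omega
  · rcases k2 with k2 | k2
    · exact k2
    · omega

theorem decode (h : LSok K k D Q A len par) (hC : Chain A len par m M l ι E z w) (hT : Typed A M κ E w) {e e' : ε}
    (he : e ∈ E) (he' : e' ∈ E) {j : ℕ} (hj : j ≤ M) :
    (Q (w j e) (w (j + 1) e') ↔ Odd (l (ι j))) ↔ z (ι j) e = z (ι j) e' := by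
  have hne : w j e ≠ w (j + 1) e' := by
    intro hh
    have h1 := hT.kap j (by omega) e he
    have h2 := hT.kap (j + 1) (by omega) e' he'
    rw [hh, h2] at h1
    omega
  have hιm := P7_le hC hj
  have hle := hC.lenz (ι j) hιm e he
  have hle' := hC.lenz (ι j) hιm e' he'
  have hge : z (ι j) e ∈ A (w j e) := (hC.adj j hj e he).2.1
  have hge' : z (ι j) e' ∈ A (w (j + 1) e') := (hC.adj j hj e' he').2.2.1
  by_cases hz : z (ι j) e = z (ι j) e'
  · have hL : IsL A len (w j e) (w (j + 1) e') (l (ι j)) :=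
      ⟨fun g hg1 hg2 => (common hC hT he he' hj hg1 hg2).1, Or.inr ⟨z (ι j) e, hge, by rw [hz]; exact hge', hle⟩⟩
    have hv := h.val _ _ _ hne hL
    exact ⟨fun _ => hz, fun _ => hv⟩
  · have hlt : ∀ g ∈ A (w j e), g ∈ A (w (j + 1) e') → len g < l (ι j) := by
      intro g hg1 hg2
      have hc := common hC hT he he' hj hg1 hg2
      rcases Nat.lt_or_ge (len g) (l (ι j)) with h1 | h1
      · exact h1
      · exfalso
        have h2 := hc.2 (le_antisymm hc.1 h1)
        exact hz (h2.1.symm.trans h2.2)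
    have hl1 : 1 ≤ l (ι j) := by rw [← hle]; exact h.pos _ _ hge
    have hQ : ¬ (Q (w j e) (w (j + 1) e') ↔ Odd (l (ι j))) := by
      rcases Nat.lt_or_ge (l (ι j)) 2 with h2 | h2
      · have hl : l (ι j) = 1 := by omega
        have hL : IsL A len (w j e) (w (j + 1) e') 0 := by
          refine ⟨fun g hg1 hg2 => ?_, Or.inl rfl⟩
          have := hlt g hg1 hg2
          omega
        have hv := h.val _ _ _ hne hL
        rw [hl, hv]
        simp
      · have hp1 : par (z (ι j) e) ∈ A (w j e) := h.parA _ _ hge (by omega)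
        have hp2 : par (z (ι j) e') ∈ A (w (j + 1) e') := h.parA _ _ hge' (by omega)
        have hpe : par (z (ι j) e) = par (z (ι j) e') := hC.cpar (ι j) hιm e he e' he' (by omega)
        have hpl : len (par (z (ι j) e)) + 1 = len (z (ι j) e) := h.parL _ _ hge (by omega)
        have hL : IsL A len (w j e) (w (j + 1) e') (l (ι j) - 1) := by
          refine ⟨fun g hg1 hg2 => ?_, Or.inr ⟨par (z (ι j) e), hp1, by rw [hpe]; exact hp2, by omega⟩⟩
          have := hlt g hg1 hg2
          omega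
        have hv := h.val _ _ _ hne hL
        rw [hv]
        intro hh
        rcases Nat.even_or_odd (l (ι j)) with h3 | h3
        · have h4 : Odd (l (ι j) - 1) := by
            rw [Nat.odd_iff]
            rw [Nat.even_iff] at h3
            omega
          have h5 := hh.mp h4
          exact (Nat.not_odd_iff_even.mpr h3) h5
        · have h4 := hh.mpr h3
          rw [Nat.odd_iff] at h3 h4
          omega
    exact ⟨fun hh => absurd hh hQ, fun hh => absurd hh hz⟩

theorem same_label (hC : Chain A len par m M l ι E z w) (hT : Typed A M κ E w) {e e' : ε} (he : e ∈ E)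
    (he' : e' ∈ E) {j : ℕ} (hj : j ≤ M) (hw : w j e = w j e') : z (ι j) e = z (ι j) e' := by
  have h1 : z (ι j) e' ∈ A (w j e) := by rw [hw]; exact (hC.adj j hj e' he').2.1
  have h2 : z (ι j) e' ∈ A (w (j + 1) e') := (hC.adj j hj e' he').2.2.1
  exact ((common hC hT he he' hj h1 h2).2 (hC.lenz (ι j) (P7_le hC hj) e' he')).1.symm

theorem same_label' (hC : Chain A len par m M l ι E z w) (hT : Typed A M κ E w) {e e' : ε} (he : e ∈ E)
    (he' : e' ∈ E) {j : ℕ} (hj : j ≤ M) (hw : w (j + 1) e = w (j + 1) e') : z (ι j) e = z (ι j) e' := by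
  have h1 : z (ι j) e ∈ A (w j e) := (hC.adj j hj e he).2.1
  have h2 : z (ι j) e ∈ A (w (j + 1) e') := by rw [← hw]; exact (hC.adj j hj e he).2.2.1
  exact ((common hC hT he he' hj h1 h2).2 (hC.lenz (ι j) (P7_le hC hj) e he)).2

theorem coincide (hC : Chain A len par m M l ι E z w) (hT : Typed A M κ E w) {e e' : ε} (he : e ∈ E)
    (he' : e' ∈ E) {j : ℕ} (hj1 : 1 ≤ j) (hj : j ≤ M) (hw : w j e = w j e') : e = e' := by
  rcases Nat.lt_or_ge j M with h1 | h1
  · have h2 := same_label hC hT he he' hj hw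
    have h3 := hC.iint j hj1 h1
    exact hC.inj (ι j) h3.1 h3.2 he he' h2
  · have hjM : j = M := by omega
    rcases Nat.lt_or_ge j 2 with h2 | h2
    · have hj' : j = 1 := by omega
      have h3 := same_label hC hT he he' hj hw
      rw [hjM, hC.iM] at h3
      have h4 : w (0 + 1) e = w (0 + 1) e' := by rw [hj'] at hw; exact hw
      have h5 := same_label' hC hT he he' (j := 0) (by omega) h4
      rw [hC.i0] at h5
      exact hC.ends e he e' he' h5 h3
    · have h4 : w ((j - 1) + 1) e = w ((j - 1) + 1) e' := by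
        have : (j - 1) + 1 = j := by omega
        rw [this]; exact hw
      have h5 := same_label' hC hT he he' (j := j - 1) (by omega) h4
      have h3 := hC.iint (j - 1) (by omega) (by omega)
      exact hC.inj (ι (j - 1)) h3.1 h3.2 he he' h5

end Pool.Agent.Lib.MP_767201_co.SE
end

section

/-!
# TASK SE F1: the edges of the output graph, no K_{2,2}

`β j = Odd (l (ι j))`, `U = outV M E w`.
Proof of `out_iff`. From right to left: `κ` by `kap`; `decode` with `e = e'`. From left to right: `x = w i e`, `y = w i' e'`, `i, i' ≤ M + 1`; `kap`: `i' = i + 1`, so `i ≤ M`; `decode`: `z (ι i) e = z (ι i) e'`. If `1 ≤ i < M`: `ι i` is interior, `e = e'`. If `i = 0`: `z 0 e = z 0 e'`, so `w 0 e = w 0 e'` (`end0`): take `e'`. If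
`i = M`: `z m e = z m e'`, `w (M+1) e = w (M+1) e'` (`endM`): take `e`.

Proof of `nbr`. `x = w j e`, `1 ≤ j ≤ M`, `y ∈ U` adjacent to `x`. By `out_iff` there are `e₁ ∈ E`, `j₁ ≤ M` with (`x = w j₁ e₁`, `y = w (j₁+1) e₁`) or (`y = w j₁ e₁`, `x = w (j₁+1) e₁`); by `kap` `j₁ = j` resp. `j₁ + 1 = j`; by `coincide` `e₁ = e`. So `y = w (j+1) e` or `y = w (j-1) e`.

Proof of `out_free`. Let `a 0 ≠ a 1`, `b 0 ≠ b 1`, all `a i ~ b j`. `κ` of adjacent vertices differs by 1, values in `0..M+1`, so one of `κ (a 0)`, `κ (b 0)` is in `1..M` (`M ≥ 1`: not both in `{0, M+1}`, as `|0 - (M+1)| ≥ 2`, and adjacent ones have different `κ`). By symmetry (exchange `a` and `b`) let `κ (a 0) = j ∈ 1..M`, `a 0 = w j e`. By `nbr`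
`b 0, b 1 ∈ {w (j-1) e, w (j+1) e}`, different, so both occur. `a 1` is adjacent to both, so `κ (a 1)` is one of `j-2, j` and one of `j, j+2`: `κ (a 1) = j`, `a 1 = w j e'`; `nbr` for `e'`: `w (j-1) e ∈ {w (j-1) e', w (j+1) e'}`, by `kap` `w (j-1) e = w (j-1) e'`; same: `w (j+1) e = w (j+1) e'`.
If `j ≥ 2`: `coincide` at `j - 1`; if `j + 1 ≤ M`: `coincide` at `j + 1`; otherwise `j = 1 = M`: `same_label` at 0 (`z 0 e = z 0 e'`) and `same_label'` at `M = 1` (`z m e = z m e'`), `ends`. So `e = e'` and `a 0 = a 1`, a contradiction.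
-/

set_option autoImplicit false

namespace Pool.Agent.Lib.MP_767201_co.SE

variable {V Γ ε : Type} {K k D : ℕ} {Q : V → V → Prop} {A : V → Finset Γ} {len : Γ → ℕ} {par : Γ → Γ}
  {m M : ℕ} {l ι : ℕ → ℕ} {E : Finset ε} {z : ℕ → ε → Γ} {w : ℕ → ε → V} {κ : V → ℕ}

theorem out_iff (h : LSok K k D Q A len par) (hC : Chain A len par m M l ι E z w) (hT : Typed A M κ E w) {x y : V}
    (hx : x ∈ outV M E w) (hy : y ∈ outV M E w) :
    outRel Q κ (fun j => Odd (l (ι j))) x y ↔ ∃ e ∈ E, ∃ j ≤ M, x = w j e ∧ y = w (j + 1) e := by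
  constructor
  · rintro ⟨h1, h2⟩
    obtain ⟨e, he, i, hi, rfl⟩ := hx
    obtain ⟨e', he', i', hi', rfl⟩ := hy
    have k1 := hT.kap i hi e he
    have k2 := hT.kap i' hi' e' he'
    rw [k1] at h1 h2
    rw [k2] at h1
    subst h1
    have hiM : i ≤ M := by omega
    have hz := (decode h hC hT he he' hiM).1 h2
    rcases Nat.eq_zero_or_pos i with hi0 | hi0
    · subst hi0
      refine ⟨e', he', 0, Nat.zero_le _, ?_, rfl⟩
      rw [hC.i0] at hz
      exact hC.end0 e he e' he' hz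
    · rcases Nat.lt_or_ge i M with hlt | hge
      · obtain ⟨a1, a2⟩ := hC.iint i hi0 hlt
        have := hC.inj (ι i) a1 a2 he he' hz
        subst this
        exact ⟨e, he, i, hiM, rfl, rfl⟩
      · have : i = M := le_antisymm hiM hge
        subst this
        rw [hC.iM] at hz
        refine ⟨e, he, i, le_rfl, rfl, ?_⟩
        exact (hC.endM e he e' he' hz).symm
  · rintro ⟨e, he, j, hj, rfl, rfl⟩
    have k1 := hT.kap j (by omega) e he
    have k2 := hT.kap (j + 1) (by omega) e he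
    refine ⟨by rw [k1, k2], ?_⟩
    rw [k1]
    exact (decode h hC hT he he hj).2 rfl

theorem nbr (h : LSok K k D Q A len par) (hC : Chain A len par m M l ι E z w) (hT : Typed A M κ E w) {x y : V}
    (hx : x ∈ outV M E w) (hy : y ∈ outV M E w) {e : ε} (he : e ∈ E) {j : ℕ} (hj1 : 1 ≤ j) (hj : j ≤ M)
    (hxe : x = w j e) (hxy : outRel Q κ (fun j => Odd (l (ι j))) x y ∨ outRel Q κ (fun j => Odd (l (ι j))) y x) :
    y = w (j + 1) e ∨ y = w (j - 1) e := by
  have kx : κ x = j := by rw [hxe]; exact hT.kap j (by omega) e he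
  rcases hxy with hxy | hxy
  · obtain ⟨e₁, he₁, j₁, hj₁, h1, h2⟩ := (out_iff h hC hT hx hy).1 hxy
    have k1 := hT.kap j₁ (by omega) e₁ he₁
    rw [← h1, kx] at k1
    subst k1
    have := coincide hC hT he he₁ hj1 hj (by rw [← hxe, h1])
    subst this
    exact Or.inl h2
  · obtain ⟨e₁, he₁, j₁, hj₁, h1, h2⟩ := (out_iff h hC hT hy hx).1 hxy
    have k1 := hT.kap (j₁ + 1) (by omega) e₁ he₁
    rw [← h2, kx] at k1
    subst k1
    have := coincide hC hT he he₁ hj1 hj (by rw [← hxe, h2])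
    subst this
    exact Or.inr (by rw [h1]; rfl)

/-- The main case: the vertex `a 0` has an interior position. -/
private theorem F1_core (h : LSok K k D Q A len par) (hC : Chain A len par m M l ι E z w) (hT : Typed A M κ E w)
    {a0 a1 b0 b1 : V} (ha0 : a0 ∈ outV M E w) (ha1 : a1 ∈ outV M E w) (hb0 : b0 ∈ outV M E w)
    (hb1 : b1 ∈ outV M E w) (ha : a0 ≠ a1) (hb : b0 ≠ b1)
    (h00 : outRel Q κ (fun j => Odd (l (ι j))) a0 b0 ∨ outRel Q κ (fun j => Odd (l (ι j))) b0 a0)
    (h01 : outRel Q κ (fun j => Odd (l (ι j))) a0 b1 ∨ outRel Q κ (fun j => Odd (l (ι j))) b1 a0)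
    (h10 : outRel Q κ (fun j => Odd (l (ι j))) a1 b0 ∨ outRel Q κ (fun j => Odd (l (ι j))) b0 a1)
    (h11 : outRel Q κ (fun j => Odd (l (ι j))) a1 b1 ∨ outRel Q κ (fun j => Odd (l (ι j))) b1 a1)
    (hj1 : 1 ≤ κ a0) (hj : κ a0 ≤ M) : False := by
  -- it suffices to treat `b0 = w (j+1) e`, `b1 = w (j-1) e`
  have key : ∀ b0 b1 : V, b0 ∈ outV M E w → b1 ∈ outV M E w →
      (outRel Q κ (fun j => Odd (l (ι j))) a1 b0 ∨ outRel Q κ (fun j => Odd (l (ι j))) b0 a1) →
      (outRel Q κ (fun j => Odd (l (ι j))) a1 b1 ∨ outRel Q κ (fun j => Odd (l (ι j))) b1 a1) →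
      ∀ e ∈ E, ∀ j, 1 ≤ j → j ≤ M → a0 = w j e → b0 = w (j + 1) e → b1 = w (j - 1) e → False := by
    intro b0 b1 hb0 hb1 h10 h11 e he j hj1 hj hae hbe hbe'
    have kb0 : κ b0 = j + 1 := by rw [hbe]; exact hT.kap (j + 1) (by omega) e he
    have kb1 : κ b1 = j - 1 := by rw [hbe']; exact hT.kap (j - 1) (by omega) e he
    have ka1 : κ a1 = j := by
      have c0 : κ b0 = κ a1 + 1 ∨ κ a1 = κ b0 + 1 := h10.imp (fun t => t.1) (fun t => t.1)
      have c1 : κ b1 = κ a1 + 1 ∨ κ a1 = κ b1 + 1 := h11.imp (fun t => t.1) (fun t => t.1)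
      omega
    obtain ⟨e', he', i, hi, ha1e⟩ := ha1
    have ki := hT.kap i hi e' he'
    rw [← ha1e, ka1] at ki
    subst ki
    have n0 := nbr h hC hT ⟨e', he', j, hi, ha1e⟩ hb0 he' hj1 hj ha1e h10
    have n1 := nbr h hC hT ⟨e', he', j, hi, ha1e⟩ hb1 he' hj1 hj ha1e h11
    have m0 : w (j + 1) e = w (j + 1) e' := by
      rcases n0 with n0 | n0
      · rw [← hbe, n0]
      · have := hT.kap (j - 1) (by omega) e' he'
        rw [← n0, kb0] at this
        omega
    have m1 : w (j - 1) e = w (j - 1) e' := by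
      rcases n1 with n1 | n1
      · have := hT.kap (j + 1) (by omega) e' he'
        rw [← n1, kb1] at this
        omega
      · rw [← hbe', n1]
    have hee : e = e' := by
      rcases Nat.lt_or_ge 1 j with h2 | h2
      · exact coincide hC hT he he' (j := j - 1) (by omega) (by omega) m1
      · rcases Nat.lt_or_ge j M with h3 | h3
        · exact coincide hC hT he he' (j := j + 1) (by omega) (by omega) m0
        · have hj1' : j = 1 := by omega
          have hM1 : M = 1 := by omega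
          subst hj1'
          have z0 := same_label hC hT he he' (j := 0) (Nat.zero_le _) m1
          have z1 := same_label' hC hT he he' (j := 1) (by omega) m0
          rw [hC.i0] at z0
          have hi1 : ι 1 = m := by rw [← hM1]; exact hC.iM
          rw [hi1] at z1
          exact hC.ends e he e' he' z0 z1
    exact ha (by rw [hae, ha1e, hee])
  obtain ⟨e, he, j, hjM, hae⟩ := id ha0
  have kj := hT.kap j hjM e he
  rw [← hae] at kj
  rw [kj] at hj1 hj
  have n0 := nbr h hC hT ha0 hb0 he hj1 hj hae h00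
  have n1 := nbr h hC hT ha0 hb1 he hj1 hj hae h01
  rcases n0 with n0 | n0 <;> rcases n1 with n1 | n1
  · exact hb (by rw [n0, n1])
  · exact key b0 b1 hb0 hb1 h10 h11 e he j hj1 hj hae n0 n1
  · exact key b1 b0 hb1 hb0 h11 h10 e he j hj1 hj hae n1 n0
  · exact hb (by rw [n0, n1])

theorem out_free (h : LSok K k D Q A len par) (hC : Chain A len par m M l ι E z w) (hT : Typed A M κ E w) :
    ¬ ∃ a b : Fin 2 → outV M E w, Function.Injective a ∧ Function.Injective b ∧ (∀ i j, a i ≠ b j) ∧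
      ∀ i j, (outG Q κ (fun j => Odd (l (ι j))) (outV M E w)).Adj (a i) (b j) := by
  rintro ⟨a, b, ha, hb, -, hab⟩
  have ha' : (a 0).1 ≠ (a 1).1 := fun h1 => absurd (ha (Subtype.ext h1)) (by decide)
  have hb' : (b 0).1 ≠ (b 1).1 := fun h1 => absurd (hb (Subtype.ext h1)) (by decide)
  have hM := hC.M1
  have kle : ∀ u : outV M E w, κ u.1 ≤ M + 1 := by
    rintro ⟨u, e, he, i, hi, rfl⟩
    have := hT.kap i hi e he
    show κ (w i e) ≤ M + 1
    rw [this]
    exact hi
  have c : κ (b 0).1 = κ (a 0).1 + 1 ∨ κ (a 0).1 = κ (b 0).1 + 1 := (hab 0 0).2.imp (fun t => t.1) (fun t => t.1)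
  have k1 := kle (a 0)
  have k2 := kle (b 0)
  by_cases hcase : 1 ≤ κ (a 0).1 ∧ κ (a 0).1 ≤ M
  · exact F1_core h hC hT (a 0).2 (a 1).2 (b 0).2 (b 1).2 ha' hb' (hab 0 0).2 (hab 0 1).2 (hab 1 0).2
      (hab 1 1).2 hcase.1 hcase.2
  · have hcase' : 1 ≤ κ (b 0).1 ∧ κ (b 0).1 ≤ M := by omega
    exact F1_core h hC hT (b 0).2 (b 1).2 (a 0).2 (a 1).2 hb' ha' (hab 0 0).2.symm (hab 1 0).2.symm
      (hab 0 1).2.symm (hab 1 1).2.symm hcase'.1 hcase'.2

end Pool.Agent.Lib.MP_767201_co.SE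
end

section

/-!
# TASK SE M9: every label-determined graph has a label structure

Proof. `K = (2^k+1)^k`, `D = 2 (k+K+1)^(k+K)`. `G`, `S`, `f` from `LabelDet`, `b := f ∅`, `F Q := ¬ (f Q ↔ f ∅)`, so `¬ F ∅`. `exists_opt`: an optimal `R`. `A x := (labs_finite ..).toFinset`, `len p = p.1.length`, `par = parOf R`.
The fields of `LSok` for `E x y := F (S x ∩ S y)`: `card`: `labs_ncard` (`Set.ncard_eq_toFinset_card`); `pos`: `p.1 ≠ []`; `le`: `len_le`; `parA`: `par_mem`; `parL`: length of the tail; `val`: `ls_val`; `wit`: `ls_wit`; `conn`: `ls_conn`.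
`ls_finite`. For `x ≠ y`: `F (S x ∩ S y) ↔ ¬ (G.Adj x y ↔ b)` by `LabelDet`, and only `val` uses `E`, for `x ≠ y`.
-/

set_option autoImplicit false

namespace Pool.Agent.Lib.MP_767201_co.SE

theorem exists_LS (k : ℕ) : ∃ K D : ℕ, ∀ G : FG, LabelDet k G →
    ∃ (Γ : Type) (_ : Finite Γ) (b : Prop) (A : G.V → Finset Γ) (len : Γ → ℕ) (par : Γ → Γ),
      LSof K k D G b A len par := by
  refine ⟨(2 ^ k + 1) ^ k, 2 * (k + (2 ^ k + 1) ^ k + 1) ^ (k + (2 ^ k + 1) ^ k), ?_⟩
  rintro G ⟨S, f, hk, hf⟩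
  have hfin : Finite G.V := G.fin
  have hF : ¬ (fun Q => ¬ (f Q ↔ f ∅)) ∅ := fun h => h Iff.rfl
  obtain ⟨R, ho⟩ := exists_opt S (fun Q => ¬ (f Q ↔ f ∅)) hk hF
  have hfinl : ∀ x, (labs R x).Finite := fun x => labs_finite ho.sys hk x
  have hA : ∀ x p, p ∈ (fun x => (hfinl x).toFinset) x ↔ p ∈ labs R x := fun x p => (hfinl x).mem_toFinset
  have hLS : LSok ((2 ^ k + 1) ^ k) k (2 * (k + (2 ^ k + 1) ^ k + 1) ^ (k + (2 ^ k + 1) ^ k))
      (fun x y => ¬ (G.G.Adj x y ↔ f ∅)) (fun x => (hfinl x).toFinset) (fun p => p.1.length) (parOf R) := by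
    refine ⟨?_, ?_, ?_, ?_, ?_, ?_, ?_, ?_⟩
    · intro x
      have h1 := labs_ncard ho.sys hk x
      rw [Set.ncard_eq_toFinset_card _ (hfinl x)] at h1
      exact h1
    · intro x g hg
      have h1 := (hA x g).mp hg
      exact List.length_pos_iff.mpr h1.1
    · intro x g hg
      have h1 := (hA x g).mp hg
      exact ho.sys.len_le hk h1.2.1
    · intro x g hg h2
      exact (hA x _).mpr (par_mem ho.sys ((hA x g).mp hg) h2)
    · intro x g hg h2
      show g.1.tail.length + 1 = g.1.length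
      have h2' : 2 ≤ g.1.length := h2
      rw [List.length_tail]
      omega
    · intro x y n hxy hn
      have h1 := ls_val ho.sys ho.valid hk hA hxy hn
      show ¬ (G.G.Adj x y ↔ f ∅) ↔ Odd n
      rw [hf x y hxy]
      exact h1
    · intro x g hg
      exact ls_wit hk hF ho hA x g hg
    · intro x y g hx hy
      exact ls_conn hk hF ho hA x y g hx hy
  obtain ⟨Γ, hΓ, A', len', par', h'⟩ := ls_finite hLS
  exact ⟨Γ, hΓ, f ∅, A', len', par', h'⟩

end Pool.Agent.Lib.MP_767201_co.SE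
end
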