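import Pool.Agent.Lib.MP_767201_co.SE.Defs
import Pool.Agent.Lib.MP_767201_co.Mg.G001

section

/-!
# TASK SE FO: definable relations

`Defb k K P`: the relation `P` (given for all graphs and colourings) is defined by a formula with two free variables.
`vals`, `valL`... nothing else is needed: all proofs construct a formula and compute `Language.Formula.Realize` (the structure is `tstr G χ`; unfold `sat`).
 * `edge`: the relation symbol `TRel.edge` applied to the variables `0`, `1` (`Language.Relations.formula₂` or `boundedFormula₂`, with `Term.var`); `colL`, `colR`: `TRel.col c`.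
 * `and`, `or`, `not`: `⊓`, `⊔`, `∼` (`Formula.realize_inf` etc.). `swap`: relabel the variables (`Formula.relabel`, `Formula.realize_relabel`).
 * `comp`: relabel `φ` to the variables `Sum.inl 0`, `Sum.inr 0`, `ψ` to `Sum.inr 0`, `Sum.inl 1` (type `Fin 2 ⊕ Fin 1`), take `⊓` and `Formula.iExs (Fin 1)` (or `BoundedFormula.ex`).
 * `iUnion`, `iInter` for a finite index type: `Language.Formula.iSup`/`iInf` (`realize_iSup`), or induction over a finite set / list of indices with `or`, `and`.
-/

set_option autoImplicit false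

open FirstOrder

namespace Pool.Agent.Lib.MP_767201_co.SE

/-- The relation `P` is defined by a formula. -/
def Defb (k : ℕ) (K : Type)
    (P : ∀ V : Type, SimpleGraph V → (V × Fin k → K) → V × Fin k → V × Fin k → Prop) : Prop :=
  ∃ φ : (TL k K).Formula (Fin 2), ∀ (V : Type) (G : SimpleGraph V) (χ : V × Fin k → K) (x y : V × Fin k),
    sat G χ φ x y ↔ P V G χ x y

variable {k : ℕ} {K : Type} {P Q : ∀ V : Type, SimpleGraph V → (V × Fin k → K) → V × Fin k → V × Fin k → Prop}

private theorem FO_rel1 {V : Type} (G : SimpleGraph V) (χ : V × Fin k → K)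
    (R : (TL k K).Relations 1) (i : Fin 2) (x y : V × Fin k) :
    sat G χ (R.formula₁ (Language.Term.var i)) x y ↔
      (tstr G χ).RelMap R ![(![x, y] : Fin 2 → V × Fin k) i] := by
  unfold sat
  rw [@Language.Formula.realize_rel₁ (TL k K) (V × Fin k) (tstr G χ)]
  rfl

private theorem FO_rel2 {V : Type} (G : SimpleGraph V) (χ : V × Fin k → K)
    (R : (TL k K).Relations 2) (i j : Fin 2) (x y : V × Fin k) :
    sat G χ (R.formula₂ (Language.Term.var i) (Language.Term.var j)) x y ↔
      (tstr G χ).RelMap R ![(![x, y] : Fin 2 → V × Fin k) i, (![x, y] : Fin 2 → V × Fin k) j] := by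
  unfold sat
  rw [@Language.Formula.realize_rel₂ (TL k K) (V × Fin k) (tstr G χ)]
  rfl

theorem Defb.edge : Defb k K (fun _ G _ x y => x.2 = y.2 ∧ G.Adj x.1 y.1) := by
  refine ⟨Language.Relations.formula₂ (L := TL k K) (TRel.edge : TRel k K 2)
    (Language.Term.var 0) (Language.Term.var 1), fun V G χ x y => ?_⟩
  exact (FO_rel2 G χ (TRel.edge : TRel k K 2) 0 1 x y).trans Iff.rfl

theorem Defb.colL (c : K) : Defb k K (fun _ _ χ x _ => χ x = c) := by
  refine ⟨Language.Relations.formula₁ (L := TL k K) (TRel.col c : TRel k K 1)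
    (Language.Term.var 0), fun V G χ x y => ?_⟩
  exact (FO_rel1 G χ (TRel.col c : TRel k K 1) 0 x y).trans Iff.rfl

theorem Defb.colR (c : K) : Defb k K (fun _ _ χ _ y => χ y = c) := by
  refine ⟨Language.Relations.formula₁ (L := TL k K) (TRel.col c : TRel k K 1)
    (Language.Term.var 1), fun V G χ x y => ?_⟩
  exact (FO_rel1 G χ (TRel.col c : TRel k K 1) 1 x y).trans Iff.rfl

theorem Defb.true : Defb k K (fun _ _ _ _ _ => True) := by
  refine ⟨⊤, fun V G χ x y => ?_⟩
  unfold sat
  exact @Language.Formula.realize_top (TL k K) (V × Fin k) (tstr G χ) _ _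

theorem Defb.not (hP : Defb k K P) : Defb k K (fun V G χ x y => ¬ P V G χ x y) := by
  obtain ⟨φ, hφ⟩ := hP
  refine ⟨φ.not, fun V G χ x y => ?_⟩
  show sat G χ φ.not x y ↔ ¬ P V G χ x y
  rw [← hφ V G χ x y]
  unfold sat
  exact @Language.Formula.realize_not (TL k K) (V × Fin k) (tstr G χ) _ _ _

theorem Defb.and (hP : Defb k K P) (hQ : Defb k K Q) : Defb k K (fun V G χ x y => P V G χ x y ∧ Q V G χ x y) := by
  obtain ⟨φ, hφ⟩ := hP
  obtain ⟨ψ, hψ⟩ := hQ
  refine ⟨φ ⊓ ψ, fun V G χ x y => ?_⟩
  show sat G χ (φ ⊓ ψ) x y ↔ (P V G χ x y ∧ Q V G χ x y)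
  rw [← hφ V G χ x y, ← hψ V G χ x y]
  unfold sat
  exact @Language.Formula.realize_inf (TL k K) (V × Fin k) (tstr G χ) _ _ _ _

theorem Defb.or (hP : Defb k K P) (hQ : Defb k K Q) : Defb k K (fun V G χ x y => P V G χ x y ∨ Q V G χ x y) := by
  obtain ⟨φ, hφ⟩ := hP
  obtain ⟨ψ, hψ⟩ := hQ
  refine ⟨φ ⊔ ψ, fun V G χ x y => ?_⟩
  show sat G χ (φ ⊔ ψ) x y ↔ (P V G χ x y ∨ Q V G χ x y)
  rw [← hφ V G χ x y, ← hψ V G χ x y]
  unfold sat
  exact @Language.Formula.realize_sup (TL k K) (V × Fin k) (tstr G χ) _ _ _ _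

theorem Defb.swap (hP : Defb k K P) : Defb k K (fun V G χ x y => P V G χ y x) := by
  obtain ⟨φ, hφ⟩ := hP
  refine ⟨φ.relabel (![1, 0] : Fin 2 → Fin 2), fun V G χ x y => ?_⟩
  show sat G χ (φ.relabel (![1, 0] : Fin 2 → Fin 2)) x y ↔ P V G χ y x
  rw [← hφ V G χ y x]
  unfold sat
  rw [@Language.Formula.realize_relabel (TL k K) (V × Fin k) (tstr G χ)]
  have h : (![x, y] : Fin 2 → V × Fin k) ∘ (![1, 0] : Fin 2 → Fin 2) = ![y, x] := by
    funext i
    fin_cases i <;> rfl
  rw [h]

theorem Defb.comp (hP : Defb k K P) (hQ : Defb k K Q) :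
    Defb k K (fun V G χ x y => ∃ z, P V G χ x z ∧ Q V G χ z y) := by
  obtain ⟨φ, hφ⟩ := hP
  obtain ⟨ψ, hψ⟩ := hQ
  refine ⟨Language.Formula.iExs (Fin 1)
    ((φ.relabel (![Sum.inl 0, Sum.inr 0] : Fin 2 → Fin 2 ⊕ Fin 1)) ⊓
      (ψ.relabel (![Sum.inr 0, Sum.inl 1] : Fin 2 → Fin 2 ⊕ Fin 1))), fun V G χ x y => ?_⟩
  unfold sat
  rw [@Language.Formula.realize_iExs (TL k K) (V × Fin k) (tstr G χ)]
  have key : ∀ i : Fin 1 → V × Fin k,
      (@Language.Formula.Realize (TL k K) (V × Fin k) (tstr G χ) _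
        ((φ.relabel (![Sum.inl 0, Sum.inr 0] : Fin 2 → Fin 2 ⊕ Fin 1)) ⊓
          (ψ.relabel (![Sum.inr 0, Sum.inl 1] : Fin 2 → Fin 2 ⊕ Fin 1)))
        (Sum.elim ![x, y] i)) ↔ P V G χ x (i 0) ∧ Q V G χ (i 0) y := by
    intro i
    rw [@Language.Formula.realize_inf (TL k K) (V × Fin k) (tstr G χ),
      @Language.Formula.realize_relabel (TL k K) (V × Fin k) (tstr G χ),
      @Language.Formula.realize_relabel (TL k K) (V × Fin k) (tstr G χ),
      ← hφ V G χ x (i 0), ← hψ V G χ (i 0) y]
    unfold sat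
    have h1 : (Sum.elim (![x, y] : Fin 2 → V × Fin k) i) ∘
        (![Sum.inl 0, Sum.inr 0] : Fin 2 → Fin 2 ⊕ Fin 1) = ![x, i 0] := by
      funext j
      fin_cases j <;> rfl
    have h2 : (Sum.elim (![x, y] : Fin 2 → V × Fin k) i) ∘
        (![Sum.inr 0, Sum.inl 1] : Fin 2 → Fin 2 ⊕ Fin 1) = ![i 0, y] := by
      funext j
      fin_cases j <;> rfl
    rw [h1, h2]
  constructor
  · rintro ⟨i, hi⟩
    exact ⟨i 0, (key i).mp hi⟩
  · rintro ⟨z, hz⟩
    exact ⟨fun _ => z, (key fun _ => z).mpr hz⟩

theorem Defb.iUnion {I : Type} [Finite I]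
    {P : I → ∀ V : Type, SimpleGraph V → (V × Fin k → K) → V × Fin k → V × Fin k → Prop}
    (h : ∀ i, Defb k K (P i)) : Defb k K (fun V G χ x y => ∃ i, P i V G χ x y) := by
  choose φ hφ using h
  refine ⟨Language.Formula.iSup φ, fun V G χ x y => ?_⟩
  unfold sat
  rw [@Language.Formula.realize_iSup (TL k K) (V × Fin k) (tstr G χ)]
  exact exists_congr fun i => hφ i V G χ x y

theorem Defb.iInter {I : Type} [Finite I]
    {P : I → ∀ V : Type, SimpleGraph V → (V × Fin k → K) → V × Fin k → V × Fin k → Prop}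
    (h : ∀ i, Defb k K (P i)) : Defb k K (fun V G χ x y => ∀ i, P i V G χ x y) := by
  choose φ hφ using h
  refine ⟨Language.Formula.iInf φ, fun V G χ x y => ?_⟩
  unfold sat
  rw [@Language.Formula.realize_iInf (TL k K) (V × Fin k) (tstr G χ)]
  exact forall_congr' fun i => hφ i V G χ x y

/-- A relation which depends only on the colours is definable (finitely many colours). -/
theorem Defb.ofCol [Finite K] (T : K → K → Prop) : Defb k K (fun _ _ χ x y => T (χ x) (χ y)) := by
  obtain ⟨φ, hφ⟩ := Defb.iUnion (k := k) (K := K) (I := {q : K × K // T q.1 q.2})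
    (P := fun q _ _ χ x y => χ x = q.1.1 ∧ χ y = q.1.2)
    fun q => Defb.and (Defb.colL q.1.1) (Defb.colR q.1.2)
  refine ⟨φ, fun V G χ x y => (hφ V G χ x y).trans ?_⟩
  constructor
  · rintro ⟨q, h1, h2⟩
    have := q.2
    rw [← h1, ← h2] at this
    exact this
  · intro h
    exact ⟨⟨(χ x, χ y), h⟩, rfl, rfl⟩

end Pool.Agent.Lib.MP_767201_co.SE
end

section

/-!
# TASK SE T0: orientation and transversals

Proof of `orient`. Induction on `E.card` (the hypothesis passes to subsets). `E = ∅`: take `∅, ∅`. `E` nonempty: the sum over the values `x` of `a` on `E` of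
`fib E a x` is `E.card` (`Finset.card_eq_sum_card_fiberwise` after conversion), the same for `b`. If all fibres of `a` and of `b` (over values on `E`) had more than `2t` elements then
`2 E.card > 2t (nim E a + nim E b) ≥ 2 E.card`. So there is a value `x` of `a` with `fib E a x ≤ 2t` (or a value `y` of `b` with `fib E b y ≤ 2t`). Let `E' = {e ∈ E | a e ≠ x}`, smaller; induction gives `E₁', E₂'`.
Take `E₁ = E₁' ∪ {e ∈ E | a e = x}`, `E₂ = E₂'`: the fibre of `a` over `x` in `E₁` is the fibre in `E`, of size at most `2t`, the fibres over other values are those of `E₁'`. Same for `b`.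

Proof of `transversal₁`: choose one element of each fibre; `E.card = ∑ fib ≤ t * nim E a`.
Proof of `transversal₂`: take a maximal subset `E' ⊆ E` on which `a` and `b` are injective. Every `e ∈ E` has `a e = a e'` or `b e = b e'` for some `e' ∈ E'`; for each `e'` there are at most `t + t` such `e`.
`nim_mono`, `nim_le`: images of subsets, `Set.ncard_le_ncard`, `Set.ncard_image_le`.
-/

set_option autoImplicit false

namespace Pool.Agent.Lib.MP_767201_co.SE

variable {ε N₁ N₂ : Type}

open Classical in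
private theorem T0_nim (E : Finset ε) (a : ε → N₁) : nim E a = (E.image a).card := by
  unfold nim
  rw [← Finset.coe_image, Set.ncard_coe_finset]

open Classical in
private theorem T0_fib (E : Finset ε) (a : ε → N₁) (x : N₁) :
    fib E a x = (E.filter fun e => a e = x).card := by
  unfold fib
  rw [← Set.ncard_coe_finset, Finset.coe_filter]

theorem nim_mono {E E' : Finset ε} (h : E' ⊆ E) (a : ε → N₁) : nim E' a ≤ nim E a := by
  classical
  rw [T0_nim, T0_nim]
  exact Finset.card_le_card (Finset.image_subset_image h)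

theorem nim_le (E : Finset ε) (a : ε → N₁) : nim E a ≤ E.card := by
  classical
  rw [T0_nim]
  exact Finset.card_image_le

theorem fib_mono {E E' : Finset ε} (h : E' ⊆ E) (a : ε → N₁) (x : N₁) : fib E' a x ≤ fib E a x := by
  classical
  rw [T0_fib, T0_fib]
  exact Finset.card_le_card (Finset.filter_subset_filter _ h)

theorem nim_of_injOn {E : Finset ε} (a : ε → N₁) (h : Set.InjOn a E) : nim E a = E.card := by
  classical
  rw [T0_nim]
  exact Finset.card_image_of_injOn h

private theorem T0_lb (E : Finset ε) (a : ε → N₁) (n : ℕ) (h : ∀ x ∈ a '' (E : Set ε), n ≤ fib E a x) :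
    nim E a * n ≤ E.card := by
  classical
  rw [T0_nim, Finset.card_eq_sum_card_image a E, ← smul_eq_mul, ← Finset.sum_const]
  refine Finset.sum_le_sum ?_
  intro x hx
  rw [← T0_fib]
  refine h x ?_
  rw [← Finset.coe_image]
  exact hx

private theorem T0_step (E : Finset ε) (a : ε → N₁) (b : ε → N₂) (t : ℕ) (x : N₁) (hx : fib E a x ≤ 2 * t)
    (h : ∀ E' ⊆ E, E'.card ≤ t * (nim E' a + nim E' b)) (E₁ E₂ : Finset ε)
    (h1 : E₁ ⊆ E) (h2 : E₂ ⊆ E) (h0 : ∀ e ∈ E₁, a e ≠ x)
    (h3 : ∀ e ∈ E, a e ≠ x → e ∈ E₁ ∨ e ∈ E₂) (h4 : ∀ x, fib E₁ a x ≤ 2 * t)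
    (h5 : ∀ y, fib E₂ b y ≤ 2 * t) :
    ∃ E₁ E₂ : Finset ε, E₁ ⊆ E ∧ E₂ ⊆ E ∧ (∀ e ∈ E, e ∈ E₁ ∨ e ∈ E₂) ∧ (∀ x, fib E₁ a x ≤ 2 * t) ∧
      ∀ y, fib E₂ b y ≤ 2 * t := by
  classical
  refine ⟨E₁ ∪ E.filter fun e => a e = x, E₂, Finset.union_subset h1 (Finset.filter_subset _ _), h2, ?_, ?_, h5⟩
  · intro e he
    by_cases hex : a e = x
    · exact Or.inl (Finset.mem_union_right _ (Finset.mem_filter.2 ⟨he, hex⟩))
    · rcases h3 e he hex with h6 | h6
      · exact Or.inl (Finset.mem_union_left _ h6)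
      · exact Or.inr h6
  · intro x'
    by_cases hxx : x' = x
    · subst hxx
      refine le_trans (le_of_eq ?_) hx
      rw [T0_fib, T0_fib]
      congr 1
      ext e
      simp only [Finset.mem_filter, Finset.mem_union]
      constructor
      · rintro ⟨h6 | h6, h7⟩
        · exact absurd h7 (h0 e h6)
        · exact h6
      · intro h6
        exact ⟨Or.inr h6, h6.2⟩
    · refine le_trans (le_of_eq ?_) (h4 x')
      rw [T0_fib, T0_fib]
      congr 1
      ext e
      simp only [Finset.mem_filter, Finset.mem_union]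
      constructor
      · rintro ⟨h6 | h6, h7⟩
        · exact ⟨h6, h7⟩
        · exact absurd (h7.symm.trans h6.2) hxx
      · intro h6
        exact ⟨Or.inl h6.1, h6.2⟩

theorem orient (E : Finset ε) (a : ε → N₁) (b : ε → N₂) (t : ℕ)
    (h : ∀ E' ⊆ E, E'.card ≤ t * (nim E' a + nim E' b)) :
    ∃ E₁ E₂ : Finset ε, E₁ ⊆ E ∧ E₂ ⊆ E ∧ (∀ e ∈ E, e ∈ E₁ ∨ e ∈ E₂) ∧ (∀ x, fib E₁ a x ≤ 2 * t) ∧
      ∀ y, fib E₂ b y ≤ 2 * t := by
  classical
  revert h
  induction E using Finset.strongInduction with
  | H E ih =>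
    intro h
    by_cases hE : E = ∅
    · subst hE
      refine ⟨∅, ∅, Finset.Subset.refl _, Finset.Subset.refl _, fun e he => absurd he (Finset.notMem_empty e),
        fun x => ?_, fun y => ?_⟩
      · rw [T0_fib, Finset.filter_empty, Finset.card_empty]
        exact Nat.zero_le _
      · rw [T0_fib, Finset.filter_empty, Finset.card_empty]
        exact Nat.zero_le _
    · by_cases hA : ∃ x ∈ a '' (E : Set ε), fib E a x ≤ 2 * t
      · obtain ⟨x, ⟨e, he, hex⟩, hx⟩ := hA
        have hss : E.filter (fun e => a e ≠ x) ⊂ E :=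
          Finset.filter_ssubset.2 ⟨e, he, fun h => h hex⟩
        obtain ⟨E₁, E₂, g1, g2, g3, g4, g5⟩ := ih _ hss (fun E' hE' => h E' (hE'.trans hss.subset))
        exact T0_step E a b t x hx h E₁ E₂ (g1.trans hss.subset) (g2.trans hss.subset)
          (fun e he => (Finset.mem_filter.1 (g1 he)).2)
          (fun e he hex => g3 e (Finset.mem_filter.2 ⟨he, hex⟩)) g4 g5
      · by_cases hB : ∃ y ∈ b '' (E : Set ε), fib E b y ≤ 2 * t
        · obtain ⟨y, ⟨e, he, hey⟩, hy⟩ := hB
          have hss : E.filter (fun e => b e ≠ y) ⊂ E :=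
            Finset.filter_ssubset.2 ⟨e, he, fun h => h hey⟩
          obtain ⟨E₁, E₂, g1, g2, g3, g4, g5⟩ := ih _ hss (fun E' hE' => h E' (hE'.trans hss.subset))
          obtain ⟨F₁, F₂, f1, f2, f3, f4, f5⟩ := T0_step E b a t y hy
            (fun E' hE' => by rw [Nat.add_comm]; exact h E' hE') E₂ E₁
            (g2.trans hss.subset) (g1.trans hss.subset)
            (fun e he => (Finset.mem_filter.1 (g2 he)).2)
            (fun e he hey => (g3 e (Finset.mem_filter.2 ⟨he, hey⟩)).symm) g5 g4
          exact ⟨F₂, F₁, f2, f1, fun e he => (f3 e he).symm, f5, f4⟩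
        · exfalso
          have k1 := T0_lb E a (2 * t + 1) (fun x hx => by
            by_contra hc
            exact hA ⟨x, hx, by omega⟩)
          have k2 := T0_lb E b (2 * t + 1) (fun y hy => by
            by_contra hc
            exact hB ⟨y, hy, by omega⟩)
          have k3 := h E (Finset.Subset.refl _)
          have k4 : 0 < nim E a := by
            rw [T0_nim, Finset.card_pos]
            exact (Finset.nonempty_iff_ne_empty.2 hE).image a
          nlinarith

theorem card_le_of_fib (E : Finset ε) (a : ε → N₁) (t : ℕ) (h : ∀ x, fib E a x ≤ t) : E.card ≤ t * nim E a := by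
  classical
  rw [T0_nim, Finset.card_eq_sum_card_image a E, mul_comm, ← smul_eq_mul, ← Finset.sum_const]
  refine Finset.sum_le_sum ?_
  intro x _
  rw [← T0_fib]
  exact h x

theorem transversal₁ (E : Finset ε) (a : ε → N₁) (t : ℕ) (h : ∀ x, fib E a x ≤ t) :
    ∃ E' ⊆ E, Set.InjOn a (E' : Set ε) ∧ E.card ≤ t * E'.card := by
  classical
  revert h
  induction E using Finset.strongInduction with
  | H E ih =>
    intro h
    by_cases hE : E = ∅
    · subst hE
      exact ⟨∅, Finset.Subset.refl _, by simp, by simp⟩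
    · obtain ⟨e, he⟩ := Finset.nonempty_iff_ne_empty.2 hE
      have hss : E.filter (fun e' => a e' ≠ a e) ⊂ E := Finset.filter_ssubset.2 ⟨e, he, fun h => h rfl⟩
      obtain ⟨E', g1, g2, g3⟩ := ih _ hss (fun x => (fib_mono hss.subset a x).trans (h x))
      have hne : e ∉ E' := fun h1 => (Finset.mem_filter.1 (g1 h1)).2 rfl
      refine ⟨insert e E', Finset.insert_subset he (g1.trans hss.subset), ?_, ?_⟩
      · intro u hu v hv huv
        rw [Finset.mem_coe, Finset.mem_insert] at hu hv
        rcases hu with rfl | hu <;> rcases hv with rfl | hv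
        · rfl
        · exact absurd huv.symm (Finset.mem_filter.1 (g1 hv)).2
        · exact absurd huv (Finset.mem_filter.1 (g1 hu)).2
        · exact g2 hu hv huv
      · rw [Finset.card_insert_of_notMem hne]
        have h1 : E.card = (E.filter fun e' => a e' = a e).card + (E.filter fun e' => a e' ≠ a e).card :=
          (Finset.card_filter_add_card_filter_not _).symm
        have h2 := h (a e)
        rw [T0_fib] at h2
        rw [h1, mul_add, mul_one]
        omega

theorem transversal₂ (E : Finset ε) (a : ε → N₁) (b : ε → N₂) (t : ℕ) (ha : ∀ x, fib E a x ≤ t)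
    (hb : ∀ y, fib E b y ≤ t) :
    ∃ E' ⊆ E, Set.InjOn a (E' : Set ε) ∧ Set.InjOn b (E' : Set ε) ∧ E.card ≤ 2 * t * E'.card := by
  classical
  revert ha hb
  induction E using Finset.strongInduction with
  | H E ih =>
    intro ha hb
    by_cases hE : E = ∅
    · subst hE
      exact ⟨∅, Finset.Subset.refl _, by simp, by simp, by simp⟩
    · obtain ⟨e, he⟩ := Finset.nonempty_iff_ne_empty.2 hE
      have hss : E.filter (fun e' => a e' ≠ a e ∧ b e' ≠ b e) ⊂ E :=
        Finset.filter_ssubset.2 ⟨e, he, fun h => h.1 rfl⟩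
      obtain ⟨E', g1, g2, g2', g3⟩ := ih _ hss (fun x => (fib_mono hss.subset a x).trans (ha x))
        (fun x => (fib_mono hss.subset b x).trans (hb x))
      have hne : e ∉ E' := fun h1 => (Finset.mem_filter.1 (g1 h1)).2.1 rfl
      refine ⟨insert e E', Finset.insert_subset he (g1.trans hss.subset), ?_, ?_, ?_⟩
      · intro u hu v hv huv
        rw [Finset.mem_coe, Finset.mem_insert] at hu hv
        rcases hu with rfl | hu <;> rcases hv with rfl | hv
        · rfl
        · exact absurd huv.symm (Finset.mem_filter.1 (g1 hv)).2.1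
        · exact absurd huv (Finset.mem_filter.1 (g1 hu)).2.1
        · exact g2 hu hv huv
      · intro u hu v hv huv
        rw [Finset.mem_coe, Finset.mem_insert] at hu hv
        rcases hu with rfl | hu <;> rcases hv with rfl | hv
        · rfl
        · exact absurd huv.symm (Finset.mem_filter.1 (g1 hv)).2.2
        · exact absurd huv (Finset.mem_filter.1 (g1 hu)).2.2
        · exact g2' hu hv huv
      · rw [Finset.card_insert_of_notMem hne]
        have h1 : E ⊆ (E.filter fun e' => a e' = a e) ∪ ((E.filter fun e' => b e' = b e) ∪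
            E.filter fun e' => a e' ≠ a e ∧ b e' ≠ b e) := by
          intro u hu
          by_cases hua : a u = a e
          · exact Finset.mem_union_left _ (Finset.mem_filter.2 ⟨hu, hua⟩)
          · by_cases hub : b u = b e
            · exact Finset.mem_union_right _ (Finset.mem_union_left _ (Finset.mem_filter.2 ⟨hu, hub⟩))
            · exact Finset.mem_union_right _ (Finset.mem_union_right _ (Finset.mem_filter.2 ⟨hu, hua, hub⟩))
        have h2 := ha (a e)
        have h2' := hb (b e)
        rw [T0_fib] at h2 h2'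
        have h3 := (Finset.card_le_card h1).trans ((Finset.card_union_le _ _).trans
          (Nat.add_le_add_left (Finset.card_union_le _ _) _))
        rw [mul_add, mul_one]
        omega

end Pool.Agent.Lib.MP_767201_co.SE
end
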