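import Pool.Agent.Lib.MP_767201_co.Mg.G001

section

/-!
# TASK SE P1: a maximal set of frequent features

Proof. For a set `T` let `J T = {i ∈ I | T ⊆ F i}`. Call `T` good if `I.card ≤ n^T.card * (J T).card`. The empty set is good. For a good `T`: `J T` is nonempty (`I.card > 0`), so `T ⊆ F i` for some `i ∈ I` and `T.card ≤ s`. Choose a good `T` of maximal cardinality, `J = J T`.
`I.card ≤ n^T.card * J.card ≤ n^s * J.card`. For `b ∉ T`: `insert b T` is not good: `n^(T.card+1) * (J (insert b T)).card < I.card ≤ n^T.card * J.card`, so `n * (J (insert b T)).card < J.card`, and `J (insert b T) = J.filter (b ∈ F i)`.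
-/

set_option autoImplicit false

namespace Pool.Agent.Lib.MP_767201_co.SE

theorem maxT {ι φ : Type} [DecidableEq φ] (I : Finset ι) (hI : I.Nonempty) (F : ι → Finset φ) (s n : ℕ) (hn : 1 ≤ n)
    (hs : ∀ i ∈ I, (F i).card ≤ s) :
    ∃ (T : Finset φ) (J : Finset ι), J ⊆ I ∧ J.Nonempty ∧ (∀ i ∈ J, T ⊆ F i) ∧ (∀ i ∈ I, T ⊆ F i → i ∈ J) ∧
      I.card ≤ n ^ s * J.card ∧ ∀ b, b ∉ T → n * (J.filter (fun i => b ∈ F i)).card < J.card := by
  classical
  have hI0 : 0 < I.card := Finset.card_pos.2 hI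
  have hgood : ∀ T : Finset φ, I.card ≤ n ^ T.card * (I.filter fun i => T ⊆ F i).card →
      (I.filter fun i => T ⊆ F i).Nonempty ∧ T.card ≤ s := by
    intro T hT
    have h1 : 0 < (I.filter fun i => T ⊆ F i).card := by
      rcases Nat.eq_zero_or_pos (I.filter fun i => T ⊆ F i).card with h | h
      · rw [h, Nat.mul_zero] at hT
        omega
      · exact h
    obtain ⟨i, hi⟩ := Finset.card_pos.1 h1
    obtain ⟨hi1, hi2⟩ := Finset.mem_filter.1 hi
    exact ⟨⟨i, hi⟩, (Finset.card_le_card hi2).trans (hs i hi1)⟩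
  have hP0 : ∃ T : Finset φ, T.card = 0 ∧ I.card ≤ n ^ T.card * (I.filter fun i => T ⊆ F i).card := by
    refine ⟨∅, Finset.card_empty, ?_⟩
    rw [Finset.card_empty, pow_zero, one_mul, Finset.filter_true_of_mem (fun i _ => Finset.empty_subset _)]
  obtain ⟨T, hT1, hT2⟩ := Nat.findGreatest_spec (P := fun j => ∃ T : Finset φ, T.card = j ∧
    I.card ≤ n ^ T.card * (I.filter fun i => T ⊆ F i).card) (Nat.zero_le s) hP0
  obtain ⟨hne, hTs⟩ := hgood T hT2
  refine ⟨T, I.filter fun i => T ⊆ F i, Finset.filter_subset _ _, hne, fun i hi => (Finset.mem_filter.1 hi).2,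
    fun i h1 h2 => Finset.mem_filter.2 ⟨h1, h2⟩, ?_, ?_⟩
  · exact hT2.trans (Nat.mul_le_mul_right _ (Nat.pow_le_pow_right hn hTs))
  · intro b hb
    have h1 : (I.filter fun i => T ⊆ F i).filter (fun i => b ∈ F i) = I.filter fun i => insert b T ⊆ F i := by
      ext i
      simp only [Finset.mem_filter, Finset.insert_subset_iff]
      tauto
    rw [h1]
    by_contra hcon
    have h2 : I.card ≤ n ^ (insert b T).card * (I.filter fun i => insert b T ⊆ F i).card := by
      rw [Finset.card_insert_of_notMem hb, pow_succ, mul_assoc]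
      exact hT2.trans (Nat.mul_le_mul_left _ (not_lt.1 hcon))
    have h3 := (hgood _ h2).2
    rw [Finset.card_insert_of_notMem hb] at h3
    refine Nat.findGreatest_is_greatest (P := fun j => ∃ T : Finset φ, T.card = j ∧
      I.card ≤ n ^ T.card * (I.filter fun i => T ⊆ F i).card) (n := s) (k := T.card + 1) ?_ h3
      ⟨insert b T, Finset.card_insert_of_notMem hb, h2⟩
    rw [← hT1]
    exact Nat.lt_succ_self _

end Pool.Agent.Lib.MP_767201_co.SE
end

section

/-!
# TASK SE P2: the probe lemma; fibrewise selection; probes at both ends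

Proof of `probe`. `maxT` for `I`, `φ = Γ ⊕ V` (classical decidability), `F e = {g' ∈ A (x e) | g' ≠ g, len g ≤ len g'} ⊕ {x e}` (`Finset.disjSum`), `s = K + 1`, `n = 2K + 2`: `T`, `J`. Take `e₀ ∈ J` and (`wit`) `y` with `(RG A len g).Adj (x e₀) y`.
`Gy = {g' ∈ A y | g' ≠ g, len g ≤ len g'} ⊕ {y}`, at most `K + 1` elements. `F e₀ ∩ Gy = ∅` (definition of `RG`). `e ∈ J` is bad if not `(RG A len g).Adj (x e) y`: as `g ∈ A (x e)`, `g ∈ A y`, this means that `x e = y` or there is a common `g' ≠ g` with `len g ≤ len g'`, i.e. some `b ∈ F e ∩ Gy`; `b ∉ T`, since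
`T ⊆ F e₀`. So the number of bad `e` is at most the sum over `b ∈ Gy \ T` of `(J.filter (b ∈ F e)).card`, and `(2K+2)` times this is at most `(K+1) J.card`. So at least half of `J` is good (`I'`): `I.card ≤ (2K+2)^(K+1) J.card ≤ 2 (2K+2)^(K+1) I'.card`.

Proof of `fibrewise`. For each value `c` of `zz` on `E` apply `h` to the fibre; `Yf c` and `I'(c)`; `E'` = union of the `I'(c)` = `{e ∈ E | e ∈ I'(zz e)}`; `E.card = ∑ fibre cardinalities`.

Proof of `probes`. `fibrewise` with `zz = z 0`, `Good y e := (RG A len (z 0 e)).Adj (v 0 e) y` (on a fibre `z 0 e = g` is constant, `g ∈ A (v 0 e)` by `memL`, `m ≥ 1`; `probe` with `x = v 0`), then `fibrewise` for the result with `zz = z m`, `x = v (m-1)` (`memR` at `m - 1`).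
-/

set_option autoImplicit false

namespace Pool.Agent.Lib.MP_767201_co.SE

variable {V Γ ε : Type}

/-- The constant of the probe lemma. -/
def cpr (K : ℕ) : ℕ := 2 * (2 * K + 2) ^ (K + 1)

theorem probe {K k D : ℕ} {Q : V → V → Prop} {A : V → Finset Γ} {len : Γ → ℕ} {par : Γ → Γ}
    (h : LSok K k D Q A len par) (g : Γ) (I : Finset ε) (hI : I.Nonempty) (x : ε → V) (hx : ∀ e ∈ I, g ∈ A (x e)) :
    ∃ y, ∃ I' ⊆ I, I.card ≤ cpr K * I'.card ∧ ∀ e ∈ I', (RG A len g).Adj (x e) y := by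
  classical
  set F : ε → Finset (Γ ⊕ V) := fun e =>
    Finset.disjSum ((A (x e)).filter (fun g' => g' ≠ g ∧ len g ≤ len g')) ({x e} : Finset V) with hF
  have hs : ∀ i ∈ I, (F i).card ≤ K + 1 := by
    intro i _
    rw [hF]
    simp only [Finset.card_disjSum, Finset.card_singleton]
    have h1 := Finset.card_filter_le (A (x i)) (fun g' => g' ≠ g ∧ len g ≤ len g')
    have h2 := h.card (x i)
    omega
  obtain ⟨T, J, hJI, hJn, hTJ, _, hIJ, hT⟩ := maxT I hI F (K + 1) (2 * K + 2) (by omega) hs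
  obtain ⟨e0, he0⟩ := hJn
  obtain ⟨y, hy⟩ := h.wit (x e0) g (hx e0 (hJI he0))
  have hy' : x e0 ≠ y ∧ g ∈ A (x e0) ∧ g ∈ A y ∧
    ∀ g' ∈ A (x e0), g' ∈ A y → g' ≠ g → len g' < len g := hy
  set Gy : Finset (Γ ⊕ V) :=
    Finset.disjSum ((A y).filter (fun g' => g' ≠ g ∧ len g ≤ len g')) ({y} : Finset V) with hGy
  have hGc : Gy.card ≤ K + 1 := by
    rw [hGy]
    simp only [Finset.card_disjSum, Finset.card_singleton]
    have h1 := Finset.card_filter_le (A y) (fun g' => g' ≠ g ∧ len g ≤ len g')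
    have h2 := h.card y
    omega
  have hdis : ∀ b ∈ Gy, b ∉ T := by
    intro b hb hbT
    have hbF : b ∈ F e0 := hTJ e0 he0 hbT
    rcases b with g' | v
    · have h1 : g' ∈ (A y).filter (fun g' => g' ≠ g ∧ len g ≤ len g') := by
        simpa [hGy] using hb
      have h2 : g' ∈ (A (x e0)).filter (fun g' => g' ≠ g ∧ len g ≤ len g') := by
        simpa [hF] using hbF
      rw [Finset.mem_filter] at h1 h2
      have := hy'.2.2.2 g' h2.1 h1.1 h1.2.1
      omega
    · have h1 : v = y := by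
        simpa [hGy] using hb
      have h2 : v = x e0 := by
        simpa [hF] using hbF
      exact hy'.1 (h2.symm.trans h1)
  refine ⟨y, J.filter (fun e => (RG A len g).Adj (x e) y), (Finset.filter_subset _ _).trans hJI, ?_, ?_⟩
  · have hbad : J.filter (fun e => ¬ (RG A len g).Adj (x e) y) ⊆
        Gy.biUnion (fun b => J.filter (fun e => b ∈ F e)) := by
      intro e he
      rw [Finset.mem_filter] at he
      obtain ⟨heJ, hne⟩ := he
      rw [Finset.mem_biUnion]
      by_cases hxy : x e = y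
      · refine ⟨Sum.inr y, by simp [hGy], ?_⟩
        rw [Finset.mem_filter]
        exact ⟨heJ, by simp [hF, hxy]⟩
      · have : ∃ g' ∈ A (x e), g' ∈ A y ∧ g' ≠ g ∧ len g ≤ len g' := by
          by_contra hcon
          push Not at hcon
          exact hne ⟨hxy, hx e (hJI heJ), hy'.2.2.1, fun g' h1 h2 h3 => hcon g' h1 h2 h3⟩
        obtain ⟨g', h1, h2, h3, h4⟩ := this
        refine ⟨Sum.inl g', ?_, ?_⟩
        · rw [hGy, Finset.inl_mem_disjSum, Finset.mem_filter]
          exact ⟨h2, h3, h4⟩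
        · rw [Finset.mem_filter]
          refine ⟨heJ, ?_⟩
          rw [hF]
          simp only [Finset.inl_mem_disjSum, Finset.mem_filter]
          exact ⟨h1, h3, h4⟩
    have hb1 : (J.filter (fun e => ¬ (RG A len g).Adj (x e) y)).card ≤
        ∑ b ∈ Gy, (J.filter (fun e => b ∈ F e)).card :=
      (Finset.card_le_card hbad).trans Finset.card_biUnion_le
    have hb2 : (2 * K + 2) * ∑ b ∈ Gy, (J.filter (fun e => b ∈ F e)).card ≤ (K + 1) * J.card := by
      rw [Finset.mul_sum]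
      calc ∑ b ∈ Gy, (2 * K + 2) * (J.filter (fun e => b ∈ F e)).card
          ≤ ∑ b ∈ Gy, J.card := Finset.sum_le_sum fun b hb => (hT b (hdis b hb)).le
        _ = Gy.card * J.card := by rw [Finset.sum_const, smul_eq_mul]
        _ ≤ (K + 1) * J.card := Nat.mul_le_mul_right _ hGc
    have hb3 : 2 * (J.filter (fun e => ¬ (RG A len g).Adj (x e) y)).card ≤ J.card := by
      have h1 : (K + 1) * (2 * (J.filter (fun e => ¬ (RG A len g).Adj (x e) y)).card) ≤
          (K + 1) * J.card := by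
        calc (K + 1) * (2 * (J.filter (fun e => ¬ (RG A len g).Adj (x e) y)).card)
            = (2 * K + 2) * (J.filter (fun e => ¬ (RG A len g).Adj (x e) y)).card := by ring
          _ ≤ (2 * K + 2) * ∑ b ∈ Gy, (J.filter (fun e => b ∈ F e)).card :=
            Nat.mul_le_mul_left _ hb1
          _ ≤ _ := hb2
      exact Nat.le_of_mul_le_mul_left h1 (Nat.succ_pos K)
    have hsum := Finset.card_filter_add_card_filter_not (s := J)
      (fun e => (RG A len g).Adj (x e) y)
    have hb4 : J.card ≤ 2 * (J.filter (fun e => (RG A len g).Adj (x e) y)).card := by omega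
    calc I.card ≤ (2 * K + 2) ^ (K + 1) * J.card := hIJ
      _ ≤ (2 * K + 2) ^ (K + 1) * (2 * (J.filter (fun e => (RG A len g).Adj (x e) y)).card) :=
        Nat.mul_le_mul_left _ hb4
      _ = cpr K * (J.filter (fun e => (RG A len g).Adj (x e) y)).card := by
        rw [cpr]; ring
  · intro e he
    exact (Finset.mem_filter.mp he).2

theorem fibrewise {N Y : Type} [Nonempty Y] (E : Finset ε) (zz : ε → N) (Good : Y → ε → Prop) (n : ℕ)
    (h : ∀ I ⊆ E, I.Nonempty → (∀ e ∈ I, ∀ e' ∈ I, zz e = zz e') →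
      ∃ y, ∃ I' ⊆ I, I.card ≤ n * I'.card ∧ ∀ e ∈ I', Good y e) :
    ∃ Yf : N → Y, ∃ E' ⊆ E, E.card ≤ n * E'.card ∧ ∀ e ∈ E', Good (Yf (zz e)) e := by
  classical
  have hc : ∀ c : N, ∃ y : Y, ∃ I' ⊆ E.filter (fun e => zz e = c),
      (E.filter (fun e => zz e = c)).card ≤ n * I'.card ∧ ∀ e ∈ I', Good y e := by
    intro c
    by_cases hne : (E.filter (fun e => zz e = c)).Nonempty
    · exact h _ (Finset.filter_subset _ _) hne (fun e he e' he' => by
        rw [(Finset.mem_filter.mp he).2, (Finset.mem_filter.mp he').2])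
    · rw [Finset.not_nonempty_iff_eq_empty] at hne
      exact ⟨Classical.arbitrary Y, ∅, Finset.empty_subset _, by rw [hne]; simp, by simp⟩
  choose Yf I' hsub hcard hgood using hc
  refine ⟨Yf, E.filter (fun e => e ∈ I' (zz e)), Finset.filter_subset _ _, ?_, ?_⟩
  · have h1 : E.card = ∑ c ∈ E.image zz, (E.filter (fun e => zz e = c)).card :=
      Finset.card_eq_sum_card_image zz E
    have h2 : (E.filter (fun e => e ∈ I' (zz e))).card =
        ∑ c ∈ E.image zz, ((E.filter (fun e => e ∈ I' (zz e))).filter (fun e => zz e = c)).card :=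
      Finset.card_eq_sum_card_fiberwise (fun e he =>
        Finset.mem_image_of_mem zz (Finset.filter_subset _ _ he))
    have h3 : ∀ c, (E.filter (fun e => e ∈ I' (zz e))).filter (fun e => zz e = c) = I' c := by
      intro c
      ext e
      rw [Finset.mem_filter, Finset.mem_filter]
      constructor
      · rintro ⟨⟨_, h5⟩, h6⟩
        rw [← h6]; exact h5
      · intro he
        have h7 := Finset.mem_filter.mp (hsub c he)
        exact ⟨⟨h7.1, by rw [h7.2]; exact he⟩, h7.2⟩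
    rw [h1, h2, Finset.mul_sum]
    exact Finset.sum_le_sum fun c _ => by rw [h3 c]; exact hcard c
  · intro e he
    exact hgood (zz e) e (Finset.mem_filter.mp he).2

theorem probes {K k D : ℕ} {Q : V → V → Prop} {A : V → Finset Γ} {len : Γ → ℕ} {par : Γ → Γ}
    (h : LSok K k D Q A len par) {m : ℕ} {l : ℕ → ℕ} {E : Finset ε} {z : ℕ → ε → Γ} {v : ℕ → ε → V}
    (hL : LPS A len m l E z v) (hE : E.Nonempty) :
    ∃ (yl yr : Γ → V), ∃ E' ⊆ E, E.card ≤ cpr K * cpr K * E'.card ∧
      ∀ e ∈ E', (RG A len (z 0 e)).Adj (v 0 e) (yl (z 0 e)) ∧ (RG A len (z m e)).Adj (v (m - 1) e) (yr (z m e)) := by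
  classical
  have hm := hL.pos
  obtain ⟨e1, he1⟩ := hE
  have : Nonempty V := ⟨v 0 e1⟩
  obtain ⟨yl, E1, hE1, hc1, hg1⟩ := fibrewise E (z 0) (fun y e => (RG A len (z 0 e)).Adj (v 0 e) y)
    (cpr K) (by
      intro I hIE hIn hcon
      obtain ⟨e0, he0⟩ := hIn
      obtain ⟨y, I', hI', hc', hg'⟩ := probe h (z 0 e0) I ⟨e0, he0⟩ (v 0) (fun e he => by
        rw [← hcon e he e0 he0]
        exact hL.memL 0 (by omega) e (hIE he))
      refine ⟨y, I', hI', hc', fun e he => ?_⟩
      have := hg' e he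
      rw [← hcon e (hI' he) e0 he0] at this
      exact this)
  obtain ⟨yr, E2, hE2, hc2, hg2⟩ := fibrewise E1 (z m)
    (fun y e => (RG A len (z m e)).Adj (v (m - 1) e) y)
    (cpr K) (by
      intro I hIE hIn hcon
      obtain ⟨e0, he0⟩ := hIn
      obtain ⟨y, I', hI', hc', hg'⟩ := probe h (z m e0) I ⟨e0, he0⟩ (v (m - 1)) (fun e he => by
        rw [← hcon e he e0 he0]
        have h5 := hL.memR (m - 1) (by omega) e (hE1 (hIE he))
        rw [Nat.sub_add_cancel hm] at h5
        exact h5)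
      refine ⟨y, I', hI', hc', fun e he => ?_⟩
      have := hg' e he
      rw [← hcon e (hI' he) e0 he0] at this
      exact this)
  refine ⟨yl, yr, E2, hE2.trans hE1, ?_, fun e he => ⟨hg1 e (hE2 he), hg2 e he⟩⟩
  calc E.card ≤ cpr K * E1.card := hc1
    _ ≤ cpr K * (cpr K * E2.card) := Nat.mul_le_mul_left _ hc2
    _ = cpr K * cpr K * E2.card := by ring

end Pool.Agent.Lib.MP_767201_co.SE
end

section

/-!
# TASK SE S1: stability

Proof of `ladder_sets`. `maxT` with `ι = Fin n`, `I = univ` (`n ≥ 3`), `φ = ℕ × Bool`, `F i = S i × {true} ∪ T i × {false}` (at most `2k` elements), `s = 2k`, the number `8k + 8`: `T₀`, `J`. `n ≤ (8k+8)^(2k) * J.card`, so `J.card ≥ 3`. `Ta = {u | (u, true) ∈ T₀}`, `Tb = {u | (u, false) ∈ T₀}`, `W = Ta ∩ Tb`. For `i ∈ J`: `Ta ⊆ S i`, `Tb ⊆ T i`, so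
`W ⊆ S i ∩ T j` for `i, j ∈ J`. `Tb.card ≤ k` (contained in `T i`).
 `i ∈ J` is good if `S i ∩ Tb ⊆ Ta`. Not good: some `u ∈ Tb`, `u ∉ Ta`, `u ∈ S i`: `(u, true) ∉ T₀` is a feature of `i`; so the number of not good `i` is at most `k * J.card / (8k+8) < J.card / 8`: `8 * (number) < J.card` or so.
 For a good `i ∈ J` the number of `j ∈ J` with `S i ∩ T j ≠ W`: there is `u ∈ S i ∩ T j`, `u ∉ W`; `u ∉ Tb` (otherwise `u ∈ Ta` as `i` is good, so `u ∈ W`), so `(u, false) ∉ T₀` is a feature of `j`; for each of the at most `k` elements `u` of `S i` there are less than `J.card/(8k+8)` such `j`: again `8 * (number) < J.card`.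
 Let `q = J.card / 3 ≥ 1` (natural division). The `q` smallest elements of `J`: `J₁`; the `q` largest: `J₃`; every element of `J₁` is smaller than every element of `J₃` (`2q ≤ J.card - 1` or the sets are disjoint with an ordering: `J₁` all below `J₃`). `8 * bad < J.card ≤ 3q + 2 ≤ 5q`, so `bad < q`: there is a good `i ∈ J₁` and then a `j ∈ J₃` with
 `S i ∩ T j = W`; and a good `i' ∈ J₃`, `j' ∈ J₁` with `S i' ∩ T j' = W`. (`J.orderEmbOfFin` gives the sorted enumeration.)

Proof of `stable_of_labelDet`. `n := 3 * (8k+8)^(2k)`. A ladder `a, b : Fin n → G.V`; `S`, `f` from `LabelDet`. `ladder_sets` for `i ↦ S (a i)`, `j ↦ S (b j)`: `i < j` gives `Adj (a i) (b j)`, so `f (S (a i) ∩ S (b j))`; `j' < i'` gives `¬ Adj (a i') (b j')`, so `¬ f` of the same set (`a i ≠ b j`). Contradiction.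
-/

set_option autoImplicit false

namespace Pool.Agent.Lib.MP_767201_co.SE

private theorem S1_union {ι φ : Type} [DecidableEq ι] [DecidableEq φ] (J : Finset ι) (hJ : J.Nonempty)
    (F : ι → Finset φ) (k : ℕ) (A : Finset φ) (hA : A.card ≤ k)
    (h : ∀ b ∈ A, (8 * k + 8) * (J.filter (fun i => b ∈ F i)).card < J.card)
    (B : Finset ι) (hB : B ⊆ J) (hB' : ∀ i ∈ B, ∃ b ∈ A, b ∈ F i) : 8 * B.card < J.card := by
  have h1 : B ⊆ A.biUnion (fun b => J.filter (fun i => b ∈ F i)) := by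
    intro i hi
    obtain ⟨b, hb, hbi⟩ := hB' i hi
    exact Finset.mem_biUnion.mpr ⟨b, hb, Finset.mem_filter.mpr ⟨hB hi, hbi⟩⟩
  have h2 : B.card ≤ ∑ b ∈ A, (J.filter (fun i => b ∈ F i)).card :=
    (Finset.card_le_card h1).trans Finset.card_biUnion_le
  have h3 : (8 * k + 8) * B.card ≤ k * J.card := by
    calc (8 * k + 8) * B.card ≤ (8 * k + 8) * ∑ b ∈ A, (J.filter (fun i => b ∈ F i)).card :=
          Nat.mul_le_mul_left _ h2
      _ = ∑ b ∈ A, (8 * k + 8) * (J.filter (fun i => b ∈ F i)).card := by rw [Finset.mul_sum]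
      _ ≤ ∑ b ∈ A, J.card := Finset.sum_le_sum (fun b hb => (h b hb).le)
      _ = A.card * J.card := by rw [Finset.sum_const, smul_eq_mul]
      _ ≤ k * J.card := Nat.mul_le_mul_right _ hA
  have hJ0 : 0 < J.card := Finset.card_pos.mpr hJ
  have h4 : (k + 1) * (8 * B.card) < (k + 1) * J.card := by nlinarith
  exact lt_of_mul_lt_mul_left h4 (Nat.zero_le _)

private theorem S1_split {n : ℕ} (J : Finset (Fin n)) (q : ℕ) (hq : 2 * q ≤ J.card) :
    ∃ J1 J3 : Finset (Fin n), J1 ⊆ J ∧ J3 ⊆ J ∧ J1.card = q ∧ J3.card = q ∧ ∀ i ∈ J1, ∀ j ∈ J3, i < j := by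
  let e := J.orderEmbOfFin rfl
  let f1 : Fin q → Fin n := fun x => e ⟨x.val, by have := x.isLt; omega⟩
  let f3 : Fin q → Fin n := fun x => e ⟨x.val + (J.card - q), by have := x.isLt; omega⟩
  have hf1 : Function.Injective f1 := by
    intro x y hxy
    have h1 := e.injective hxy
    have h2 := congrArg Fin.val h1
    exact Fin.ext h2
  have hf3 : Function.Injective f3 := by
    intro x y hxy
    have h1 := e.injective hxy
    have h2 : x.val + (J.card - q) = y.val + (J.card - q) := congrArg Fin.val h1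
    exact Fin.ext (by omega)
  refine ⟨Finset.univ.image f1, Finset.univ.image f3, ?_, ?_, ?_, ?_, ?_⟩
  · intro i hi
    obtain ⟨x, -, rfl⟩ := Finset.mem_image.mp hi
    exact Finset.orderEmbOfFin_mem J rfl _
  · intro i hi
    obtain ⟨x, -, rfl⟩ := Finset.mem_image.mp hi
    exact Finset.orderEmbOfFin_mem J rfl _
  · rw [Finset.card_image_of_injective _ hf1, Finset.card_univ, Fintype.card_fin]
  · rw [Finset.card_image_of_injective _ hf3, Finset.card_univ, Fintype.card_fin]
  · intro i hi j hj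
    obtain ⟨x, -, rfl⟩ := Finset.mem_image.mp hi
    obtain ⟨y, -, rfl⟩ := Finset.mem_image.mp hj
    apply e.strictMono
    have hx := x.isLt
    rw [Fin.lt_def]
    show x.val < y.val + (J.card - q)
    omega

private theorem S1_pick {ι : Type} [DecidableEq ι] (J J1 B : Finset ι) (q : ℕ) (h1 : J1 ⊆ J) (hc : J1.card = q)
    (hq : J.card ≤ 5 * q) (hB : 8 * B.card < J.card) : ∃ i ∈ J1, i ∉ B := by
  by_contra hcon
  push Not at hcon
  have h2 : J1 ⊆ B := fun i hi => hcon i hi
  have h3 := Finset.card_le_card h2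
  omega

theorem ladder_sets (k n : ℕ) (S T : Fin n → Finset ℕ) (hS : ∀ i, (S i).card ≤ k) (hT : ∀ i, (T i).card ≤ k)
    (hn : 3 * (8 * k + 8) ^ (2 * k) ≤ n) :
    ∃ i j i' j' : Fin n, i < j ∧ j' < i' ∧ S i ∩ T j = S i' ∩ T j' := by
  classical
  have hpos : 0 < (8 * k + 8) ^ (2 * k) := Nat.pow_pos (by omega)
  have hn3 : 3 ≤ n := by omega
  let F : Fin n → Finset (ℕ × Bool) := fun i => (S i).image (fun u => (u, true)) ∪ (T i).image (fun u => (u, false))
  have hFt : ∀ i u, (u, true) ∈ F i ↔ u ∈ S i := by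
    intro i u
    simp [F]
  have hFf : ∀ i u, (u, false) ∈ F i ↔ u ∈ T i := by
    intro i u
    simp [F]
  have hFc : ∀ i ∈ (Finset.univ : Finset (Fin n)), (F i).card ≤ 2 * k := by
    intro i _
    have h1 := Finset.card_union_le ((S i).image (fun u => (u, true))) ((T i).image (fun u => (u, false)))
    have h2 : ((S i).image (fun u => (u, true))).card ≤ k := Finset.card_image_le.trans (hS i)
    have h3 : ((T i).image (fun u => (u, false))).card ≤ k := Finset.card_image_le.trans (hT i)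
    show (((S i).image (fun u => (u, true))) ∪ ((T i).image (fun u => (u, false)))).card ≤ 2 * k
    omega
  obtain ⟨T₀, J, -, hJne, hJT, -, hJc, hJb⟩ := maxT (Finset.univ : Finset (Fin n))
    ⟨⟨0, by omega⟩, Finset.mem_univ _⟩ F (2 * k) (8 * k + 8) (by omega) hFc
  rw [Finset.card_univ, Fintype.card_fin] at hJc
  have hJ3 : 3 ≤ J.card := by
    have h1 : (8 * k + 8) ^ (2 * k) * 3 ≤ (8 * k + 8) ^ (2 * k) * J.card := by omega
    exact Nat.le_of_mul_le_mul_left h1 hpos
  -- the common part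
  let Ta : Finset ℕ := (T₀.filter (fun p => p.2 = true)).image Prod.fst
  let Tb : Finset ℕ := (T₀.filter (fun p => p.2 = false)).image Prod.fst
  have hTa : ∀ u, u ∈ Ta ↔ (u, true) ∈ T₀ := by
    intro u
    simp [Ta]
  have hTb : ∀ u, u ∈ Tb ↔ (u, false) ∈ T₀ := by
    intro u
    simp [Tb]
  have hTaS : ∀ i ∈ J, Ta ⊆ S i := fun i hi u hu => (hFt i u).mp (hJT i hi ((hTa u).mp hu))
  have hTbT : ∀ i ∈ J, Tb ⊆ T i := fun i hi u hu => (hFf i u).mp (hJT i hi ((hTb u).mp hu))
  obtain ⟨i₀, hi₀⟩ := hJne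
  have hTbc : Tb.card ≤ k := (Finset.card_le_card (hTbT i₀ hi₀)).trans (hT i₀)
  -- the elements which are not good
  let B : Finset (Fin n) := J.filter (fun i => ¬ S i ∩ Tb ⊆ Ta)
  have hB : 8 * B.card < J.card := by
    refine S1_union J ⟨i₀, hi₀⟩ F k ((Tb \ Ta).image (fun u => (u, true))) ?_ ?_ B (Finset.filter_subset _ _) ?_
    · exact Finset.card_image_le.trans ((Finset.card_le_card Finset.sdiff_subset).trans hTbc)
    · intro b hb
      obtain ⟨u, hu, rfl⟩ := Finset.mem_image.mp hb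
      apply hJb
      intro hcon
      exact (Finset.mem_sdiff.mp hu).2 ((hTa u).mpr hcon)
    · intro i hi
      have h1 := (Finset.mem_filter.mp hi).2
      rw [Finset.not_subset] at h1
      obtain ⟨u, hu, hua⟩ := h1
      rw [Finset.mem_inter] at hu
      exact ⟨(u, true), Finset.mem_image.mpr ⟨u, Finset.mem_sdiff.mpr ⟨hu.2, hua⟩, rfl⟩, (hFt i u).mpr hu.1⟩
  -- the partners of a good element
  have hgood : ∀ i ∈ J, i ∉ B → 8 * (J.filter (fun j => S i ∩ T j ≠ Ta ∩ Tb)).card < J.card := by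
    intro i hi hiB
    have hig : S i ∩ Tb ⊆ Ta := by
      by_contra hcon
      exact hiB (Finset.mem_filter.mpr ⟨hi, hcon⟩)
    refine S1_union J ⟨i₀, hi₀⟩ F k ((S i \ Tb).image (fun u => (u, false))) ?_ ?_ _ (Finset.filter_subset _ _) ?_
    · exact Finset.card_image_le.trans ((Finset.card_le_card Finset.sdiff_subset).trans (hS i))
    · intro b hb
      obtain ⟨u, hu, rfl⟩ := Finset.mem_image.mp hb
      apply hJb
      intro hcon
      exact (Finset.mem_sdiff.mp hu).2 ((hTb u).mpr hcon)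
    · intro j hj
      obtain ⟨hjJ, hne⟩ := Finset.mem_filter.mp hj
      have hsub : Ta ∩ Tb ⊆ S i ∩ T j := Finset.inter_subset_inter (hTaS i hi) (hTbT j hjJ)
      have hnot : ¬ S i ∩ T j ⊆ Ta ∩ Tb := fun hcon => hne (Finset.Subset.antisymm hcon hsub)
      rw [Finset.not_subset] at hnot
      obtain ⟨u, hu, huW⟩ := hnot
      rw [Finset.mem_inter] at hu
      have huTb : u ∉ Tb := by
        intro hcon
        exact huW (Finset.mem_inter.mpr ⟨hig (Finset.mem_inter.mpr ⟨hu.1, hcon⟩), hcon⟩)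
      exact ⟨(u, false), Finset.mem_image.mpr ⟨u, Finset.mem_sdiff.mpr ⟨hu.1, huTb⟩, rfl⟩, (hFf j u).mpr hu.2⟩
  -- the ends
  obtain ⟨J1, J3, h1J, h3J, hc1, hc3, hlt⟩ := S1_split J (J.card / 3) (by omega)
  have h5 : J.card ≤ 5 * (J.card / 3) := by omega
  obtain ⟨i, hi1, hiB⟩ := S1_pick J J1 B _ h1J hc1 h5 hB
  obtain ⟨j, hj3, hjB⟩ := S1_pick J J3 _ _ h3J hc3 h5 (hgood i (h1J hi1) hiB)
  obtain ⟨i', hi3, hi'B⟩ := S1_pick J J3 B _ h3J hc3 h5 hB
  obtain ⟨j', hj1, hj'B⟩ := S1_pick J J1 _ _ h1J hc1 h5 (hgood i' (h3J hi3) hi'B)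
  have e1 : S i ∩ T j = Ta ∩ Tb := by
    by_contra hcon
    exact hjB (Finset.mem_filter.mpr ⟨h3J hj3, hcon⟩)
  have e2 : S i' ∩ T j' = Ta ∩ Tb := by
    by_contra hcon
    exact hj'B (Finset.mem_filter.mpr ⟨h1J hj1, hcon⟩)
  exact ⟨i, j, i', j', hlt i hi1 j hj3, hlt j' hj1 i' hi3, e1.trans e2.symm⟩

theorem stable_of_labelDet (k : ℕ) (C : Set FG) (h : ∀ G ∈ C, LabelDet k G) : Stable C := by
  refine ⟨3 * (8 * k + 8) ^ (2 * k), ?_⟩
  rintro G hG ⟨a, b, -, -, hab, hadj⟩
  obtain ⟨S, f, hS, hf⟩ := h G hG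
  obtain ⟨i, j, i', j', hij, hji, heq⟩ := ladder_sets k _ (fun i => S (a i)) (fun j => S (b j))
    (fun i => hS _) (fun j => hS _) le_rfl
  have h1 : f (S (a i) ∩ S (b j)) := (hf _ _ (hab i j)).mp ((hadj i j).mpr hij.le)
  have h2 : ¬ f (S (a i') ∩ S (b j')) := by
    intro hcon
    have h3 := (hadj i' j').mp ((hf _ _ (hab i' j')).mpr hcon)
    exact absurd hji (not_lt.mpr h3)
  have heq' : S (a i) ∩ S (b j) = S (a i') ∩ S (b j') := heq
  rw [heq'] at h1
  exact h2 h1

end Pool.Agent.Lib.MP_767201_co.SE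
end
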