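import Pool.Agent.Lib.MP_767201_co.Mg.G004
import Pool.Agent.Lib.MP_767201_co.Mg.G001

section

/-!
# TASK SE P5: dropping the chains with coincidences at the ends

Proof. Let `E'` be the set of `e ∈ E` for which `w 0 e, ..., w (M+1) e` are distinct. For the others, as `w 1 e, ..., w M e` are distinct, one of the following holds.
(a) `w 0 e = w j e`, `1 ≤ j ≤ M`. If `M = 1`: `w 0 e`, `w 1 e` are adjacent, impossible. `M ≥ 2`: `w j e` is an end of a link `j' ∈ {j-1, j}` with `1 ≤ j' < M`, so it contains the label `z i e`, `i = ι j'`, `1 ≤ i < m` (`adj`, definition of `RG`): `z i e ∈ A (w 0 e)`. For a fixed value of `z 0 e`, `w 0 e` is fixed (`end0`), and for each `i` and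
each label in `A (w 0 e)` there is at most one `e` with `z i e` equal to it (`inj`): at most `m K` elements `e` for each value of `z 0`; altogether at most `m K nim E (z 0)`.
(b) `w (M+1) e = w j e`, `1 ≤ j ≤ M`: same with `z m`: at most `m K nim E (z m)`.
(c) `w 0 e = w (M+1) e`: `z m e ∈ A (w (M+1) e)` (`adj` at `M`, `iM`) `= A (w 0 e)`. For a fixed value of `z 0` there are at most `K` values of `z m e`, and `e` is determined by both (`ends`): at most `K nim E (z 0)`.
Altogether at most `(m+1) K (nim E (z 0) + nim E (z m))`. (Count with `fib`, `card_le_of_fib`: the set of bad `e` of kind (a) has fibres of `z 0` of size at most `m K`.)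
-/

set_option autoImplicit false

namespace Pool.Agent.Lib.MP_767201_co.SE

variable {V Γ ε : Type}

private theorem P5_fib {δ N : Type} (E : Finset ε) (f : ε → N) (x : N) (T : Finset δ) (g : ε → δ)
    (h1 : ∀ e ∈ E, f e = x → g e ∈ T) (h2 : ∀ e ∈ E, ∀ e' ∈ E, f e = x → f e' = x → g e = g e' → e = e') :
    fib E f x ≤ T.card := by
  unfold fib
  rw [← Set.ncard_coe_finset T]
  refine Set.ncard_le_ncard_of_injOn g ?_ ?_ (Finset.finite_toSet T)
  · rintro e ⟨he, he'⟩
    exact h1 e he he'
  · rintro e ⟨he, he'⟩ e' ⟨hf, hf'⟩ h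
    exact h2 e he e' hf he' hf' h

private theorem P5_link {A : V → Finset Γ} {len : Γ → ℕ} {par : Γ → Γ}
    {m M : ℕ} {l ι : ℕ → ℕ} {E : Finset ε} {z : ℕ → ε → Γ} {w : ℕ → ε → V}
    (hC : Chain A len par m M l ι E z w) {e : ε} (he : e ∈ E) {j : ℕ} (h1 : 1 ≤ j) (h2 : j ≤ M) (hM : 2 ≤ M) :
    ∃ i, 1 ≤ i ∧ i < m ∧ z i e ∈ A (w j e) := by
  rcases Nat.lt_or_ge j M with h | h
  · have h3 := hC.iint j h1 h
    exact ⟨ι j, h3.1, h3.2, (hC.adj j h2 e he).2.1⟩
  · have hj : j = M := by omega
    have h3 := hC.iint (M - 1) (by omega) (by omega)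
    have h4 := (hC.adj (M - 1) (by omega) e he).2.2.1
    rw [Nat.sub_add_cancel hC.M1] at h4
    exact ⟨ι (M - 1), h3.1, h3.2, by rw [hj]; exact h4⟩

theorem drop_bad {K : ℕ} {A : V → Finset Γ} {len : Γ → ℕ} {par : Γ → Γ} (hK : ∀ x, (A x).card ≤ K)
    {m M : ℕ} {l ι : ℕ → ℕ} {E : Finset ε} {z : ℕ → ε → Γ} {w : ℕ → ε → V}
    (hC : Chain A len par m M l ι E z w)
    (hw : ∀ e ∈ E, ∀ i j, 1 ≤ i → i ≤ M → 1 ≤ j → j ≤ M → w i e = w j e → i = j) :
    ∃ E' ⊆ E, E.card ≤ E'.card + (m + 1) * K * (nim E (z 0) + nim E (z m)) ∧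
      ∀ e ∈ E', ∀ i j, i ≤ M + 1 → j ≤ M + 1 → w i e = w j e → i = j := by
  classical
  have hM1 := hC.M1
  -- the three kinds of bad elements
  have hlink : ∀ e ∈ E, ∀ j, 1 ≤ j → j ≤ M → (w 0 e = w j e ∨ w (M + 1) e = w j e) →
      ∃ i, 1 ≤ i ∧ i < m ∧ z i e ∈ A (w j e) := by
    intro e he j h1 h2 h3
    rcases Nat.lt_or_ge M 2 with hM | hM
    · exfalso
      have hj : j = 1 := by omega
      have hMM : M = 1 := by omega
      subst hj
      rcases h3 with h3 | h3
      · exact (hC.adj 0 (Nat.zero_le _) e he).1 h3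
      · have h4 := (hC.adj 1 (by omega) e he).1
        rw [hMM] at h3
        exact h4 h3.symm
    · exact P5_link hC he h1 h2 hM
  set Ba := E.filter (fun e => ∃ j, 1 ≤ j ∧ j ≤ M ∧ w 0 e = w j e) with hBa
  set Bb := E.filter (fun e => ∃ j, 1 ≤ j ∧ j ≤ M ∧ w (M + 1) e = w j e) with hBb
  set Bc := E.filter (fun e => w 0 e = w (M + 1) e) with hBc
  set E' := E.filter (fun e => ∀ i j, i ≤ M + 1 → j ≤ M + 1 → w i e = w j e → i = j) with hE'
  have hcov : E ⊆ E' ∪ (Ba ∪ (Bb ∪ Bc)) := by
    intro e he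
    by_contra hn
    simp only [Finset.mem_union, not_or] at hn
    obtain ⟨n1, n2, n3, n4⟩ := hn
    apply n1
    rw [hE', Finset.mem_filter]
    refine ⟨he, ?_⟩
    have key : ∀ i j, i < j → j ≤ M + 1 → w i e = w j e → False := by
      intro i j hij hj h
      rcases Nat.eq_zero_or_pos i with hi | hi
      · subst hi
        rcases Nat.lt_or_ge j (M + 1) with h5 | h5
        · exact n2 (Finset.mem_filter.mpr ⟨he, j, by omega, by omega, h⟩)
        · have : j = M + 1 := by omega
          subst this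
          exact n4 (Finset.mem_filter.mpr ⟨he, h⟩)
      · rcases Nat.lt_or_ge j (M + 1) with h5 | h5
        · have := hw e he i j (by omega) (by omega) (by omega) (by omega) h
          omega
        · have : j = M + 1 := by omega
          subst this
          exact n3 (Finset.mem_filter.mpr ⟨he, i, by omega, by omega, h.symm⟩)
    intro i j hi hj h
    rcases lt_trichotomy i j with h6 | h6 | h6
    · exact (key i j h6 hj h).elim
    · exact h6
    · exact (key j i h6 hi h.symm).elim
  -- fibres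
  have hfa : ∀ x, fib Ba (z 0) x ≤ m * K := by
    intro x
    by_cases hne : ∃ e₀ ∈ Ba, z 0 e₀ = x
    · obtain ⟨e₀, he₀, hx₀⟩ := hne
      have he₀E : e₀ ∈ E := (Finset.mem_filter.mp he₀).1
      have hch : ∀ e, ∃ i, e ∈ Ba → z 0 e = x → 1 ≤ i ∧ i < m ∧ z i e ∈ A (w 0 e₀) := by
        intro e
        by_cases he : e ∈ Ba ∧ z 0 e = x
        · obtain ⟨heE, j, h1, h2, h3⟩ := Finset.mem_filter.mp he.1
          obtain ⟨i, i1, i2, i3⟩ := hlink e heE j h1 h2 (Or.inl h3)
          refine ⟨i, fun _ _ => ⟨i1, i2, ?_⟩⟩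
          rw [hC.end0 e₀ he₀E e heE (by rw [hx₀, he.2]), h3]
          exact i3
        · exact ⟨0, fun h1 h2 => absurd ⟨h1, h2⟩ he⟩
      choose i hi using hch
      calc fib Ba (z 0) x ≤ (Finset.range m ×ˢ A (w 0 e₀)).card := by
            refine P5_fib Ba (z 0) x _ (fun e => (i e, z (i e) e)) ?_ ?_
            · intro e he hx
              have := hi e he hx
              exact Finset.mem_product.mpr ⟨Finset.mem_range.mpr this.2.1, this.2.2⟩
            · intro e he e' he' hx hx' h
              simp only [Prod.mk.injEq] at h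
              have h1 := hi e he hx
              have h2 := h.2
              rw [← h.1] at h2
              exact hC.inj (i e) h1.1 h1.2.1 (Finset.mem_coe.mpr (Finset.mem_filter.mp he).1)
                (Finset.mem_coe.mpr (Finset.mem_filter.mp he').1) h2
        _ = m * (A (w 0 e₀)).card := by rw [Finset.card_product, Finset.card_range]
        _ ≤ m * K := Nat.mul_le_mul_left _ (hK _)
    · have : fib Ba (z 0) x = 0 := by
        unfold fib
        have h0 : {e | e ∈ Ba ∧ z 0 e = x} = ∅ := by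
          ext e
          simp only [Set.mem_ofPred_eq, Set.mem_empty_iff_false, iff_false]
          exact fun h => hne ⟨e, h.1, h.2⟩
        rw [h0, Set.ncard_empty]
      omega
  have hfb : ∀ x, fib Bb (z m) x ≤ m * K := by
    intro x
    by_cases hne : ∃ e₀ ∈ Bb, z m e₀ = x
    · obtain ⟨e₀, he₀, hx₀⟩ := hne
      have he₀E : e₀ ∈ E := (Finset.mem_filter.mp he₀).1
      have hch : ∀ e, ∃ i, e ∈ Bb → z m e = x → 1 ≤ i ∧ i < m ∧ z i e ∈ A (w (M + 1) e₀) := by
        intro e
        by_cases he : e ∈ Bb ∧ z m e = x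
        · obtain ⟨heE, j, h1, h2, h3⟩ := Finset.mem_filter.mp he.1
          obtain ⟨i, i1, i2, i3⟩ := hlink e heE j h1 h2 (Or.inr h3)
          refine ⟨i, fun _ _ => ⟨i1, i2, ?_⟩⟩
          rw [hC.endM e₀ he₀E e heE (by rw [hx₀, he.2]), h3]
          exact i3
        · exact ⟨0, fun h1 h2 => absurd ⟨h1, h2⟩ he⟩
      choose i hi using hch
      calc fib Bb (z m) x ≤ (Finset.range m ×ˢ A (w (M + 1) e₀)).card := by
            refine P5_fib Bb (z m) x _ (fun e => (i e, z (i e) e)) ?_ ?_
            · intro e he hx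
              have := hi e he hx
              exact Finset.mem_product.mpr ⟨Finset.mem_range.mpr this.2.1, this.2.2⟩
            · intro e he e' he' hx hx' h
              simp only [Prod.mk.injEq] at h
              have h1 := hi e he hx
              have h2 := h.2
              rw [← h.1] at h2
              exact hC.inj (i e) h1.1 h1.2.1 (Finset.mem_coe.mpr (Finset.mem_filter.mp he).1)
                (Finset.mem_coe.mpr (Finset.mem_filter.mp he').1) h2
        _ = m * (A (w (M + 1) e₀)).card := by rw [Finset.card_product, Finset.card_range]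
        _ ≤ m * K := Nat.mul_le_mul_left _ (hK _)
    · have : fib Bb (z m) x = 0 := by
        unfold fib
        have h0 : {e | e ∈ Bb ∧ z m e = x} = ∅ := by
          ext e
          simp only [Set.mem_ofPred_eq, Set.mem_empty_iff_false, iff_false]
          exact fun h => hne ⟨e, h.1, h.2⟩
        rw [h0, Set.ncard_empty]
      omega
  have hfc : ∀ x, fib Bc (z 0) x ≤ K := by
    intro x
    by_cases hne : ∃ e₀ ∈ Bc, z 0 e₀ = x
    · obtain ⟨e₀, he₀, hx₀⟩ := hne
      have he₀E : e₀ ∈ E := (Finset.mem_filter.mp he₀).1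
      refine (P5_fib Bc (z 0) x (A (w 0 e₀)) (z m) ?_ ?_).trans (hK _)
      · intro e he hx
        obtain ⟨heE, h1⟩ := Finset.mem_filter.mp he
        have h2 := (hC.adj M le_rfl e heE).2.2.1
        rw [hC.iM, ← h1, ← hC.end0 e₀ he₀E e heE (by rw [hx₀, hx])] at h2
        exact h2
      · intro e he e' he' hx hx' h
        exact hC.ends e (Finset.mem_filter.mp he).1 e' (Finset.mem_filter.mp he').1 (by rw [hx, hx']) h
    · have : fib Bc (z 0) x = 0 := by
        unfold fib
        have h0 : {e | e ∈ Bc ∧ z 0 e = x} = ∅ := by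
          ext e
          simp only [Set.mem_ofPred_eq, Set.mem_empty_iff_false, iff_false]
          exact fun h => hne ⟨e, h.1, h.2⟩
        rw [h0, Set.ncard_empty]
      omega
  have ca : Ba.card ≤ m * K * nim E (z 0) :=
    (card_le_of_fib Ba (z 0) _ hfa).trans (Nat.mul_le_mul_left _ (nim_mono (Finset.filter_subset _ _) _))
  have cb : Bb.card ≤ m * K * nim E (z m) :=
    (card_le_of_fib Bb (z m) _ hfb).trans (Nat.mul_le_mul_left _ (nim_mono (Finset.filter_subset _ _) _))
  have cc : Bc.card ≤ K * nim E (z 0) :=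
    (card_le_of_fib Bc (z 0) _ hfc).trans (Nat.mul_le_mul_left _ (nim_mono (Finset.filter_subset _ _) _))
  refine ⟨E', Finset.filter_subset _ _, ?_, fun e he => (Finset.mem_filter.mp he).2⟩
  have h1 : E.card ≤ E'.card + (Ba.card + (Bb.card + Bc.card)) := by
    calc E.card ≤ (E' ∪ (Ba ∪ (Bb ∪ Bc))).card := Finset.card_le_card hcov
      _ ≤ E'.card + (Ba ∪ (Bb ∪ Bc)).card := Finset.card_union_le _ _
      _ ≤ E'.card + (Ba.card + (Bb ∪ Bc).card) := Nat.add_le_add_left (Finset.card_union_le _ _) _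
      _ ≤ E'.card + (Ba.card + (Bb.card + Bc.card)) :=
          Nat.add_le_add_left (Nat.add_le_add_left (Finset.card_union_le _ _) _) _
  have h2 : m * K * nim E (z 0) + (m * K * nim E (z m) + K * nim E (z 0)) ≤
      (m + 1) * K * (nim E (z 0) + nim E (z m)) := by
    calc m * K * nim E (z 0) + (m * K * nim E (z m) + K * nim E (z 0))
        ≤ m * K * nim E (z 0) + (m * K * nim E (z m) + K * nim E (z 0)) + K * nim E (z m) := Nat.le_add_right _ _
      _ = (m + 1) * K * (nim E (z 0) + nim E (z m)) := by ring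
  omega

theorem Chain.sub {A : V → Finset Γ} {len : Γ → ℕ} {par : Γ → Γ} {m M : ℕ} {l ι : ℕ → ℕ} {E : Finset ε}
    {z : ℕ → ε → Γ} {w : ℕ → ε → V} (hC : Chain A len par m M l ι E z w) {E' : Finset ε} (h : E' ⊆ E) :
    Chain A len par m M l ι E' z w where
  M1 := hC.M1
  m1 := hC.m1
  i0 := hC.i0
  iM := hC.iM
  iint := hC.iint
  adj := fun j hj e he => hC.adj j hj e (h he)
  lenz := fun i hi e he => hC.lenz i hi e (h he)
  inj := fun i h1 h2 => (hC.inj i h1 h2).mono (by exact_mod_cast h)
  ends := fun e he e' he' => hC.ends e (h he) e' (h he')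
  cpar := fun i hi e he e' he' => hC.cpar i hi e (h he) e' (h he')
  end0 := fun e he e' he' => hC.end0 e (h he) e' (h he')
  endM := fun e he e' he' => hC.endM e (h he) e' (h he')

end Pool.Agent.Lib.MP_767201_co.SE
end

section

/-!
# TASK SE P6: extending functions with small domains; types

Proof of `extend`. Let `X` be finite, `Y` finite and nonempty, `q = Nat.card Y`. Count the pairs `(g, e)` with `g : X → Y`, `e ∈ E`, `g = p e` on `D e`: for each `e` there are exactly `q^(card X - (D e).card)` such `g`, so `q^N` times the number of pairs is at least `E.card * q^(card X)`. So for some `g` the number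
`c` of such `e` has `E.card ≤ q^N * c` (otherwise the sum over all `q^(card X)` functions `g` is too small). (Alternatively: induction on the finite set `X`.)

Proof of `types`. 1. `extend` with `X = Γ`, `Y = Set (Fin (M+2))` (or `Finset`), `D e = {g | occ A M w g e}` = the union of the `A (w i e)`, `i ≤ M+1`, at most `K (M+2)` elements, `p e g = {t | g ∈ A (w t e)}`: `E₁ ⊆ E`, `E.card ≤ (2^(M+2))^(K(M+2)) E₁.card`, and a function `τ` with `τ g = {t | g ∈ A (w t e)}` whenever `e ∈ E₁` and
`g` occurs at `e`. If `g` occurs at `e` and `e'` then both position sets are `τ g`. 2. `extend` with `X = V`, `Y = Fin (M+2)`, `D e = {w j e | j ≤ M+1}` (`M+2` elements), `p e x` = the `j` with `w j e = x` (unique by `hw`): `E₂ ⊆ E₁`, `E₁.card ≤ (M+2)^(M+2) E₂.card`; `κ x := (g x : ℕ)`.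
-/

set_option autoImplicit false

namespace Pool.Agent.Lib.MP_767201_co.SE

private theorem P6_agree {X Y : Type} [Fintype X] [Fintype Y] [Nonempty Y] [DecidableEq X] [DecidableEq Y]
    (D : Finset X) (p : X → Y) (N : ℕ) (hD : D.card ≤ N) :
    Fintype.card (X → Y) ≤ (Finset.univ.filter (fun g : X → Y => ∀ x ∈ D, g x = p x)).card * Fintype.card Y ^ N := by
  have hq : 1 ≤ Fintype.card Y := Fintype.card_pos
  have h1 : Fintype.card (X → Y) ≤
      ((Finset.univ.filter (fun g : X → Y => ∀ x ∈ D, g x = p x)) ×ˢ (Finset.univ : Finset (D → Y))).card := by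
    rw [← Finset.card_univ]
    refine Finset.card_le_card_of_injOn (fun g => (fun x => if x ∈ D then p x else g x, fun x => g x.1)) ?_ ?_
    · intro g _
      simp only [Finset.coe_product, Set.mem_prod, Finset.mem_coe, Finset.mem_filter, Finset.mem_univ, true_and,
        and_true]
      intro x hx
      simp [hx]
    · intro g _ g' _ h
      simp only [Prod.mk.injEq] at h
      funext x
      by_cases hx : x ∈ D
      · exact congrFun h.2 ⟨x, hx⟩
      · have := congrFun h.1 x
        simpa [hx] using this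
  have h2 : Fintype.card (D → Y) = Fintype.card Y ^ D.card := by
    rw [Fintype.card_fun, Fintype.card_coe]
  rw [Finset.card_product, Finset.card_univ, h2] at h1
  exact h1.trans (Nat.mul_le_mul_left _ (Nat.pow_le_pow_right hq hD))

theorem extend {X Y ε : Type} [Finite X] [Finite Y] [Nonempty Y] (E : Finset ε) (D : ε → Finset X) (p : ε → X → Y)
    (N : ℕ) (hD : ∀ e ∈ E, (D e).card ≤ N) :
    ∃ g : X → Y, ∃ E' ⊆ E, E.card ≤ Nat.card Y ^ N * E'.card ∧ ∀ e ∈ E', ∀ x ∈ D e, g x = p e x := by
  classical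
  have := Fintype.ofFinite X
  have := Fintype.ofFinite Y
  rw [Nat.card_eq_fintype_card]
  by_contra hcon
  have hlt : ∀ g : X → Y, Fintype.card Y ^ N * (E.filter (fun e => ∀ x ∈ D e, g x = p e x)).card < E.card := by
    intro g
    by_contra h
    exact hcon ⟨g, E.filter (fun e => ∀ x ∈ D e, g x = p e x), Finset.filter_subset _ _, not_lt.mp h,
      fun e he => (Finset.mem_filter.mp he).2⟩
  have h1 : ∑ g : X → Y, Fintype.card Y ^ N * (E.filter (fun e => ∀ x ∈ D e, g x = p e x)).card <
      ∑ _g : X → Y, E.card :=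
    Finset.sum_lt_sum_of_nonempty Finset.univ_nonempty (fun g _ => hlt g)
  rw [← Finset.mul_sum] at h1
  have h2 : ∑ g : X → Y, (E.filter (fun e => ∀ x ∈ D e, g x = p e x)).card =
      ∑ e ∈ E, (Finset.univ.filter (fun g : X → Y => ∀ x ∈ D e, g x = p e x)).card := by
    simp only [Finset.card_filter]
    rw [Finset.sum_comm]
  rw [h2, Finset.mul_sum, Finset.sum_const, Finset.card_univ, smul_eq_mul] at h1
  have h3 : ∑ _e ∈ E, Fintype.card (X → Y) ≤
      ∑ e ∈ E, Fintype.card Y ^ N * (Finset.univ.filter (fun g : X → Y => ∀ x ∈ D e, g x = p e x)).card := by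
    refine Finset.sum_le_sum fun e he => ?_
    rw [mul_comm]
    exact P6_agree (D e) (p e) N (hD e he)
  rw [Finset.sum_const, smul_eq_mul, mul_comm] at h3
  omega

/-- The constant of `types`. -/
def cty (K M : ℕ) : ℕ := (2 ^ (M + 2)) ^ (K * (M + 2)) * (M + 2) ^ (M + 2)

theorem types {V Γ ε : Type} [Finite V] [Finite Γ] {K : ℕ} {A : V → Finset Γ} (hK : ∀ x, (A x).card ≤ K) (M : ℕ)
    (E : Finset ε) (w : ℕ → ε → V) (hw : ∀ e ∈ E, ∀ i j, i ≤ M + 1 → j ≤ M + 1 → w i e = w j e → i = j) :
    ∃ κ : V → ℕ, ∃ E' ⊆ E, E.card ≤ cty K M * E'.card ∧ Typed A M κ E' w := by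
  classical
  obtain ⟨τ, E₁, hE₁, hc₁, hτ⟩ := extend (X := Γ) (Y := Set (Fin (M + 2))) E
    (fun e => (Finset.range (M + 2)).biUnion fun i => A (w i e)) (fun e g => {t | g ∈ A (w t e)}) (K * (M + 2))
    (fun e _ => by
      calc _ ≤ ∑ i ∈ Finset.range (M + 2), (A (w i e)).card := Finset.card_biUnion_le
        _ ≤ ∑ _i ∈ Finset.range (M + 2), K := Finset.sum_le_sum fun i _ => hK _
        _ = K * (M + 2) := by rw [Finset.sum_const, Finset.card_range, smul_eq_mul, mul_comm])
  have hY : Nat.card (Set (Fin (M + 2))) = 2 ^ (M + 2) := by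
    rw [Nat.card_eq_fintype_card, Fintype.card_set, Fintype.card_fin]
  rw [hY] at hc₁
  obtain ⟨g, E₂, hE₂, hc₂, hg⟩ := extend (X := V) (Y := Fin (M + 2)) E₁
    (fun e => (Finset.range (M + 2)).image fun j => w j e)
    (fun e x => if h : ∃ j : Fin (M + 2), w j e = x then h.choose else 0) (M + 2)
    (fun e _ => by
      calc _ ≤ (Finset.range (M + 2)).card := Finset.card_image_le
        _ = M + 2 := Finset.card_range _)
  rw [Nat.card_eq_fintype_card, Fintype.card_fin] at hc₂
  refine ⟨fun x => (g x : ℕ), E₂, hE₂.trans hE₁, ?_, ?_, ?_⟩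
  · calc E.card ≤ (2 ^ (M + 2)) ^ (K * (M + 2)) * E₁.card := hc₁
      _ ≤ (2 ^ (M + 2)) ^ (K * (M + 2)) * ((M + 2) ^ (M + 2) * E₂.card) := Nat.mul_le_mul_left _ hc₂
      _ = cty K M * E₂.card := by unfold cty; ring
  · intro j hj e he
    have hmem : w j e ∈ (Finset.range (M + 2)).image fun j => w j e :=
      Finset.mem_image.mpr ⟨j, Finset.mem_range.mpr (by omega), rfl⟩
    have h1 := hg e he (w j e) hmem
    have h2 : ∃ i : Fin (M + 2), w i e = w j e := ⟨⟨j, by omega⟩, rfl⟩
    rw [dif_pos h2] at h1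
    have h3 := h2.choose_spec
    have h4 := hw e (hE₁ (hE₂ he)) (h2.choose : ℕ) j (by have := h2.choose.2; omega) hj h3
    show ((g (w j e) : Fin (M + 2)) : ℕ) = j
    rw [h1]
    exact h4
  · intro e he e' he' g' ho ho' t ht
    have hm : ∀ e, occ A M w g' e → g' ∈ (Finset.range (M + 2)).biUnion fun i => A (w i e) := by
      rintro e ⟨i, hi, hi'⟩
      exact Finset.mem_biUnion.mpr ⟨i, Finset.mem_range.mpr (by omega), hi'⟩
    have h1 := hτ e (hE₂ he) g' (hm e ho)
    have h2 := hτ e' (hE₂ he') g' (hm e' ho')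
    rw [h1] at h2
    have h3 := Set.ext_iff.mp h2 ⟨t, by omega⟩
    simpa using h3

end Pool.Agent.Lib.MP_767201_co.SE
end
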