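import Pool.Agent.Lib.MP_767201_co.Mg.G002
import Pool.Agent.Lib.MP_767201_co.Mg.G004
import Pool.Agent.Lib.MP_767201_co.Mg.G010
import Pool.Agent.Lib.MP_767201_co.Mg.G009
import Pool.Agent.Lib.MP_767201_co.Mg.G001
import Pool.Agent.Lib.MP_767201_co.Mg.G011

section

/-!
# TASK SE F2: the output graph has a dense shallow minor

Proof. `W` has the vertices `{g // g ∈ z 0 '' E} ⊕ {g // g ∈ z m '' E}` (finite; `Nat.card W.V = nim E (z 0) + nim E (z m)` by `Nat.card_sum`, `Set.ncard`), `Sum.inl g ~ Sum.inr g'` iff `∃ e ∈ E, z 0 e = g ∧ z m e = g'` (and symmetric). The edges are in bijection with `E` (`ends`):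
`e ↦ s(Sum.inl (z 0 e), Sum.inr (z m e))` is injective on `E` and its image is the edge set: `ncard = E.card`.
`ShallowMinor R`: branch sets `B (Sum.inl g) = {x | ∃ e ∈ E, z 0 e = g ∧ ∃ j ≤ M, x = w j e}`, centre `w 0 e` for a chosen `e` with `z 0 e = g` (the same for all such `e`: `end0`); `B (Sum.inr g') = {x | ∃ e ∈ E, z m e = g' ∧ x = w (M+1) e}`, one vertex (`endM`), the centre.
Disjoint: `κ = M + 1` for the second kind, `κ ≤ M` for the first kind. Two of the first kind: `w j e = w j' e'`, `j = j'` (`kap`); `j = 0`: `same_label` at 0 (`ι 0 = 0`): `z 0 e = z 0 e'`; `1 ≤ j ≤ M`: `coincide`. Two of the second kind: `same_label'` at `M` (`ι M = m`).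
Walks: from `w 0 e` to `w j e` along `w 0 e, w 1 e, ..., w j e` (adjacent by `out_iff`, induction on `j`), of length `j ≤ M ≤ R`, inside the branch set. If `e` has `z 0 e = g` then `w 0 e` is the centre.
Adjacent: `Sum.inl (z 0 e) ~ Sum.inr (z m e)`: `w M e` and `w (M+1) e` are adjacent. For the symmetric case use the symmetry of adjacency.
-/

set_option autoImplicit false

namespace Pool.Agent.Lib.MP_767201_co.SE

variable {V Γ ε : Type} {K k D : ℕ} {Q : V → V → Prop} {A : V → Finset Γ} {len : Γ → ℕ} {par : Γ → Γ}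
  {m M : ℕ} {l ι : ℕ → ℕ} {E : Finset ε} {z : ℕ → ε → Γ} {w : ℕ → ε → V} {κ : V → ℕ}

theorem f2_adj (h : LSok K k D Q A len par) (hC : Chain A len par m M l ι E z w) (hT : Typed A M κ E w) {e : ε}
    (he : e ∈ E) {j : ℕ} (hj : j ≤ M) (h1 : w j e ∈ outV M E w) (h2 : w (j + 1) e ∈ outV M E w) :
    (outG Q κ (fun j => Odd (l (ι j))) (outV M E w)).Adj ⟨w j e, h1⟩ ⟨w (j + 1) e, h2⟩ := by
  refine ⟨fun hh => ?_, Or.inl ((out_iff h hC hT h1 h2).2 ⟨e, he, j, hj, rfl, rfl⟩)⟩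
  have h3 := congrArg κ (congrArg Subtype.val hh)
  simp only at h3
  rw [hT.kap j (by omega) e he, hT.kap (j + 1) (by omega) e he] at h3
  omega

theorem f2_walk (h : LSok K k D Q A len par) (hC : Chain A len par m M l ι E z w) (hT : Typed A M κ E w) {e : ε}
    (he : e ∈ E) (h0 : w 0 e ∈ outV M E w) : ∀ j, j ≤ M → ∀ hj : w j e ∈ outV M E w,
    ∃ p : (outG Q κ (fun j => Odd (l (ι j))) (outV M E w)).Walk ⟨w 0 e, h0⟩ ⟨w j e, hj⟩, p.length ≤ j ∧
      ∀ x ∈ p.support, ∃ i ≤ j, x.1 = w i e := by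
  intro j
  induction j with
  | zero =>
    intro _ hj
    refine ⟨SimpleGraph.Walk.nil, by simp, ?_⟩
    intro x hx
    rw [SimpleGraph.Walk.support_nil, List.mem_singleton] at hx
    exact ⟨0, le_rfl, by rw [hx]⟩
  | succ j ih =>
    intro hjM hj
    have hj' : w j e ∈ outV M E w := ⟨e, he, j, by omega, rfl⟩
    obtain ⟨p, hp, hs⟩ := ih (by omega) hj'
    refine ⟨p.concat (f2_adj h hC hT he (by omega) hj' hj), ?_, ?_⟩
    · rw [SimpleGraph.Walk.length_concat]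
      omega
    · intro x hx
      rw [SimpleGraph.Walk.support_concat] at hx
      have hx' : x ∈ p.support ∨ x = ⟨w (j + 1) e, hj⟩ := by simpa using hx
      rcases hx' with hx | hx
      · obtain ⟨i, hi, hxi⟩ := hs x hx
        exact ⟨i, by omega, hxi⟩
      · exact ⟨j + 1, le_rfl, by rw [hx]⟩

theorem out_minor (h : LSok K k D Q A len par) (hC : Chain A len par m M l ι E z w) (hT : Typed A M κ E w) {R : ℕ}
    (hR : M ≤ R) :
    ∃ W : FG, ShallowMinor R W.G (outG Q κ (fun j => Odd (l (ι j))) (outV M E w)) ∧ W.G.edgeSet.ncard = E.card ∧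
      Nat.card W.V = nim E (z 0) + nim E (z m) := by
  classical
  let f0 : {e // e ∈ E} → {g // g ∈ z 0 '' (E : Set ε)} := fun e => ⟨z 0 e.1, ⟨e.1, e.2, rfl⟩⟩
  let fm : {e // e ∈ E} → {g // g ∈ z m '' (E : Set ε)} := fun e => ⟨z m e.1, ⟨e.1, e.2, rfl⟩⟩
  have fin0 : Finite {g // g ∈ z 0 '' (E : Set ε)} := (E.finite_toSet.image (z 0)).to_subtype
  have finm : Finite {g // g ∈ z m '' (E : Set ε)} := (E.finite_toSet.image (z m)).to_subtype
  let H : SimpleGraph ({g // g ∈ z 0 '' (E : Set ε)} ⊕ {g // g ∈ z m '' (E : Set ε)}) :=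
    { Adj := fun a b => ∃ e : {e // e ∈ E}, (a = Sum.inl (f0 e) ∧ b = Sum.inr (fm e)) ∨
        (b = Sum.inl (f0 e) ∧ a = Sum.inr (fm e))
      symm := ⟨fun a b hab => by
        obtain ⟨e, he⟩ := hab
        exact ⟨e, he.symm⟩⟩
      loopless := ⟨fun a ha => by
        obtain ⟨e, ⟨h1, h2⟩ | ⟨h1, h2⟩⟩ := ha <;> (rw [h1] at h2; exact absurd h2 (by simp))⟩ }
  have hmem : ∀ e ∈ E, ∀ j ≤ M + 1, w j e ∈ outV M E w := fun e he j hj => ⟨e, he, j, hj, rfl⟩
  have hch : ∀ a : {g // g ∈ z 0 '' (E : Set ε)}, ∃ e ∈ E, z 0 e = a.1 := by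
    rintro ⟨g, e, he, rfl⟩
    exact ⟨e, he, rfl⟩
  have hchm : ∀ a : {g // g ∈ z m '' (E : Set ε)}, ∃ e ∈ E, z m e = a.1 := by
    rintro ⟨g, e, he, rfl⟩
    exact ⟨e, he, rfl⟩
  choose c0 hc0 hc0' using hch
  choose cm hcm hcm' using hchm
  refine ⟨⟨_, inferInstance, H⟩, ⟨?_, ?_, ?_, ?_, ?_, ?_⟩, ?_, ?_⟩
  · exact fun a => Sum.elim (fun a => {x | ∃ e ∈ E, z 0 e = a.1 ∧ ∃ j ≤ M, x.1 = w j e})
      (fun a => {x | ∃ e ∈ E, z m e = a.1 ∧ x.1 = w (M + 1) e}) a
  · exact fun a => Sum.elim (fun a => ⟨w 0 (c0 a), hmem _ (hc0 a) 0 (by omega)⟩)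
      (fun a => ⟨w (M + 1) (cm a), hmem _ (hcm a) (M + 1) le_rfl⟩) a
  · rintro (a | a)
    · exact ⟨c0 a, hc0 a, hc0' a, 0, Nat.zero_le _, rfl⟩
    · exact ⟨cm a, hcm a, hcm' a, rfl⟩
  · have h01 : ∀ (x : outV M E w) (e : ε), e ∈ E → ∀ e' ∈ E, (∃ j ≤ M, x.1 = w j e) → x.1 ≠ w (M + 1) e' := by
      rintro x e he e' he' ⟨j, hj, hx⟩ hx'
      rw [hx] at hx'
      have h3 := congrArg κ hx'
      rw [hT.kap j (by omega) e he, hT.kap (M + 1) le_rfl e' he'] at h3
      omega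
    rintro (a | a) (b | b) hab
    · rw [Set.disjoint_left]
      rintro x ⟨e, he, hea, j, hj, hx⟩ ⟨e', he', heb, j', hj', hx'⟩
      apply hab
      rw [hx] at hx'
      have h3 := congrArg κ hx'
      rw [hT.kap j (by omega) e he, hT.kap j' (by omega) e' he'] at h3
      subst h3
      have h4 : z 0 e = z 0 e' := by
        rcases Nat.eq_zero_or_pos j with hj0 | hj0
        · subst hj0
          have := same_label hC hT he he' (j := 0) (by omega) hx'
          rwa [hC.i0] at this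
        · rw [coincide hC hT he he' hj0 hj hx']
      rw [hea, heb] at h4
      exact congrArg Sum.inl (Subtype.ext h4)
    · rw [Set.disjoint_left]
      rintro x ⟨e, he, hea, hj⟩ ⟨e', he', heb, hx'⟩
      exact h01 x e he e' he' hj hx'
    · rw [Set.disjoint_left]
      rintro x ⟨e', he', heb, hx'⟩ ⟨e, he, hea, hj⟩
      exact h01 x e he e' he' hj hx'
    · rw [Set.disjoint_left]
      rintro x ⟨e, he, hea, hx⟩ ⟨e', he', heb, hx'⟩
      apply hab
      rw [hx] at hx'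
      have h4 := same_label' hC hT he he' (j := M) le_rfl hx'
      rw [hC.iM, hea, heb] at h4
      exact congrArg Sum.inr (Subtype.ext h4)
  · rintro (a | a) x hx
    · obtain ⟨e, he, hea, j, hj, hxj⟩ := hx
      obtain ⟨x, hxU⟩ := x
      simp only at hxj
      subst hxj
      have h0 : w 0 e = w 0 (c0 a) := hC.end0 e he _ (hc0 a) (by rw [hea, hc0' a])
      obtain ⟨p, hp, hs⟩ := f2_walk h hC hT he (hmem e he 0 (by omega)) j hj hxU
      have h5 : (⟨w 0 (c0 a), hmem _ (hc0 a) 0 (by omega)⟩ : outV M E w) = ⟨w 0 e, hmem e he 0 (by omega)⟩ :=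
        Subtype.ext h0.symm
      show ∃ p : (outG Q κ (fun j => Odd (l (ι j))) (outV M E w)).Walk
        (⟨w 0 (c0 a), hmem _ (hc0 a) 0 (by omega)⟩ : outV M E w) ⟨w j e, hxU⟩, p.length ≤ R ∧
          ∀ x ∈ p.support, ∃ e ∈ E, z 0 e = a.1 ∧ ∃ j ≤ M, x.1 = w j e
      rw [h5]
      refine ⟨p, by omega, ?_⟩
      intro y hy
      obtain ⟨i, hi, hyi⟩ := hs y hy
      exact ⟨e, he, hea, i, by omega, hyi⟩
    · obtain ⟨e, he, hea, hxj⟩ := hx
      have h0 : w (M + 1) (cm a) = w (M + 1) e := hC.endM _ (hcm a) e he (by rw [hea, hcm' a])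
      have h5 : (⟨w (M + 1) (cm a), hmem _ (hcm a) (M + 1) le_rfl⟩ : outV M E w) = x := by
        apply Subtype.ext
        rw [hxj]
        exact h0
      subst h5
      show ∃ p : (outG Q κ (fun j => Odd (l (ι j))) (outV M E w)).Walk
        (⟨w (M + 1) (cm a), hmem _ (hcm a) (M + 1) le_rfl⟩ : outV M E w)
        ⟨w (M + 1) (cm a), hmem _ (hcm a) (M + 1) le_rfl⟩, p.length ≤ R ∧
          ∀ x ∈ p.support, ∃ e ∈ E, z m e = a.1 ∧ x.1 = w (M + 1) e
      refine ⟨SimpleGraph.Walk.nil, Nat.zero_le _, ?_⟩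
      intro y hy
      rw [SimpleGraph.Walk.support_nil, List.mem_singleton] at hy
      rw [hy]
      exact ⟨cm a, hcm a, hcm' a, rfl⟩
  · intro a b hab
    obtain ⟨e, ⟨h1, h2⟩ | ⟨h1, h2⟩⟩ := hab
    · subst h1 h2
      refine ⟨⟨w M e.1, hmem _ e.2 M (by omega)⟩, ⟨e.1, e.2, rfl, M, le_rfl, rfl⟩,
        ⟨w (M + 1) e.1, hmem _ e.2 (M + 1) le_rfl⟩, ⟨e.1, e.2, rfl, rfl⟩, f2_adj h hC hT e.2 le_rfl _ _⟩
    · subst h1 h2
      refine ⟨⟨w (M + 1) e.1, hmem _ e.2 (M + 1) le_rfl⟩, ⟨e.1, e.2, rfl, rfl⟩,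
        ⟨w M e.1, hmem _ e.2 M (by omega)⟩, ⟨e.1, e.2, rfl, M, le_rfl, rfl⟩,
        (f2_adj h hC hT e.2 le_rfl _ _).symm⟩
  · have hr : H.edgeSet = Set.range (fun e : {e // e ∈ E} => s(Sum.inl (f0 e), Sum.inr (fm e))) := by
      ext x
      induction x using Sym2.ind with
      | _ a b =>
        rw [SimpleGraph.mem_edgeSet]
        constructor
        · rintro ⟨e, ⟨h1, h2⟩ | ⟨h1, h2⟩⟩
          · exact ⟨e, by rw [h1, h2]⟩
          · exact ⟨e, by rw [h1, h2, Sym2.eq_swap]⟩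
        · rintro ⟨e, he⟩
          rcases Sym2.eq_iff.1 he with ⟨h1, h2⟩ | ⟨h1, h2⟩
          · exact ⟨e, Or.inl ⟨h1.symm, h2.symm⟩⟩
          · exact ⟨e, Or.inr ⟨h1.symm, h2.symm⟩⟩
    show H.edgeSet.ncard = E.card
    rw [hr, ← Nat.card_coe_set_eq, Nat.card_range_of_injective]
    · simp
    · intro e e' hee
      rcases Sym2.eq_iff.1 hee with ⟨h1, h2⟩ | ⟨h1, h2⟩
      · have h3 : z 0 e.1 = z 0 e'.1 := congrArg Subtype.val (Sum.inl_injective h1)
        have h4 : z m e.1 = z m e'.1 := congrArg Subtype.val (Sum.inr_injective h2)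
        exact Subtype.ext (hC.ends e.1 e.2 e'.1 e'.2 h3 h4)
      · exact absurd h1 (by simp)
  · show Nat.card ({g // g ∈ z 0 '' (E : Set ε)} ⊕ {g // g ∈ z m '' (E : Set ε)}) = _
    rw [Nat.card_sum]
    rfl

end Pool.Agent.Lib.MP_767201_co.SE
end

section

/-!
# TASK SE F3: the class of the output graphs

Proof of `pout_def`. `Pout R` is a Boolean combination of `Adj x.1 y.1` (`Defb.edge` for one copy: `x.2 = y.2` always holds in `Fin 1`) and of relations between the colours (`Defb.ofCol`): for example `(ofCol (c.1+1 = c'.1 and c.2 = true) and not edge) or (ofCol (c.1+1 = c'.1 and c.2 = false) and edge)`.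
`outClass_ws`: `s = 2`. `outClass_trans`: the formula of `pout_def`, one copy.
`out_mem`: `b' x := (b ↔ Odd (l (ι (κ x))))` (classical `decide`), `χ (x, _) = (min (κ x) (R+1), decide b')`, `i x = (x.1, 0)`. For `x, y ∈ outV M E w`: `κ x, κ y ≤ M + 1 ≤ R + 1`. For `x ≠ y`: `Q x y ↔ ¬ (G.Adj x y ↔ b)` and
`(Q x y ↔ β) ↔ ¬ (G.Adj x y ↔ (b ↔ β))` (propositional: `tauto`/`by_cases`). So `outRel Q κ β x y ↔ Pout R _ G.G χ (i x) (i y)` and `outG` has the right edges. `out_free`. The vertex set `outV` is finite as `G.V` is.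
-/

set_option autoImplicit false

namespace Pool.Agent.Lib.MP_767201_co.SE

/-- The output formula: colours `(κ, bit)`. -/
def Pout (R : ℕ) : ∀ V : Type, SimpleGraph V → (V × Fin 1 → Fin (R + 2) × Bool) → V × Fin 1 → V × Fin 1 → Prop :=
  fun _ G χ x y => ((χ y).1 : ℕ) = (χ x).1 + 1 ∧ ¬ (G.Adj x.1 y.1 ↔ (χ x).2 = true)

theorem pout_def (R : ℕ) : Defb 1 (Fin (R + 2) × Bool) (Pout R) := by
  have h1 := (Defb.ofCol (k := 1) (K := Fin (R + 2) × Bool) (fun c c' => (c'.1 : ℕ) = c.1 + 1 ∧ c.2 = true)).and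
    (Defb.edge (k := 1) (K := Fin (R + 2) × Bool)).not
  have h2 := (Defb.ofCol (k := 1) (K := Fin (R + 2) × Bool) (fun c c' => (c'.1 : ℕ) = c.1 + 1 ∧ ¬ c.2 = true)).and
    (Defb.edge (k := 1) (K := Fin (R + 2) × Bool))
  obtain ⟨φ, hφ⟩ := h1.or h2
  refine ⟨φ, fun V G χ x y => ?_⟩
  rw [hφ]
  have hs : x.2 = y.2 := Subsingleton.elim _ _
  unfold Pout
  constructor
  · rintro (⟨⟨a, b⟩, c⟩ | ⟨⟨a, b⟩, c⟩)
    · refine ⟨a, fun h => c ⟨hs, h.2 b⟩⟩
    · exact ⟨a, fun h => b (h.1 c.2)⟩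
  · rintro ⟨a, b⟩
    by_cases hb : (χ x).2 = true
    · left
      exact ⟨⟨a, hb⟩, fun c => b ⟨fun _ => hb, fun _ => c.2⟩⟩
    · right
      refine ⟨⟨a, hb⟩, hs, ?_⟩
      by_contra hc
      exact b ⟨fun h => absurd h hc, fun h => absurd h hb⟩

/-- The `K_{2,2}`-free graphs obtained by the output formula. -/
def outClass (R : ℕ) (C : Set FG) : Set FG :=
  {H | (¬ ∃ a b : Fin 2 → H.V, Function.Injective a ∧ Function.Injective b ∧ (∀ i j, a i ≠ b j) ∧
      ∀ i j, H.G.Adj (a i) (b j)) ∧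
    ∃ G ∈ C, ∃ (χ : G.V × Fin 1 → Fin (R + 2) × Bool) (i : H.V → G.V × Fin 1), Function.Injective i ∧
      ∀ x y, H.G.Adj x y ↔ x ≠ y ∧ (Pout R _ G.G χ (i x) (i y) ∨ Pout R _ G.G χ (i y) (i x))}

theorem outClass_ws (R : ℕ) (C : Set FG) : WeaklySparse (outClass R C) :=
  ⟨2, fun _ hH => hH.1⟩

theorem outClass_trans (R : ℕ) (C : Set FG) : Transduces C (outClass R C) := by
  obtain ⟨φ, hφ⟩ := pout_def R
  refine ⟨1, Fin (R + 2) × Bool, φ, one_pos, inferInstance, fun H hH => ?_⟩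
  obtain ⟨-, G, hG, χ, i, hi, h⟩ := hH
  refine ⟨G, hG, χ, i, hi, fun x y => ?_⟩
  rw [h, hφ, hφ]

theorem out_mem {C : Set FG} {G : FG} (hG : G ∈ C) {Γ ε : Type} {K k D : ℕ} {b : Prop} {A : G.V → Finset Γ}
    {len : Γ → ℕ} {par : Γ → Γ} (h : LSof K k D G b A len par) {m M : ℕ} {l ι : ℕ → ℕ} {E : Finset ε}
    {z : ℕ → ε → Γ} {w : ℕ → ε → G.V} {κ : G.V → ℕ} (hC : Chain A len par m M l ι E z w) (hT : Typed A M κ E w)
    {R : ℕ} (hR : M ≤ R) (hfin : Finite (outV M E w)) :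
    (⟨outV M E w, hfin, outG (fun x y => ¬ (G.G.Adj x y ↔ b)) κ (fun j => Odd (l (ι j))) (outV M E w)⟩ : FG) ∈
      outClass R C := by
  classical
  refine ⟨out_free h hC hT, G, hG, fun x => (⟨min (κ x.1) (R + 1), by omega⟩,
    decide (b ↔ Odd (l (ι (κ x.1))))), fun x => (x.1, 0), ?_, ?_⟩
  · intro x y hxy
    exact Subtype.ext (congrArg Prod.fst hxy)
  · intro x y
    have hk : ∀ x : outV M E w, κ x.1 ≤ R + 1 := by
      rintro ⟨x, e, he, j, hj, rfl⟩
      show κ (w j e) ≤ R + 1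
      rw [hT.kap j hj e he]
      omega
    have key : ∀ x y : outV M E w,
        outRel (fun x y => ¬ (G.G.Adj x y ↔ b)) κ (fun j => Odd (l (ι j))) x.1 y.1 ↔
        Pout R _ G.G (fun x => (⟨min (κ x.1) (R + 1), by omega⟩, decide (b ↔ Odd (l (ι (κ x.1))))))
          (x.1, 0) (y.1, 0) := by
      intro x y
      unfold outRel Pout
      simp only [decide_eq_true_eq]
      rw [min_eq_left (hk x), min_eq_left (hk y)]
      refine and_congr Iff.rfl ?_
      by_cases h1 : G.G.Adj x.1 y.1 <;> by_cases h2 : b <;> by_cases h3 : Odd (l (ι (κ x.1))) <;> simp [h1, h2, h3]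
    show x ≠ y ∧ _ ↔ _
    rw [key, key]

end Pool.Agent.Lib.MP_767201_co.SE
end

section

/-!
# TASK SE P4: uniform chains

Proof. `probes`: `yl`, `yr`, `E₀ ⊆ E` with `E.card ≤ cpr K * cpr K * E₀.card` (`E` is nonempty). For every `e ∈ E₀` take `M_e`, `w_e`, `ι_e` from `links`. Pigeonhole for `e ↦ (M_e, ι_e restricted to 1..m D)`: the value is in the finite set of pairs (number at most `m D + 1`, function from `Fin (m D + 1)` to `Fin (m + 1)`)
(put `0` outside of `1 ≤ j < M_e`), which has at most `(m D + 2) (m+1)^(m D + 2)` elements: `E' ⊆ E₀` with constant `M` and constant `ι` on `1 ≤ j < M`.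
Define `ι' 0 = 0`, `ι' M = m`, `ι' j = ι j` otherwise; `w 0 e = yl (z 0 e)`, `w (M+1) e = yr (z m e)`, `w j e = w_e j` for `1 ≤ j ≤ M`. Then `Chain A len par m M l ι' E' z w`: `adj` at `0`: `(RG A len (z 0 e)).Adj (yl (z 0 e)) (v 0 e)` (symmetry, `w_e 1 = v 0 e`); at `M`:
`(RG A len (z m e)).Adj (v (m-1) e) (yr (z m e))`; for `1 ≤ j < M`: `links`. `len`, `inj`, `ends` from `LPS`; `cpar`: passes to subsets. The last claim of the theorem: `links`. (If `m D + 1` etc. is inconvenient, any bound for the number of pairs which depends on `m` and `D` only can be used with a larger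
constant: but keep `cun`.)
-/

set_option autoImplicit false

namespace Pool.Agent.Lib.MP_767201_co.SE

variable {V Γ ε : Type}

private theorem P4_pigeon {ε β : Type} [Fintype β] [Nonempty β] (s : Finset ε) (f : ε → β) :
    ∃ y : β, ∃ t ⊆ s, s.card ≤ Fintype.card β * t.card ∧ ∀ e ∈ t, f e = y := by
  classical
  obtain ⟨y, -, hy⟩ := Finset.exists_max_image (Finset.univ : Finset β)
    (fun y => (s.filter fun e => f e = y).card) Finset.univ_nonempty
  refine ⟨y, s.filter fun e => f e = y, Finset.filter_subset _ _, ?_, ?_⟩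
  · rw [Finset.card_eq_sum_card_fiberwise (f := f) (s := s) (t := Finset.univ)
      (fun _ _ => Finset.mem_coe.mpr (Finset.mem_univ _))]
    have := Finset.sum_le_card_nsmul (Finset.univ : Finset β)
      (fun y => (s.filter fun e => f e = y).card) _ hy
    rw [smul_eq_mul, Finset.card_univ] at this
    exact this
  · intro e he
    exact (Finset.mem_filter.mp he).2

/-- The constant of `uniform_chain`. -/
def cun (K D m : ℕ) : ℕ := cpr K * cpr K * ((m * D + 2) * (m + 1) ^ (m * D + 2))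

theorem uniform_chain {K k D : ℕ} {Q : V → V → Prop} {A : V → Finset Γ} {len : Γ → ℕ} {par : Γ → Γ}
    (h : LSok K k D Q A len par) {m : ℕ} {l : ℕ → ℕ} {E : Finset ε} {z : ℕ → ε → Γ} {v : ℕ → ε → V}
    (hL : LPS A len m l E z v) (hE : E.Nonempty) (hc : ∀ i ≤ m, ConstPar len par E z i) :
    ∃ (M : ℕ) (ι : ℕ → ℕ) (w : ℕ → ε → V), M ≤ m * D + 1 ∧ ∃ E' ⊆ E, E.card ≤ cun K D m * E'.card ∧
      Chain A len par m M l ι E' z w ∧
      ∀ e ∈ E', ∀ i j, 1 ≤ i → i ≤ M → 1 ≤ j → j ≤ M → w i e = w j e → i = j := by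
  classical
  obtain ⟨yl, yr, E₀, hsub, hcard, hadj⟩ := probes h hL hE
  have hex : ∀ e, ∃ (M : ℕ) (w : ℕ → V) (ι : ℕ → ℕ), e ∈ E →
      (1 ≤ M ∧ M ≤ m * D + 1 ∧ w 1 = v 0 e ∧ w M = v (m - 1) e ∧
      (∀ i j, 1 ≤ i → i ≤ M → 1 ≤ j → j ≤ M → w i = w j → i = j) ∧
      ∀ j, 1 ≤ j → j < M → 1 ≤ ι j ∧ ι j < m ∧ (RG A len (z (ι j) e)).Adj (w j) (w (j + 1))) := by
    intro e
    by_cases he : e ∈ E
    · obtain ⟨M, w, ι, h1⟩ := links h hL he
      exact ⟨M, w, ι, fun _ => h1⟩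
    · exact ⟨0, fun _ => v 0 e, fun _ => 0, fun h => absurd h he⟩
  choose Mf wf ιf hf using hex
  let f : ε → Fin (m * D + 2) × (Fin (m * D + 2) → Fin (m + 1)) := fun e =>
    (⟨min (Mf e) (m * D + 1), by have := Nat.min_le_right (Mf e) (m * D + 1); omega⟩,
      fun j => if 1 ≤ j.val ∧ j.val < Mf e then
        ⟨min (ιf e j.val) m, by have := Nat.min_le_right (ιf e j.val) m; omega⟩ else 0)
  obtain ⟨y, E', hE', hc', hy⟩ := P4_pigeon E₀ f
  have hN : Fintype.card (Fin (m * D + 2) × (Fin (m * D + 2) → Fin (m + 1))) =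
      (m * D + 2) * (m + 1) ^ (m * D + 2) := by
    rw [Fintype.card_prod, Fintype.card_fun, Fintype.card_fin, Fintype.card_fin]
  rw [hN] at hc'
  have hEpos : 0 < E.card := Finset.card_pos.mpr hE
  have htot : E.card ≤ cun K D m * E'.card := by
    refine hcard.trans ?_
    unfold cun
    rw [mul_assoc (cpr K * cpr K)]
    exact Nat.mul_le_mul_left _ hc'
  have hE'pos : 0 < E'.card := by
    rcases Nat.eq_zero_or_pos E'.card with h0 | h0
    · rw [h0, Nat.mul_zero] at htot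
      omega
    · exact h0
  obtain ⟨e₀, he₀⟩ := Finset.card_pos.mp hE'pos
  have hE'E : E' ⊆ E := hE'.trans hsub
  obtain ⟨a1, a2, a3, a4, a5, a6⟩ := hf e₀ (hE'E he₀)
  have hM : ∀ e ∈ E', Mf e = Mf e₀ := by
    intro e he
    have h1 := (hy e he).trans (hy e₀ he₀).symm
    have h2 := congrArg (fun q => (q.1 : Fin (m * D + 2)).val) h1
    obtain ⟨b1, b2, -⟩ := hf e (hE'E he)
    simp only [f] at h2
    rw [Nat.min_eq_left b2, Nat.min_eq_left a2] at h2
    exact h2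
  have hι : ∀ e ∈ E', ∀ j, 1 ≤ j → j < Mf e₀ → ιf e j = ιf e₀ j := by
    intro e he j hj1 hj2
    have h1 := (hy e he).trans (hy e₀ he₀).symm
    have hjlt : j < m * D + 2 := by omega
    have h2 := congrArg (fun q => (q.2 ⟨j, hjlt⟩ : Fin (m + 1)).val) h1
    obtain ⟨b1, b2, b3, b4, b5, b6⟩ := hf e (hE'E he)
    have c1 := (a6 j hj1 hj2).2.1
    have c2 := (b6 j hj1 (by rw [hM e he]; exact hj2)).2.1
    simp only [f] at h2
    rw [if_pos ⟨hj1, by rw [hM e he]; exact hj2⟩, if_pos ⟨hj1, hj2⟩] at h2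
    simp only at h2
    rw [Nat.min_eq_left c1.le, Nat.min_eq_left c2.le] at h2
    exact h2
  set M := Mf e₀ with hMdef
  refine ⟨M, fun j => if j = 0 then 0 else if j = M then m else ιf e₀ j,
    fun j e => if j = 0 then yl (z 0 e) else if j = M + 1 then yr (z m e) else wf e j,
    a2, E', hE'E, htot, ?_, ?_⟩
  · refine ⟨a1, hL.pos, ?_, ?_, ?_, ?_, ?_, ?_, ?_, ?_, ?_, ?_⟩
    · simp
    · have : M ≠ 0 := by omega
      simp [this]
    · intro j hj1 hj2
      have h1 : j ≠ 0 := by omega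
      have h2 : j ≠ M := by omega
      simp only [if_neg h1, if_neg h2]
      exact ⟨(a6 j hj1 hj2).1, (a6 j hj1 hj2).2.1⟩
    · intro j hj e he
      obtain ⟨b1, b2, b3, b4, b5, b6⟩ := hf e (hE'E he)
      rw [hM e he] at b1 b2 b4 b5 b6
      rcases Nat.eq_zero_or_pos j with h0 | hpos
      · subst h0
        have h1 : (0 : ℕ) + 1 ≠ 0 := by omega
        have h2 : (0 : ℕ) + 1 ≠ M + 1 := by omega
        simp only [if_true, if_neg h1, if_neg h2]
        rw [Nat.zero_add, b3]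
        exact (hadj e (hE' he)).1.symm
      · have h1 : j ≠ 0 := by omega
        have h2 : j + 1 ≠ 0 := by omega
        have h3 : j ≠ M + 1 := by omega
        simp only [if_neg h1, if_neg h2, if_neg h3]
        rcases Nat.lt_or_ge j M with hlt | hge
        · have h4 : j ≠ M := by omega
          have h5 : j + 1 ≠ M + 1 := by omega
          rw [if_neg h4, if_neg h5, ← hι e he j hpos hlt]
          exact (b6 j hpos hlt).2.2
        · have h4 : j = M := by omega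
          rw [if_pos h4, h4, if_pos rfl, b4]
          exact (hadj e (hE' he)).2
    · intro i hi e he
      exact hL.len i hi e (hE'E he)
    · intro i hi1 hi2
      exact (hL.inj i hi1 hi2).mono (by exact_mod_cast hE'E)
    · intro e he e' he'
      exact hL.ends e (hE'E he) e' (hE'E he')
    · intro i hi e he e' he'
      exact hc i hi e (hE'E he) e' (hE'E he')
    · intro e _ e' _ hz
      simp only [if_true]
      rw [hz]
    · intro e _ e' _ hz
      have h1 : M + 1 ≠ 0 := by omega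
      simp only [if_neg h1, if_true]
      rw [hz]
  · intro e he i j hi1 hi2 hj1 hj2 hw
    obtain ⟨b1, b2, b3, b4, b5, b6⟩ := hf e (hE'E he)
    rw [hM e he] at b5
    have h1 : i ≠ 0 := by omega
    have h2 : i ≠ M + 1 := by omega
    have h3 : j ≠ 0 := by omega
    have h4 : j ≠ M + 1 := by omega
    simp only [if_neg h1, if_neg h2, if_neg h3, if_neg h4] at hw
    exact b5 i j hi1 hi2 hj1 hj2 hw

end Pool.Agent.Lib.MP_767201_co.SE
end

section

/-!
# TASK SE P8: a dense family of typed chains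

Proof. `R := m D + 1`. `uniform_chain`: `M ≤ R`, `ι`, `w`, `E₁ ⊆ E`, `E.card ≤ cun K D m * E₁.card`. `drop_bad`: `E₂ ⊆ E₁`, `E₁.card ≤ E₂.card + (m+1) K (nim E₁ (z 0) + nim E₁ (z m))`. `types`: `E₃ ⊆ E₂`, `E₂.card ≤ cty K M * E₃.card`, `cty K M ≤ cty K R` (monotone). Let `n0 = nim E (z 0) + nim E (z m)`, positive (`E` is nonempty).
`d1 := cun K D m * ((m+1) K + cty K R * (d+1))`. `d1 n0 ≤ E.card ≤ cun (E₂.card + (m+1) K n0)` gives (`cun > 0`) `cty K R (d+1) n0 ≤ E₂.card ≤ cty K R * E₃.card`, so `(d+1) n0 ≤ E₃.card`, and `d (nim E₃ (z 0) + nim E₃ (z m)) ≤ d n0 < (d+1) n0`. `Chain.sub`.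
-/

set_option autoImplicit false

namespace Pool.Agent.Lib.MP_767201_co.SE

private theorem P8_cty_mono (K : ℕ) {M R : ℕ} (h : M ≤ R) : cty K M ≤ cty K R := by
  unfold cty
  refine Nat.mul_le_mul ?_ ?_
  · have h1 : 2 ^ (M + 2) ≤ 2 ^ (R + 2) := Nat.pow_le_pow_right (by omega) (by omega)
    have h2 : K * (M + 2) ≤ K * (R + 2) := Nat.mul_le_mul_left K (by omega)
    have h3 : 0 < 2 ^ (R + 2) := by positivity
    exact (Nat.pow_le_pow_left h1 _).trans (Nat.pow_le_pow_right h3 h2)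
  · exact (Nat.pow_le_pow_left (by omega) _).trans (Nat.pow_le_pow_right (by omega) (by omega))

private theorem P8_arith {d1 n0 n1 n3 e e1 e2 e3 cu a ct ctM d : ℕ} (hd1 : d1 = cu * (a + ct * (d + 1)))
    (hcu : 0 < cu) (hct : 0 < ct) (hn0 : 0 < n0) (h1 : d1 * n0 ≤ e) (h2 : e ≤ cu * e1)
    (h3 : e1 ≤ e2 + a * n1) (h4 : e2 ≤ ctM * e3) (h5 : n1 ≤ n0) (h6 : n3 ≤ n0) (h7 : ctM ≤ ct) :
    d * n3 < e3 := by
  subst hd1
  have h8 : cu * ((a + ct * (d + 1)) * n0) ≤ cu * (e2 + a * n0) := by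
    calc cu * ((a + ct * (d + 1)) * n0) = cu * (a + ct * (d + 1)) * n0 := by ring
      _ ≤ e := h1
      _ ≤ cu * e1 := h2
      _ ≤ cu * (e2 + a * n0) := Nat.mul_le_mul_left _ (h3.trans (Nat.add_le_add_left (Nat.mul_le_mul_left a h5) e2))
  have h9 := Nat.le_of_mul_le_mul_left h8 hcu
  have h10 : ct * ((d + 1) * n0) ≤ ct * e3 := by
    have h11 : (a + ct * (d + 1)) * n0 = a * n0 + ct * ((d + 1) * n0) := by ring
    have h12 : ctM * e3 ≤ ct * e3 := Nat.mul_le_mul_right e3 h7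
    omega
  have h13 := Nat.le_of_mul_le_mul_left h10 hct
  have h14 : d * n3 ≤ d * n0 := Nat.mul_le_mul_left d h6
  have h15 : (d + 1) * n0 = d * n0 + n0 := by ring
  omega

theorem survivors (K D m d : ℕ) : ∃ d1 : ℕ, ∀ (V Γ ε : Type) [Finite V] [Finite Γ] (k : ℕ) (Q : V → V → Prop)
    (A : V → Finset Γ) (len : Γ → ℕ) (par : Γ → Γ), LSok K k D Q A len par →
    ∀ (l : ℕ → ℕ) (E : Finset ε) (z : ℕ → ε → Γ) (v : ℕ → ε → V), LPS A len m l E z v →
      (∀ i ≤ m, ConstPar len par E z i) → Dense d1 E z m →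
      ∃ (M : ℕ) (ι : ℕ → ℕ) (w : ℕ → ε → V) (κ : V → ℕ) (E' : Finset ε), M ≤ m * D + 1 ∧
        Chain A len par m M l ι E' z w ∧ Typed A M κ E' w ∧ d * (nim E' (z 0) + nim E' (z m)) < E'.card := by
  refine ⟨cun K D m * ((m + 1) * K + cty K (m * D + 1) * (d + 1)), ?_⟩
  intro V Γ ε _ _ k Q A len par h l E z v hL hc hd
  obtain ⟨hE, hdens⟩ := hd
  obtain ⟨M, ι, w, hM, E1, hE1, hc1, hC1, hinj1⟩ := uniform_chain h hL hE hc
  obtain ⟨E2, hE2, hc2, hinj2⟩ := drop_bad h.card hC1 hinj1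
  obtain ⟨κ, E3, hE3, hc3, hT⟩ := types h.card M E2 w hinj2
  refine ⟨M, ι, w, κ, E3, hM, (hC1.sub hE2).sub hE3, hT, ?_⟩
  have hcu : 0 < cun K D m := by
    unfold cun cpr
    positivity
  have hct : 0 < cty K (m * D + 1) := by
    unfold cty
    positivity
  have hn0 : 0 < nim E (z 0) + nim E (z m) := by
    refine Nat.add_pos_left ?_ _
    unfold nim
    have hfin : (z 0 '' (E : Set ε)).Finite := E.finite_toSet.image _
    exact (Set.ncard_pos hfin).2 ((Finset.coe_nonempty.2 hE).image _)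
  exact P8_arith rfl hcu hct hn0 hdens hc1 hc2 hc3
    (Nat.add_le_add (nim_mono hE1 _) (nim_mono hE1 _))
    (Nat.add_le_add (nim_mono ((hE3.trans hE2).trans hE1) _) (nim_mono ((hE3.trans hE2).trans hE1) _))
    (P8_cty_mono K hM)

end Pool.Agent.Lib.MP_767201_co.SE
end
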