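import Pool.Agent.Lib.MP_767201_co.Mg.G001

section

/-!
# TASK SE T3: levels and ancestors in the branch sets

Proof of `bfs`. Let `Bs`, `c` be the branch sets and centres of `h`. Every `x` lies in at most one branch set. For `x ∈ Bs w` let `lev x` be the least length of a walk from `c w` to `x` with support inside `Bs w`
(`0` for `x` outside of all branch sets); it is at most `r`. `lev x = 0` gives `x = c w`. If `lev x = n + 1` take such a walk of length `n+1` and let `par x` be its last vertex but one: it is in `Bs w`,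
adjacent to `x`, `lev (par x) ≤ n` (cut the last edge) and `lev (par x) ≥ n` (a shorter walk to `par x` extends to a walk to `x` of length less than `n+1`).

Proof of `ancestors`. `anc s x := par^[lev x - s] x`. For `x ∈ Bs w`, `s ≤ lev x`: by induction on `lev x - s`: `anc s x ∈ Bs w`, `lev (anc s x) = s`. `anc (lev x) x = x`. For `s < lev x`: `anc s x = par (anc (s+1) x)`, so
`B.Adj (anc s x) (anc (s+1) x)`, and `anc (s+1) x = anc (s+1) x'` gives `anc s x = anc s x'` (`s < lev x`, `s < lev x'`). `anc 0 x` has level 0, so it is `c w`.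
-/

set_option autoImplicit false

namespace Pool.Agent.Lib.MP_767201_co.SE

theorem bfs {r : ℕ} {W X : Type} {H : SimpleGraph W} {B : SimpleGraph X} (h : ShallowMinor r H B) :
    ∃ (Bs : W → Set X) (c : W → X) (lev : X → ℕ) (par : X → X),
      (∀ w w', w ≠ w' → Disjoint (Bs w) (Bs w')) ∧ (∀ w, c w ∈ Bs w) ∧
      (∀ w, ∀ x ∈ Bs w, lev x ≤ r ∧ (lev x = 0 → x = c w) ∧
        (0 < lev x → par x ∈ Bs w ∧ lev (par x) + 1 = lev x ∧ B.Adj (par x) x)) ∧
      ∀ w w', H.Adj w w' → ∃ x ∈ Bs w, ∃ y ∈ Bs w', B.Adj x y := by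
  classical
  obtain ⟨Bs, c, hc, hdis, hwalk, hadj⟩ := h
  have huniq : ∀ {w w' : W} {x : X}, x ∈ Bs w → x ∈ Bs w' → w' = w := by
    intro w w' x hx hx'
    by_contra hne
    exact Set.disjoint_left.1 (hdis w w' (fun e => hne e.symm)) hx hx'
  obtain ⟨T, hT⟩ : ∃ T : X → Set ℕ, T = fun x =>
      {n | ∃ w, ∃ p : B.Walk (c w) x, p.length = n ∧ ∀ y ∈ p.support, y ∈ Bs w} := ⟨_, rfl⟩
  obtain ⟨lev, hlev⟩ : ∃ lev : X → ℕ, lev = fun x => sInf (T x) := ⟨_, rfl⟩
  have hmem : ∀ {w : W} {x : X}, x ∈ Bs w →
      ∃ p : B.Walk (c w) x, p.length = lev x ∧ ∀ y ∈ p.support, y ∈ Bs w := by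
    intro w x hx
    obtain ⟨p, -, hp⟩ := hwalk w x hx
    have hne : (T x).Nonempty := ⟨p.length, by rw [hT]; exact ⟨w, p, rfl, hp⟩⟩
    have h1 : lev x ∈ T x := by rw [hlev]; exact Nat.sInf_mem hne
    rw [hT] at h1
    obtain ⟨w', q, hq1, hq2⟩ := h1
    have h2 : w' = w := huniq hx (hq2 x q.end_mem_support)
    subst h2
    exact ⟨q, hq1, hq2⟩
  have hle : ∀ {w : W} {x : X} (p : B.Walk (c w) x), (∀ y ∈ p.support, y ∈ Bs w) →
      lev x ≤ p.length := by
    intro w x p hp
    rw [hlev]
    exact Nat.sInf_le (by rw [hT]; exact ⟨w, p, rfl, hp⟩)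
  have hpar : ∀ x, ∃ y, ∀ w, x ∈ Bs w → 0 < lev x →
      y ∈ Bs w ∧ lev y + 1 = lev x ∧ B.Adj y x := by
    intro x
    by_cases hx : ∃ w, x ∈ Bs w ∧ 0 < lev x
    · obtain ⟨w, hxw, hpos⟩ := hx
      obtain ⟨p, hp1, hp2⟩ := hmem hxw
      have hrl : p.reverse.length = lev x := by rw [SimpleGraph.Walk.length_reverse, hp1]
      have hrs : ∀ y ∈ p.reverse.support, y ∈ Bs w := by
        intro y hy
        rw [SimpleGraph.Walk.support_reverse, List.mem_reverse] at hy
        exact hp2 y hy
      generalize p.reverse = q at hrl hrs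
      cases q with
      | nil =>
        rw [SimpleGraph.Walk.length_nil] at hrl
        omega
      | cons hxy q' =>
        rename_i y
        rw [SimpleGraph.Walk.length_cons] at hrl
        have hq's : ∀ z ∈ q'.support, z ∈ Bs w := fun z hz =>
          hrs z (by rw [SimpleGraph.Walk.support_cons]; exact List.mem_cons_of_mem _ hz)
        have hyw : y ∈ Bs w := hq's y q'.start_mem_support
        have h1 : lev y ≤ q'.length := by
          have h2 := hle q'.reverse (fun z hz => by
            rw [SimpleGraph.Walk.support_reverse, List.mem_reverse] at hz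
            exact hq's z hz)
          rwa [SimpleGraph.Walk.length_reverse] at h2
        obtain ⟨p2, hp21, hp22⟩ := hmem hyw
        have h3 : lev x ≤ lev y + 1 := by
          have h4 := hle (p2.concat hxy.symm) (fun z hz => by
            rw [SimpleGraph.Walk.support_concat, List.mem_append,
              List.mem_singleton] at hz
            rcases hz with hz | rfl
            · exact hp22 z hz
            · exact hxw)
          rwa [SimpleGraph.Walk.length_concat, hp21] at h4
        refine ⟨y, fun w' hw' _ => ?_⟩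
        have h5 : w' = w := huniq hxw hw'
        subst h5
        exact ⟨hyw, by omega, hxy.symm⟩
    · refine ⟨x, fun w hw hpos => ?_⟩
      exact absurd ⟨w, hw, hpos⟩ hx
  choose par hpar using hpar
  refine ⟨Bs, c, lev, par, hdis, hc, fun w x hx => ⟨?_, fun h0 => ?_, fun hpos => hpar x w hx hpos⟩,
    hadj⟩
  · obtain ⟨p, hp1, hp2⟩ := hwalk w x hx
    exact (hle p hp2).trans hp1
  · obtain ⟨p, hp1, -⟩ := hmem hx
    rw [h0] at hp1
    exact (SimpleGraph.Walk.eq_of_length_eq_zero hp1).symm

theorem ancestors {r : ℕ} {W X : Type} {H : SimpleGraph W} {B : SimpleGraph X} (h : ShallowMinor r H B) :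
    ∃ (Bs : W → Set X) (c : W → X) (lev : X → ℕ) (anc : ℕ → X → X),
      (∀ w w', w ≠ w' → Disjoint (Bs w) (Bs w')) ∧ (∀ w, c w ∈ Bs w) ∧
      (∀ w w', H.Adj w w' → ∃ x ∈ Bs w, ∃ y ∈ Bs w', B.Adj x y) ∧
      (∀ w, ∀ x ∈ Bs w, lev x ≤ r ∧ anc (lev x) x = x ∧ anc 0 x = c w ∧
        (∀ s ≤ lev x, anc s x ∈ Bs w) ∧ ∀ s < lev x, B.Adj (anc s x) (anc (s + 1) x)) ∧
      ∀ w, ∀ x ∈ Bs w, ∀ w', ∀ x' ∈ Bs w', ∀ s, s < lev x → s < lev x' → anc (s + 1) x = anc (s + 1) x' →
        anc s x = anc s x' := by
  obtain ⟨Bs, c, lev, par, hdis, hc, hlev, hadj⟩ := bfs h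
  have hit : ∀ w, ∀ x ∈ Bs w, ∀ d ≤ lev x, par^[d] x ∈ Bs w ∧ lev (par^[d] x) = lev x - d := by
    intro w x hx d
    induction d with
    | zero => intro _; exact ⟨hx, rfl⟩
    | succ d ih =>
      intro hd
      obtain ⟨h1, h2⟩ := ih (by omega)
      rw [Function.iterate_succ_apply']
      obtain ⟨h3, h4, -⟩ := (hlev w _ h1).2.2 (by omega)
      exact ⟨h3, by omega⟩
  have hstep : ∀ (x : X) (s : ℕ), s < lev x → par^[lev x - s] x = par (par^[lev x - (s + 1)] x) := by
    intro x s hs
    rw [← Function.iterate_succ_apply' par]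
    congr 1
    omega
  refine ⟨Bs, c, lev, fun s x => par^[lev x - s] x, hdis, hc, hadj, ?_, ?_⟩
  · intro w x hx
    refine ⟨(hlev w x hx).1, ?_, ?_, fun s hs => ?_, fun s hs => ?_⟩
    · simp
    · obtain ⟨h1, h2⟩ := hit w x hx (lev x) le_rfl
      simp only [Nat.sub_zero]
      exact (hlev w _ h1).2.1 (by omega)
    · exact (hit w x hx (lev x - s) (by omega)).1
    · obtain ⟨h1, h2⟩ := hit w x hx (lev x - (s + 1)) (by omega)
      simp only
      rw [hstep x s hs]
      exact ((hlev w _ h1).2.2 (by omega)).2.2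
  · intro w x _ w' x' _ s hs hs' heq
    simp only at heq ⊢
    rw [hstep x s hs, hstep x' s hs', heq]

end Pool.Agent.Lib.MP_767201_co.SE
end

section

/-!
# TASK SE T4: a cut with half of the edges

Proof. `N T := Set.ncard {p : W × W | p.1 ∈ T ∧ p.2 ∉ T ∧ H.Adj p.1 p.2}`. Choose `T` with `N T` maximal (finitely many sets). For every vertex `w` the number of neighbours on the other side of `T` is at least
the number of neighbours on the same side (otherwise moving `w` to the other side increases `N`). Summing over all `w`: the number of ordered pairs of adjacent vertices on different sides, `2 N T`, is at least the number of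
ordered pairs of adjacent vertices on the same side, so `2 N T ≥` half of all ordered adjacent pairs `= H.edgeSet.ncard`. (Sum of the degrees `= 2 |E|`: `SimpleGraph.sum_degrees_eq_twice_card_edges`, or `SimpleGraph.dart`
cardinalities.) Other proofs (induction on the number of vertices, adding one vertex to the better side; or averaging over all `T`) are fine as well.
-/

set_option autoImplicit false

namespace Pool.Agent.Lib.MP_767201_co.SE

theorem cut {W : Type} [Finite W] (H : SimpleGraph W) :
    ∃ T : Set W, H.edgeSet.ncard ≤ 2 * Set.ncard {p : W × W | p.1 ∈ T ∧ p.2 ∉ T ∧ H.Adj p.1 p.2} := by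
  classical
  have hfin : Fintype W := Fintype.ofFinite W
  let P : Finset (W × W) := Finset.univ.filter fun p => H.Adj p.1 p.2
  let c : (W → Bool) → W × W → ℤ := fun f p => if f p.1 = f p.2 then 1 else -1
  have hzero : ∀ p ∈ P, ∑ f : W → Bool, c f p = 0 := by
    intro p hp
    have hadj : H.Adj p.1 p.2 := (Finset.mem_filter.1 hp).2
    have hne : p.2 ≠ p.1 := hadj.ne'
    refine Finset.sum_involution (fun f _ => Function.update f p.1 (!f p.1)) ?_ ?_ ?_ ?_
    · intro f _
      show (if f p.1 = f p.2 then (1 : ℤ) else -1) +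
        (if Function.update f p.1 (!f p.1) p.1 = Function.update f p.1 (!f p.1) p.2 then (1 : ℤ) else -1) = 0
      rw [Function.update_self, Function.update_of_ne hne]
      cases f p.1 <;> cases f p.2 <;> simp
    · intro f _ _ h
      have h1 := congrFun h p.1
      rw [Function.update_self] at h1
      cases h2 : f p.1 <;> simp [h2] at h1
    · intro f _
      exact Finset.mem_univ _
    · intro f _
      show Function.update (Function.update f p.1 (!f p.1)) p.1
        (!Function.update f p.1 (!f p.1) p.1) = f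
      rw [Function.update_self, Function.update_idem, Bool.not_not, Function.update_eq_self]
  have hsum : ∑ f : W → Bool, ∑ p ∈ P, c f p = 0 := by
    rw [Finset.sum_comm]
    exact Finset.sum_eq_zero hzero
  obtain ⟨f, hf⟩ : ∃ f : W → Bool, ∑ p ∈ P, c f p ≤ 0 := by
    by_contra hcon
    push Not at hcon
    have h1 : (0 : ℤ) < ∑ f : W → Bool, ∑ p ∈ P, c f p :=
      Finset.sum_pos (fun f _ => hcon f) ⟨fun _ => true, Finset.mem_univ _⟩
    rw [hsum] at h1
    exact lt_irrefl _ h1
  let P1 : Finset (W × W) := P.filter fun p => f p.1 = true ∧ f p.2 = false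
  let P2 : Finset (W × W) := P.filter fun p => f p.1 = false ∧ f p.2 = true
  have h12 : P1.card = P2.card := by
    refine Finset.card_bij (fun p _ => p.swap) ?_ ?_ ?_
    · intro p hp
      have h1 := Finset.mem_filter.1 hp
      have h2 := (Finset.mem_filter.1 h1.1).2
      exact Finset.mem_filter.2 ⟨Finset.mem_filter.2 ⟨Finset.mem_univ _, h2.symm⟩, h1.2.2, h1.2.1⟩
    · intro p _ q _ h
      exact Prod.swap_injective h
    · intro p hp
      have h1 := Finset.mem_filter.1 hp
      have h2 := (Finset.mem_filter.1 h1.1).2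
      exact ⟨p.swap, Finset.mem_filter.2 ⟨Finset.mem_filter.2 ⟨Finset.mem_univ _, h2.symm⟩, h1.2.2, h1.2.1⟩,
        Prod.swap_swap p⟩
  have hpt : ∀ p : W × W, c f p = 1 - 2 * (if f p.1 = true ∧ f p.2 = false then (1 : ℤ) else 0) -
      2 * (if f p.1 = false ∧ f p.2 = true then (1 : ℤ) else 0) := by
    intro p
    show (if f p.1 = f p.2 then (1 : ℤ) else -1) = _
    cases f p.1 <;> cases f p.2 <;> simp
  have hval : ∑ p ∈ P, c f p = (P.card : ℤ) - 2 * P1.card - 2 * P2.card := by
    rw [Finset.sum_congr rfl fun p _ => hpt p, Finset.sum_sub_distrib, Finset.sum_sub_distrib,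
      ← Finset.mul_sum, ← Finset.mul_sum, Finset.sum_boole, Finset.sum_boole]
    simp [P1, P2]
  have hcard : 2 * H.edgeFinset.card = P.card := by
    rw [H.two_mul_card_edgeFinset]
  have hle : P.card ≤ 4 * P1.card := by
    rw [hval, ← h12] at hf
    omega
  refine ⟨{w | f w = true}, ?_⟩
  have h3 : {p : W × W | p.1 ∈ {w | f w = true} ∧ p.2 ∉ {w | f w = true} ∧ H.Adj p.1 p.2} = (P1 : Set (W × W)) := by
    ext p
    simp [P1, P]
    tauto
  have h4 : H.edgeSet.ncard = H.edgeFinset.card := by
    rw [← SimpleGraph.coe_edgeFinset, Set.ncard_coe_finset]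
  rw [h3, Set.ncard_coe_finset, h4]
  omega

end Pool.Agent.Lib.MP_767201_co.SE
end
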