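import Pool.Agent.Lib.MP_767201_co.Mg.G004
import Pool.Agent.Lib.MP_767201_co.Mg.G006

section

/-!
# TASK SE L0: path systems in the incidence graph which end in labels

Proof of `raw_ends`. `BG A` is bipartite: adjacent elements of `V ⊕ Γ` have different sides, so by induction `P i e` is on the side of `P 0 e` iff `i` is even. Let `E'` be the set of `e ∈ E` with `P 0 e` and `P (q+1) e` in `Γ` (`Sum.inr`).
The number of `e ∈ E` with `P 0 e = Sum.inl x` for a given `x` is at most `K`: `e ↦ P 1 e` is injective on them (`q ≥ 1`: `hinj`; `q = 0`: `P 1 = P (q+1)` and `hends`) and its values are `Sum.inr g`, `g ∈ A x`. So at most `K * nim E (P 0)` elements have `P 0 e`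
in `V`; the same for `P (q+1) e` (neighbour `P q e`; `q ≥ 1`: injective; `q = 0`: `hends`): at most `K * nim E (P (q+1))`. So `E'.card ≥ E.card - K (nim E (P 0) + nim E (P (q+1))) > d (..)`. As `E'` is nonempty and both ends are in `Γ`, `q + 1` is even.
-/

set_option autoImplicit false

namespace Pool.Agent.Lib.MP_767201_co.SE

private theorem L0_adj {V Γ : Type} {A : V → Finset Γ} {x : V} {b : V ⊕ Γ} (h : (BG A).Adj (Sum.inl x) b) :
    ∃ g ∈ A x, b = Sum.inr g := by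
  rcases h with ⟨v, g, h1, h2, h3⟩ | ⟨v, g, h1, h2, h3⟩
  · have h4 : x = v := Sum.inl.inj h1
    exact ⟨g, h4 ▸ h3, h2⟩
  · exact absurd h2 (by simp)

private theorem L0_adj' {V Γ : Type} {A : V → Finset Γ} {g : Γ} {b : V ⊕ Γ} (h : (BG A).Adj (Sum.inr g) b) :
    ∃ x, b = Sum.inl x := by
  rcases h with ⟨v, g', h1, h2, h3⟩ | ⟨v, g', h1, h2, h3⟩
  · exact absurd h1 (by simp)
  · exact ⟨v, h1⟩

private theorem L0_nim {ε N : Type} [DecidableEq N] (E : Finset ε) (f : ε → N) : nim E f = (E.image f).card := by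
  unfold nim
  rw [← Finset.coe_image, Set.ncard_coe_finset]

open Classical in
private theorem L0_end {V Γ ε : Type} (A : V → Finset Γ) (K : ℕ) (hK : ∀ x, (A x).card ≤ K) (E : Finset ε)
    (f g : ε → V ⊕ Γ) (hadj : ∀ e ∈ E, (BG A).Adj (f e) (g e))
    (hinj : ∀ e ∈ E, ∀ e' ∈ E, f e = f e' → g e = g e' → e = e') :
    (E.filter (fun e => ∃ x, f e = Sum.inl x)).card ≤ K * nim E f := by
  rw [L0_nim]
  refine (Finset.card_le_mul_card_image (f := f) _ K ?_).trans
    (Nat.mul_le_mul_left K (Finset.card_le_card (Finset.image_subset_image (Finset.filter_subset _ _))))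
  intro a ha
  rw [Finset.mem_image] at ha
  obtain ⟨e0, he0, rfl⟩ := ha
  rw [Finset.mem_filter] at he0
  obtain ⟨he0, x, hx⟩ := he0
  refine le_trans ?_ (hK x)
  have h1 : (((A x).image (Sum.inr : Γ → V ⊕ Γ))).card ≤ (A x).card := Finset.card_image_le
  refine le_trans (Finset.card_le_card_of_injOn g ?_ ?_) h1
  · intro e he
    rw [Finset.mem_coe, Finset.mem_filter, Finset.mem_filter] at he
    obtain ⟨⟨he, _⟩, h2⟩ := he
    have h3 := hadj e he
    rw [h2, hx] at h3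
    obtain ⟨g', h4, h5⟩ := L0_adj h3
    rw [h5]
    exact Finset.mem_coe.2 (Finset.mem_image_of_mem _ h4)
  · intro e he e' he' h2
    rw [Finset.mem_coe, Finset.mem_filter, Finset.mem_filter] at he he'
    exact hinj e he.1.1 e' he'.1.1 (he.2.trans he'.2.symm) h2

theorem raw_ends {V Γ ε : Type} (A : V → Finset Γ) (K d q : ℕ) (hK : ∀ x, (A x).card ≤ K) (E : Finset ε)
    (P : ℕ → ε → V ⊕ Γ) (hadj : ∀ i ≤ q, ∀ e ∈ E, (BG A).Adj (P i e) (P (i + 1) e))
    (hinj : ∀ i, 1 ≤ i → i ≤ q → Set.InjOn (P i) (E : Set ε))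
    (hends : ∀ e ∈ E, ∀ e' ∈ E, P 0 e = P 0 e' → P (q + 1) e = P (q + 1) e' → e = e')
    (hd : (d + K) * (nim E (P 0) + nim E (P (q + 1))) < E.card) :
    ∃ m, q + 1 = 2 * m ∧ ∃ E' ⊆ E, E'.Nonempty ∧ d * (nim E (P 0) + nim E (P (q + 1))) ≤ E'.card ∧
      ∀ e ∈ E', (∀ i ≤ m, ∃ g, P (2 * i) e = Sum.inr g) ∧ ∀ i < m, ∃ x, P (2 * i + 1) e = Sum.inl x := by
  classical
  have h1 := L0_end A K hK E (P 0) (P 1) (fun e he => hadj 0 (Nat.zero_le _) e he) (fun e he e' he' h2 h3 => by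
    rcases Nat.eq_zero_or_pos q with h4 | h4
    · subst h4
      exact hends e he e' he' h2 h3
    · exact hinj 1 le_rfl h4 he he' h3)
  have h2 := L0_end A K hK E (P (q + 1)) (P q) (fun e he => (hadj q le_rfl e he).symm) (fun e he e' he' h2 h3 => by
    rcases Nat.eq_zero_or_pos q with h4 | h4
    · subst h4
      exact hends e he e' he' h3 h2
    · exact hinj q h4 le_rfl he he' h3)
  set E1 := E.filter (fun e => ∃ x, P 0 e = Sum.inl x) with hE1
  set E2 := E.filter (fun e => ∃ x, P (q + 1) e = Sum.inl x) with hE2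
  have h3 : E.card ≤ (E \ (E1 ∪ E2)).card + (E1.card + E2.card) := by
    have h4 := Finset.card_le_card_sdiff_add_card (s := E) (t := E1 ∪ E2)
    have h5 := Finset.card_union_le E1 E2
    omega
  set n0 := nim E (P 0) with hn0
  set n1 := nim E (P (q + 1)) with hn1
  have h4 : d * (n0 + n1) < (E \ (E1 ∪ E2)).card := by
    have h5 : (d + K) * (n0 + n1) = d * (n0 + n1) + (K * n0 + K * n1) := by ring
    rw [h5] at hd
    omega
  have hpar : ∀ e ∈ E \ (E1 ∪ E2), ∀ i, i ≤ q + 1 →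
      (Even i → ∃ g, P i e = Sum.inr g) ∧ (¬ Even i → ∃ x, P i e = Sum.inl x) := by
    intro e he i
    rw [Finset.mem_sdiff, Finset.mem_union, not_or] at he
    obtain ⟨he, h5, h6⟩ := he
    induction i with
    | zero =>
      intro _
      refine ⟨fun _ => ?_, fun h => absurd Even.zero h⟩
      rcases h7 : P 0 e with x | g
      · exact absurd (Finset.mem_filter.2 ⟨he, x, h7⟩) h5
      · exact ⟨g, rfl⟩
    | succ i ih =>
      intro hi
      obtain ⟨h7, h8⟩ := ih (by omega)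
      have h9 := hadj i (by omega) e he
      by_cases h10 : Even i
      · obtain ⟨g, hg⟩ := h7 h10
        rw [hg] at h9
        obtain ⟨x, hx⟩ := L0_adj' h9
        exact ⟨fun h => absurd h10 (Nat.even_add_one.1 h), fun _ => ⟨x, hx⟩⟩
      · obtain ⟨x, hx⟩ := h8 h10
        rw [hx] at h9
        obtain ⟨g, _, hg⟩ := L0_adj h9
        exact ⟨fun _ => ⟨g, hg⟩, fun h => absurd (Nat.even_add_one.2 h10) h⟩
  have hne : (E \ (E1 ∪ E2)).Nonempty := Finset.card_pos.1 (by omega)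
  have hev : Even (q + 1) := by
    obtain ⟨e, he⟩ := hne
    by_contra h5
    obtain ⟨x, hx⟩ := (hpar e he (q + 1) le_rfl).2 h5
    rw [Finset.mem_sdiff, Finset.mem_union, not_or] at he
    exact he.2.2 (Finset.mem_filter.2 ⟨he.1, x, hx⟩)
  obtain ⟨m, hm⟩ := hev
  refine ⟨m, by omega, E \ (E1 ∪ E2), Finset.sdiff_subset, hne, h4.le, fun e he => ⟨fun i hi => ?_, fun i hi => ?_⟩⟩
  · exact (hpar e he (2 * i) (by omega)).1 (even_two_mul i)
  · exact (hpar e he (2 * i + 1) (by omega)).2 (by rw [Nat.even_add_one, not_not]; exact even_two_mul i)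

end Pool.Agent.Lib.MP_767201_co.SE
end

section

/-!
# TASK SE T2: the core lemma on path systems

`a s e`, `s = 0..s0`, and `b t e`, `t = 0..t0`, are the nodes of `e` at the levels `s`, `t`. Put `n0 = nim E (a 0) + nim E (b 0)`.

Proof. By induction on `s + t` one shows for `s ≤ s0 + 1`, `t ≤ t0 + 1`: STATEMENT(s,t): if `E_c ⊆ E`, (`s ≤ s0` → all fibres of `a s` on `E_c` have at most `2d` elements), (`t ≤ t0` → all fibres of `b t` on
`E_c` have at most `2d` elements) and `2d (8d)^(s+t) n0 < E_c.card` then the conclusion holds (with a subset of `E_c`).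
 - `s = 0`: `E_c.card ≤ 2d nim E_c (a 0) ≤ 2d n0` (`card_le_of_fib`, `nim_mono`): contradiction. `t = 0`: same.
 - `s, t ≥ 1`. There is `E₁ ⊆ E_c` with `E_c.card ≤ 4d E₁.card`, `a s` injective on `E₁` if `s ≤ s0`, `b t` injective on `E₁` if `t ≤ t0` (`transversal₂`, `transversal₁` with fibre bound `2d`, or `E₁ = E_c`).
   If some `E' ⊆ E₁` has `d (nim E' (a (s-1)) + nim E' (b (t-1))) < E'.card`: conclusion with `s-1`, `t-1`. Otherwise `orient` with `t := d`: `E₁ = E₁₁ ∪ E₁₂`; one of them has at least half of the elements of `E₁`, so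
   `E_c.card ≤ 8d E₁ᵢ.card`. If it is `E₁₁` (fibres of `a (s-1)` at most `2d`): STATEMENT(s-1,t) applies: the fibres of `b t` on the smaller set are still at most `2d`. Same for `E₁₂` with (s,t-1).
   (`2d (8d)^(s+t) n0 < E_c.card ≤ 8d E₁ᵢ.card` gives `2d (8d)^(s+t-1) n0 < E₁ᵢ.card`.)
 Start: STATEMENT(s0+1,t0+1) with `E_c = E`.
-/

set_option autoImplicit false

namespace Pool.Agent.Lib.MP_767201_co.SE

private theorem T2_step {ε N₁ N₂ : Type} (E : Finset ε) (s0 t0 : ℕ) (a : ℕ → ε → N₁) (b : ℕ → ε → N₂) (d : ℕ)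
    (hd : 1 ≤ d) :
    ∀ (n s t : ℕ), s + t = n → s ≤ s0 + 1 → t ≤ t0 + 1 → ∀ Ec ⊆ E, (s ≤ s0 → ∀ x, fib Ec (a s) x ≤ 2 * d) →
      (t ≤ t0 → ∀ x, fib Ec (b t) x ≤ 2 * d) →
      2 * d * (8 * d) ^ (s + t) * (nim E (a 0) + nim E (b 0)) < Ec.card →
      ∃ s ≤ s0, ∃ t ≤ t0, ∃ E' ⊆ E, d * (nim E' (a s) + nim E' (b t)) < E'.card ∧
        (s < s0 → Set.InjOn (a (s + 1)) (E' : Set ε)) ∧ (t < t0 → Set.InjOn (b (t + 1)) (E' : Set ε)) := by
  intro n
  induction n with
  | zero =>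
    intro s t hst _ _ Ec hEc hfa _ hlt
    have hs : s = 0 := by omega
    subst hs
    exfalso
    have h1 := card_le_of_fib Ec (a 0) (2 * d) (hfa (Nat.zero_le _))
    have h2 := nim_mono hEc (a 0)
    have h3 : 1 ≤ (8 * d) ^ (0 + t) := Nat.one_le_pow _ _ (by omega)
    have h4 : Ec.card ≤ 2 * d * (nim E (a 0) + nim E (b 0)) :=
      h1.trans (Nat.mul_le_mul_left _ (by omega))
    have h5 : 2 * d * 1 * (nim E (a 0) + nim E (b 0)) ≤ 2 * d * (8 * d) ^ (0 + t) * (nim E (a 0) + nim E (b 0)) :=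
      Nat.mul_le_mul_right _ (Nat.mul_le_mul_left _ h3)
    rw [mul_one] at h5
    omega
  | succ n ih =>
    intro s t hst hs ht Ec hEc hfa hfb hlt
    rcases Nat.eq_zero_or_pos s with hs0 | hs0
    · subst hs0
      exfalso
      have h1 := card_le_of_fib Ec (a 0) (2 * d) (hfa (Nat.zero_le _))
      have h2 := nim_mono hEc (a 0)
      have h3 : 1 ≤ (8 * d) ^ (0 + t) := Nat.one_le_pow _ _ (by omega)
      have h4 : Ec.card ≤ 2 * d * (nim E (a 0) + nim E (b 0)) :=
        h1.trans (Nat.mul_le_mul_left _ (by omega))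
      have h5 : 2 * d * 1 * (nim E (a 0) + nim E (b 0)) ≤ 2 * d * (8 * d) ^ (0 + t) * (nim E (a 0) + nim E (b 0)) :=
        Nat.mul_le_mul_right _ (Nat.mul_le_mul_left _ h3)
      rw [mul_one] at h5
      omega
    rcases Nat.eq_zero_or_pos t with ht0 | ht0
    · subst ht0
      exfalso
      have h1 := card_le_of_fib Ec (b 0) (2 * d) (hfb (Nat.zero_le _))
      have h2 := nim_mono hEc (b 0)
      have h3 : 1 ≤ (8 * d) ^ (s + 0) := Nat.one_le_pow _ _ (by omega)
      have h4 : Ec.card ≤ 2 * d * (nim E (a 0) + nim E (b 0)) :=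
        h1.trans (Nat.mul_le_mul_left _ (by omega))
      have h5 : 2 * d * 1 * (nim E (a 0) + nim E (b 0)) ≤ 2 * d * (8 * d) ^ (s + 0) * (nim E (a 0) + nim E (b 0)) :=
        Nat.mul_le_mul_right _ (Nat.mul_le_mul_left _ h3)
      rw [mul_one] at h5
      omega
    obtain ⟨s', rfl⟩ : ∃ s', s = s' + 1 := ⟨s - 1, by omega⟩
    obtain ⟨t', rfl⟩ : ∃ t', t = t' + 1 := ⟨t - 1, by omega⟩
    have hE1 : ∃ E₁ ⊆ Ec, Ec.card ≤ 2 * (2 * d) * E₁.card ∧
        (s' + 1 ≤ s0 → Set.InjOn (a (s' + 1)) (E₁ : Set ε)) ∧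
        (t' + 1 ≤ t0 → Set.InjOn (b (t' + 1)) (E₁ : Set ε)) := by
      by_cases h1 : s' + 1 ≤ s0
      · by_cases h2 : t' + 1 ≤ t0
        · obtain ⟨E₁, h3, h4, h5, h6⟩ := transversal₂ Ec (a (s' + 1)) (b (t' + 1)) (2 * d) (hfa h1) (hfb h2)
          exact ⟨E₁, h3, h6, fun _ => h4, fun _ => h5⟩
        · obtain ⟨E₁, h3, h4, h5⟩ := transversal₁ Ec (a (s' + 1)) (2 * d) (hfa h1)
          refine ⟨E₁, h3, h5.trans ?_, fun _ => h4, fun h => absurd h h2⟩
          exact Nat.mul_le_mul_right _ (by omega)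
      · by_cases h2 : t' + 1 ≤ t0
        · obtain ⟨E₁, h3, h4, h5⟩ := transversal₁ Ec (b (t' + 1)) (2 * d) (hfb h2)
          refine ⟨E₁, h3, h5.trans ?_, fun h => absurd h h1, fun _ => h4⟩
          exact Nat.mul_le_mul_right _ (by omega)
        · refine ⟨Ec, Finset.Subset.refl _, ?_, fun h => absurd h h1, fun h => absurd h h2⟩
          calc Ec.card = 1 * Ec.card := (one_mul _).symm
            _ ≤ 2 * (2 * d) * Ec.card := Nat.mul_le_mul_right _ (by omega)
    obtain ⟨E₁, hE₁, hcard, hia, hib⟩ := hE1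
    by_cases hex : ∃ E' ⊆ E₁, d * (nim E' (a s') + nim E' (b t')) < E'.card
    · obtain ⟨E', hE', hlt'⟩ := hex
      refine ⟨s', by omega, t', by omega, E', hE'.trans (hE₁.trans hEc), hlt', ?_, ?_⟩
      · intro h
        exact (hia (by omega)).mono (by exact_mod_cast hE')
      · intro h
        exact (hib (by omega)).mono (by exact_mod_cast hE')
    · have hex' : ∀ E' ⊆ E₁, E'.card ≤ d * (nim E' (a s') + nim E' (b t')) := by
        intro E' hE'
        by_contra hc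
        exact hex ⟨E', hE', by omega⟩
      obtain ⟨F₁, F₂, hF₁, hF₂, hF, hf₁, hf₂⟩ := orient E₁ (a s') (b t') d hex'
      classical
      have hsum : E₁.card ≤ F₁.card + F₂.card := by
        calc E₁.card ≤ (F₁ ∪ F₂).card := Finset.card_le_card (by
                intro e he
                exact Finset.mem_union.mpr (hF e he))
          _ ≤ F₁.card + F₂.card := Finset.card_union_le _ _
      have hpow : (8 * d) ^ (s' + 1 + (t' + 1)) = (8 * d) ^ (s' + t' + 1) * (8 * d) := by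
        rw [← pow_succ]
        congr 1
        omega
      rw [hpow] at hlt
      have key : ∀ F : Finset ε, E₁.card ≤ 2 * F.card →
          2 * d * (8 * d) ^ (s' + t' + 1) * (nim E (a 0) + nim E (b 0)) < F.card := by
        intro F hFc
        have h1 : Ec.card ≤ (8 * d) * F.card := by
          calc Ec.card ≤ 2 * (2 * d) * E₁.card := hcard
            _ ≤ 2 * (2 * d) * (2 * F.card) := Nat.mul_le_mul_left _ hFc
            _ = (8 * d) * F.card := by ring
        have h2 : (8 * d) * (2 * d * (8 * d) ^ (s' + t' + 1) * (nim E (a 0) + nim E (b 0))) <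
            (8 * d) * F.card := by
          calc (8 * d) * (2 * d * (8 * d) ^ (s' + t' + 1) * (nim E (a 0) + nim E (b 0)))
              = 2 * d * ((8 * d) ^ (s' + t' + 1) * (8 * d)) * (nim E (a 0) + nim E (b 0)) := by ring
            _ < Ec.card := hlt
            _ ≤ (8 * d) * F.card := h1
        exact Nat.lt_of_mul_lt_mul_left h2
      rcases Nat.le_total F₂.card F₁.card with h | h
      · have hk := key F₁ (by omega)
        refine ih s' (t' + 1) (by omega) (by omega) ht F₁ (hF₁.trans (hE₁.trans hEc)) (fun _ => hf₁) ?_ ?_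
        · intro h2 x
          exact (fib_mono (hF₁.trans hE₁) (b (t' + 1)) x).trans (hfb h2 x)
        · rw [← add_assoc]
          exact hk
      · have hk := key F₂ (by omega)
        refine ih (s' + 1) t' (by omega) hs (by omega) F₂ (hF₂.trans (hE₁.trans hEc)) ?_ (fun _ => hf₂) ?_
        · intro h2 x
          exact (fib_mono (hF₂.trans hE₁) (a (s' + 1)) x).trans (hfa h2 x)
        · rw [show s' + 1 + t' = s' + t' + 1 by omega]
          exact hk

theorem core {ε N₁ N₂ : Type} (E : Finset ε) (s0 t0 : ℕ) (a : ℕ → ε → N₁) (b : ℕ → ε → N₂) (d : ℕ) (hd : 1 ≤ d)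
    (hE : 2 * d * (8 * d) ^ (s0 + t0 + 2) * (nim E (a 0) + nim E (b 0)) < E.card) :
    ∃ s ≤ s0, ∃ t ≤ t0, ∃ E' ⊆ E, d * (nim E' (a s) + nim E' (b t)) < E'.card ∧
      (s < s0 → Set.InjOn (a (s + 1)) (E' : Set ε)) ∧ (t < t0 → Set.InjOn (b (t + 1)) (E' : Set ε)) := by
  refine T2_step E s0 t0 a b d hd (s0 + 1 + (t0 + 1)) (s0 + 1) (t0 + 1) rfl le_rfl le_rfl E
    (Finset.Subset.refl _) (fun h => absurd h (by omega)) (fun h => absurd h (by omega)) ?_
  rw [show s0 + 1 + (t0 + 1) = s0 + t0 + 2 by omega]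
  exact hE

end Pool.Agent.Lib.MP_767201_co.SE
end

section

/-!
# TASK SE T5: dense shallow minors give path systems

`pigeon`: if `f` takes at most `n` values on `E` (all values in the finset `Y`, `Y.card ≤ n`) there is a value with `E.card ≤ n * (fibre).card`.

Proof of `paths`. If `d = 0` one can use `d = 1` (monotone), so let `d ≥ 1`. `C := 2 (r+1)^2 * (2d (8d)^(2r+2) + 1)`. Take `Bs, c, lev, anc` from `ancestors` and `T` from `cut`. `ε := W × W`, `E₀ := {p | p.1 ∈ T, p.2 ∉ T, H.Adj p.1 p.2}` as a finset;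
`H.edgeSet.ncard ≤ 2 E₀.card`. For `p ∈ E₀` choose `x p ∈ Bs p.1`, `y p ∈ Bs p.2`, `B.Adj (x p) (y p)`. Pigeonhole on `(lev (x p), lev (y p)) ∈ [0,r]²`: `E ⊆ E₀`, `lev (x p) = s0`, `lev (y p) = t0` on `E`,
`E₀.card ≤ (r+1)^2 E.card`. `a s p := anc s (x p)`, `b t p := anc t (y p)`. `nim E (a 0) + nim E (b 0) ≤ Nat.card W`: the values of `a 0` are `c w`, `w ∈ T`, those of `b 0` are `c w`, `w ∉ T`. So
`2d (8d)^(s0+t0+2) (nim E (a 0) + nim E (b 0)) < E.card` (as `C * Nat.card W < 2 (r+1)^2 E.card`, `s0 + t0 ≤ 2r`). `core` gives `s ≤ s0`, `t ≤ t0`, `E'`.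
`q := (s0 - s) + (t0 - t)`; `P i p := a (s + i) p` for `i ≤ s0 - s`, `P i p := b (t0 - (i - (s0 - s + 1))) p` for `i > s0 - s`. So `P 0 = a s`, `P (s0 - s) p = x p`, `P (s0 - s + 1) p = y p`, `P (q+1) = b t`.
Adjacent: `anc s x ~ anc (s+1) x`, `x p ~ y p`. Injective for `1 ≤ i ≤ q`: if `i ≤ s0 - s`, `i ≥ 1`: `a (s+i) p = a (s+i) p'` gives `a (s+1) p = a (s+1) p'` (tree property, going down), `p = p'`; the same for `b`.
Ends: `a s p = a s p'` lies in `Bs p.1` and in `Bs p'.1`, so `p.1 = p'.1` (disjoint); `b t p = b t p'` gives `p.2 = p'.2`.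
-/

set_option autoImplicit false

namespace Pool.Agent.Lib.MP_767201_co.SE

private theorem T5_down {X : Type} (anc : ℕ → X → X) (lev : X → ℕ) {x x' : X}
    (h : ∀ s, s < lev x → s < lev x' → anc (s + 1) x = anc (s + 1) x' → anc s x = anc s x')
    (s : ℕ) : ∀ m, s + m ≤ lev x → s + m ≤ lev x' → anc (s + m) x = anc (s + m) x' →
      anc s x = anc s x' := by
  intro m
  induction m with
  | zero => exact fun _ _ h3 => h3
  | succ m ih =>
    intro h1 h2 h3
    refine ih (by omega) (by omega) (h (s + m) (by omega) (by omega) ?_)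
    rw [add_assoc]
    exact h3

theorem pigeon {ε N : Type} [DecidableEq N] (E : Finset ε) (f : ε → N) (Y : Finset N) (n : ℕ) (hY : Y.card ≤ n)
    (hf : ∀ e ∈ E, f e ∈ Y) (hE : E.Nonempty) :
    ∃ y ∈ Y, ∃ E' ⊆ E, (∀ e ∈ E', f e = y) ∧ E.card ≤ n * E'.card := by
  obtain ⟨e₀, he₀⟩ := hE
  obtain ⟨y, hy, hmax⟩ := Finset.exists_max_image Y (fun y => (E.filter fun e => f e = y).card)
    ⟨f e₀, hf e₀ he₀⟩
  refine ⟨y, hy, E.filter fun e => f e = y, Finset.filter_subset _ _,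
    fun e he => (Finset.mem_filter.1 he).2, ?_⟩
  rw [Finset.card_eq_sum_card_fiberwise hf]
  refine (Finset.sum_le_card_nsmul Y _ _ hmax).trans ?_
  rw [smul_eq_mul]
  exact Nat.mul_le_mul_right _ hY

theorem paths (r d : ℕ) :
    ∃ C : ℕ, ∀ (X W : Type) [Finite X] [Finite W] (B : SimpleGraph X) (H : SimpleGraph W), ShallowMinor r H B →
      C * Nat.card W < H.edgeSet.ncard →
      ∃ q ≤ 2 * r, ∃ (ε : Type) (E : Finset ε) (P : ℕ → ε → X),
        (∀ i ≤ q, ∀ e ∈ E, B.Adj (P i e) (P (i + 1) e)) ∧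
        (∀ i, 1 ≤ i → i ≤ q → Set.InjOn (P i) (E : Set ε)) ∧
        (∀ e ∈ E, ∀ e' ∈ E, P 0 e = P 0 e' → P (q + 1) e = P (q + 1) e' → e = e') ∧
        d * (nim E (P 0) + nim E (P (q + 1))) < E.card := by
  classical
  set d₁ := d + 1 with hd₁
  refine ⟨2 * (r + 1) ^ 2 * (2 * d₁ * (8 * d₁) ^ (2 * r + 2)), fun X W _ _ B H hm hC => ?_⟩
  obtain ⟨Bs, c, lev, anc, hdis, hc, hadj, hanc, htree⟩ := ancestors hm
  obtain ⟨T, hT⟩ := cut H
  set E₀ : Finset (W × W) :=
    (Set.toFinite {p : W × W | p.1 ∈ T ∧ p.2 ∉ T ∧ H.Adj p.1 p.2}).toFinset with hE₀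
  have hmem : ∀ p, p ∈ E₀ ↔ p.1 ∈ T ∧ p.2 ∉ T ∧ H.Adj p.1 p.2 := fun p => by
    rw [hE₀, Set.Finite.mem_toFinset]
    exact Iff.rfl
  have hcard : Set.ncard {p : W × W | p.1 ∈ T ∧ p.2 ∉ T ∧ H.Adj p.1 p.2} = E₀.card := by
    rw [Set.ncard_eq_toFinset_card _ (Set.toFinite _)]
  rw [hcard] at hT
  have hne : E₀.Nonempty := by
    rw [← Finset.card_pos]
    by_contra h0
    have h1 : E₀.card = 0 := by omega
    rw [h1] at hT
    omega
  obtain ⟨p₀, hp₀⟩ := hne
  have : Nonempty (X × X) := ⟨(c p₀.1, c p₀.1)⟩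
  have hxy : ∀ p : W × W, H.Adj p.1 p.2 → ∃ z : X × X, z.1 ∈ Bs p.1 ∧ z.2 ∈ Bs p.2 ∧
      B.Adj z.1 z.2 := fun p hp => by
    obtain ⟨x, hx, y, hy, h1⟩ := hadj _ _ hp
    exact ⟨(x, y), hx, hy, h1⟩
  choose! z hz1 hz2 hz3 using hxy
  obtain ⟨⟨s0, t0⟩, hst, E, hEs, hlev, hEc⟩ := pigeon E₀ (fun p => (lev (z p).1, lev (z p).2))
    (Finset.range (r + 1) ×ˢ Finset.range (r + 1)) ((r + 1) ^ 2)
    (by rw [Finset.card_product, Finset.card_range, pow_two]) (fun p hp => by
      have h1 := ((hmem p).1 hp).2.2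
      rw [Finset.mem_product, Finset.mem_range, Finset.mem_range]
      exact ⟨Nat.lt_succ_of_le (hanc _ _ (hz1 p h1)).1, Nat.lt_succ_of_le (hanc _ _ (hz2 p h1)).1⟩)
    ⟨p₀, hp₀⟩
  rw [Finset.mem_product, Finset.mem_range, Finset.mem_range] at hst
  have hs0 : s0 ≤ r := Nat.le_of_lt_succ hst.1
  have ht0 : t0 ≤ r := Nat.le_of_lt_succ hst.2
  have hE : ∀ p ∈ E, p.1 ∈ T ∧ p.2 ∉ T ∧ H.Adj p.1 p.2 := fun p hp => (hmem p).1 (hEs hp)
  have hl1 : ∀ p ∈ E, lev (z p).1 = s0 := fun p hp => congrArg Prod.fst (hlev p hp)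
  have hl2 : ∀ p ∈ E, lev (z p).2 = t0 := fun p hp => congrArg Prod.snd (hlev p hp)
  have hnim : nim E (fun p => anc 0 (z p).1) + nim E (fun p => anc 0 (z p).2) ≤ Nat.card W := by
    have h1 : nim E (fun p => anc 0 (z p).1) ≤ T.ncard := by
      unfold nim
      refine le_trans (Set.ncard_le_ncard ?_ ((Set.toFinite T).image c)) (Set.ncard_image_le
        (Set.toFinite T))
      rintro _ ⟨p, hp, rfl⟩
      have h2 := hE p hp
      exact ⟨p.1, h2.1, (hanc _ _ (hz1 p h2.2.2)).2.2.1.symm⟩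
    have h1' : nim E (fun p => anc 0 (z p).2) ≤ Tᶜ.ncard := by
      unfold nim
      refine le_trans (Set.ncard_le_ncard ?_ ((Set.toFinite Tᶜ).image c)) (Set.ncard_image_le
        (Set.toFinite Tᶜ))
      rintro _ ⟨p, hp, rfl⟩
      have h2 := hE p hp
      exact ⟨p.2, h2.2.1, (hanc _ _ (hz2 p h2.2.2)).2.2.1.symm⟩
    have h3 := Set.ncard_add_ncard_compl T
    omega
  have hbig : 2 * d₁ * (8 * d₁) ^ (s0 + t0 + 2) * (nim E (fun p => anc 0 (z p).1) +
      nim E (fun p => anc 0 (z p).2)) < E.card := by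
    have h1 : 2 * (r + 1) ^ 2 * (2 * d₁ * (8 * d₁) ^ (2 * r + 2) * Nat.card W) <
        2 * (r + 1) ^ 2 * E.card := by
      calc 2 * (r + 1) ^ 2 * (2 * d₁ * (8 * d₁) ^ (2 * r + 2) * Nat.card W)
          = 2 * (r + 1) ^ 2 * (2 * d₁ * (8 * d₁) ^ (2 * r + 2)) * Nat.card W := by ring
        _ < H.edgeSet.ncard := hC
        _ ≤ 2 * E₀.card := hT
        _ ≤ 2 * ((r + 1) ^ 2 * E.card) := Nat.mul_le_mul_left _ hEc
        _ = 2 * (r + 1) ^ 2 * E.card := by ring
    have h2 := Nat.lt_of_mul_lt_mul_left h1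
    refine lt_of_le_of_lt (Nat.mul_le_mul (Nat.mul_le_mul_left _ ?_) hnim) h2
    exact Nat.pow_le_pow_right (by omega) (by omega)
  obtain ⟨s, hs, t, ht, E', hE', hd, hi1, hi2⟩ := core E s0 t0 (fun s p => anc s (z p).1)
    (fun t p => anc t (z p).2) d₁ (by omega) hbig
  set P : ℕ → W × W → X := fun i p =>
    if i ≤ s0 - s then anc (s + i) (z p).1 else anc (t0 - (i - (s0 - s + 1))) (z p).2 with hP
  have P1 : ∀ i, i ≤ s0 - s → ∀ p, P i p = anc (s + i) (z p).1 := fun i hi p => if_pos hi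
  have P2 : ∀ i, s0 - s < i → ∀ p, P i p = anc (t0 - (i - (s0 - s + 1))) (z p).2 :=
    fun i hi p => if_neg (not_le.2 hi)
  have P0 : P 0 = fun p => anc s (z p).1 := funext fun p => by rw [P1 0 (Nat.zero_le _), add_zero]
  have Pq : P (s0 - s + (t0 - t) + 1) = fun p => anc t (z p).2 := funext fun p => by
    rw [P2 _ (by omega)]
    congr 1
    omega
  refine ⟨s0 - s + (t0 - t), by omega, W × W, E', P, ?_, ?_, ?_, ?_⟩
  · intro i hi p hp
    have hpE := hE' hp
    have hH := (hE p hpE).2.2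
    have a1 := hanc _ _ (hz1 p hH)
    have a2 := hanc _ _ (hz2 p hH)
    rcases lt_trichotomy i (s0 - s) with h1 | h1 | h1
    · rw [P1 i h1.le, P1 (i + 1) h1]
      exact a1.2.2.2.2 (s + i) (by rw [hl1 p hpE]; omega)
    · rw [P1 i h1.le, P2 (i + 1) (by omega)]
      have e1 : s + i = lev (z p).1 := by rw [hl1 p hpE]; omega
      have e2 : t0 - (i + 1 - (s0 - s + 1)) = lev (z p).2 := by rw [hl2 p hpE]; omega
      rw [e1, e2, a1.2.1, a2.2.1]
      exact hz3 p hH
    · rw [P2 i h1, P2 (i + 1) (by omega)]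
      have e1 : t0 - (i - (s0 - s + 1)) = t0 - (i + 1 - (s0 - s + 1)) + 1 := by omega
      rw [e1]
      exact (a2.2.2.2.2 (t0 - (i + 1 - (s0 - s + 1))) (by rw [hl2 p hpE]; omega)).symm
  · intro i hi1' hiq p hp p' hp' heq
    have hpE := hE' hp
    have hpE' := hE' hp'
    have hH := (hE p hpE).2.2
    have hH' := (hE p' hpE').2.2
    rcases le_or_gt i (s0 - s) with h1 | h1
    · rw [P1 i h1, P1 i h1] at heq
      refine hi1 (by omega) hp hp' ?_
      refine T5_down anc lev (htree _ _ (hz1 p hH) _ _ (hz1 p' hH')) (s + 1) (i - 1)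
        (by rw [hl1 p hpE]; omega) (by rw [hl1 p' hpE']; omega) ?_
      have e1 : s + 1 + (i - 1) = s + i := by omega
      rw [e1]
      exact heq
    · rw [P2 i h1, P2 i h1] at heq
      refine hi2 (by omega) hp hp' ?_
      refine T5_down anc lev (htree _ _ (hz2 p hH) _ _ (hz2 p' hH')) (t + 1)
        (t0 - (i - (s0 - s + 1)) - (t + 1))
        (by rw [hl2 p hpE]; omega) (by rw [hl2 p' hpE']; omega) ?_
      have e1 : t + 1 + (t0 - (i - (s0 - s + 1)) - (t + 1)) = t0 - (i - (s0 - s + 1)) := by omega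
      rw [e1]
      exact heq
  · intro p hp p' hp' h0 h1
    rw [P0] at h0
    rw [Pq] at h1
    have hpE := hE' hp
    have hpE' := hE' hp'
    have hH := (hE p hpE).2.2
    have hH' := (hE p' hpE').2.2
    have b1 := (hanc _ _ (hz1 p hH)).2.2.2.1 s (by rw [hl1 p hpE]; exact hs)
    have b1' := (hanc _ _ (hz1 p' hH')).2.2.2.1 s (by rw [hl1 p' hpE']; exact hs)
    have b2 := (hanc _ _ (hz2 p hH)).2.2.2.1 t (by rw [hl2 p hpE]; exact ht)
    have b2' := (hanc _ _ (hz2 p' hH')).2.2.2.1 t (by rw [hl2 p' hpE']; exact ht)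
    refine Prod.ext ?_ ?_
    · by_contra hne
      refine Set.disjoint_left.1 (hdis _ _ hne) b1 ?_
      have h2 : anc s (z p).1 = anc s (z p').1 := h0
      rw [h2]
      exact b1'
    · by_contra hne
      refine Set.disjoint_left.1 (hdis _ _ hne) b2 ?_
      have h2 : anc t (z p).2 = anc t (z p').2 := h1
      rw [h2]
      exact b2'
  · rw [P0, Pq]
    exact lt_of_le_of_lt (Nat.mul_le_mul_right _ (Nat.le_succ d)) hd

end Pool.Agent.Lib.MP_767201_co.SE
end
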