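import Pool.Agent.Lib.MP_767201_co.Mg.G005
import Pool.Agent.Lib.MP_767201_co.Mg.G008
import Pool.Agent.Lib.MP_767201_co.Mg.G003
import Pool.Agent.Lib.MP_767201_co.Mg.G004

section

/-!
# TASK SE L1: label path systems from dense shallow minors of the incidence graph

Proof of `lps_of_paths`. `raw_ends` with `d' := d (k+1)^(q+2)`: `m`, `E'`. Define `z i e` as the `g` with `P (2i) e = Sum.inr g` and `v i e` as the `x` with `P (2i+1) e = Sum.inl x` (for `e ∈ E'`; arbitrary otherwise: `E'` is nonempty, so `V`, `Γ` have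
elements; `m ≥ 1`). Adjacency in `BG A` gives `z i e ∈ A (v i e)`, `z (i+1) e ∈ A (v i e)` for `i < m`. `z i` is injective on `E'` for `1 ≤ i < m` as `P (2i)` is (`1 ≤ 2i ≤ q`). Pigeonhole (`pigeon`) for `e ↦ (fun i : Fin (m+1) => len (z i e))` with values in the
functions into `Finset.Icc 1 k` (`Fintype.piFinset`, cardinality `k^(m+1) ≤ (k+1)^(q+2)`): `E'' ⊆ E'`, `E'.card ≤ (k+1)^(q+2) E''.card`, with constant lengths `l i` on `E''` (`l i := 0` for `i > m`). Then `LPS A len m l E'' z v`, and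
`d (nim E'' (z 0) + nim E'' (z m)) ≤ d (nim E (P 0) + nim E (P (q+1))) ≤ E''.card` (`z 0 e` is determined by `P 0 e`). `sumL m l ≤ k (m+1)`.
`lps_of_minor`: `paths` with `d := d (k+1)^(2r+2) + K`, then `lps_of_paths` (`q ≤ 2r`, `m ≤ q+1`; monotone in the density).
-/

set_option autoImplicit false

namespace Pool.Agent.Lib.MP_767201_co.SE

private theorem L1_adj {V Γ : Type} {A : V → Finset Γ} {x : V} {g : Γ}
    (h : (BG A).Adj (Sum.inl x) (Sum.inr g)) : g ∈ A x := by
  rcases h with ⟨v, g', h1, h2, h3⟩ | ⟨v, g', h1, h2, _⟩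
  · rw [Sum.inl.inj h1, Sum.inr.inj h2]
    exact h3
  · exact absurd h1 (by simp)

private theorem L1_nim {V Γ ε : Type} (E E' : Finset ε) (hE : E' ⊆ E) (f : ε → V ⊕ Γ) (g : ε → Γ)
    (h : ∀ e ∈ E', f e = Sum.inr (g e)) : nim E' g ≤ nim E f := by
  unfold nim
  rw [← Set.ncard_image_of_injective (g '' (E' : Set ε)) (Sum.inr_injective (α := V) (β := Γ))]
  refine Set.ncard_le_ncard ?_ ((E.finite_toSet).image f)
  rintro _ ⟨_, ⟨e, he, rfl⟩, rfl⟩
  exact ⟨e, hE he, h e he⟩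

theorem lps_of_paths {V Γ ε : Type} (A : V → Finset Γ) (len : Γ → ℕ) (K k d q : ℕ) (hK : ∀ x, (A x).card ≤ K)
    (hlen : ∀ x, ∀ g ∈ A x, 1 ≤ len g ∧ len g ≤ k) (E : Finset ε)
    (P : ℕ → ε → V ⊕ Γ) (hadj : ∀ i ≤ q, ∀ e ∈ E, (BG A).Adj (P i e) (P (i + 1) e))
    (hinj : ∀ i, 1 ≤ i → i ≤ q → Set.InjOn (P i) (E : Set ε))
    (hends : ∀ e ∈ E, ∀ e' ∈ E, P 0 e = P 0 e' → P (q + 1) e = P (q + 1) e' → e = e')
    (hd : (d * (k + 1) ^ (q + 2) + K) * (nim E (P 0) + nim E (P (q + 1))) < E.card) :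
    ∃ (m : ℕ) (l : ℕ → ℕ) (E' : Finset ε) (z : ℕ → ε → Γ) (v : ℕ → ε → V), m ≤ q + 1 ∧ LPS A len m l E' z v ∧
      Dense d E' z m ∧ sumL m l ≤ k * (m + 1) := by
  classical
  obtain ⟨m, hm, E', hE', hne, hcard, hP⟩ := raw_ends A K (d * (k + 1) ^ (q + 2)) q hK E P hadj hinj hends hd
  obtain ⟨e0, he0⟩ := hne
  have hm1 : 1 ≤ m := by omega
  obtain ⟨g0, _⟩ := (hP e0 he0).1 0 (Nat.zero_le _)
  obtain ⟨x0, _⟩ := (hP e0 he0).2 0 (by omega)
  set z : ℕ → ε → Γ := fun i e => Sum.elim (fun _ => g0) id (P (2 * i) e) with hz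
  set v : ℕ → ε → V := fun i e => Sum.elim id (fun _ => x0) (P (2 * i + 1) e) with hv
  have hPz : ∀ e ∈ E', ∀ i ≤ m, P (2 * i) e = Sum.inr (z i e) := by
    intro e he i hi
    obtain ⟨g, hg⟩ := (hP e he).1 i hi
    simp only [hz, hg, Sum.elim_inr, id]
  have hPv : ∀ e ∈ E', ∀ i < m, P (2 * i + 1) e = Sum.inl (v i e) := by
    intro e he i hi
    obtain ⟨x, hx⟩ := (hP e he).2 i hi
    simp only [hv, hx, Sum.elim_inl, id]
  have hL : ∀ i < m, ∀ e ∈ E', z i e ∈ A (v i e) := by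
    intro i hi e he
    have h1 := hadj (2 * i) (by omega) e (hE' he)
    rw [hPz e he i hi.le, hPv e he i hi] at h1
    exact L1_adj h1.symm
  have hR : ∀ i < m, ∀ e ∈ E', z (i + 1) e ∈ A (v i e) := by
    intro i hi e he
    have h1 := hadj (2 * i + 1) (by omega) e (hE' he)
    have h2 : 2 * i + 1 + 1 = 2 * (i + 1) := by ring
    rw [h2, hPz e he (i + 1) hi, hPv e he i hi] at h1
    exact L1_adj h1
  have hlz : ∀ i ≤ m, ∀ e ∈ E', len (z i e) ∈ Finset.Icc 1 k := by
    intro i hi e he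
    rw [Finset.mem_Icc]
    rcases Nat.lt_or_ge i m with h1 | h1
    · exact hlen _ _ (hL i h1 e he)
    · have h2 : i = (m - 1) + 1 := by omega
      rw [h2]
      exact hlen _ _ (hR (m - 1) (by omega) e he)
  set Y : Finset (Fin (m + 1) → ℕ) := Fintype.piFinset fun _ => Finset.Icc 1 k with hY
  have hYc : Y.card ≤ (k + 1) ^ (q + 2) := by
    rw [hY, Fintype.card_piFinset, Finset.prod_const, Finset.card_univ, Fintype.card_fin, Nat.card_Icc,
      Nat.add_sub_cancel]
    exact (Nat.pow_le_pow_left (Nat.le_succ k) _).trans (Nat.pow_le_pow_right (Nat.succ_pos k) (by omega))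
  obtain ⟨y, hy, E'', hE'', hy', hc⟩ := pigeon E' (fun e => fun i : Fin (m + 1) => len (z i e)) Y
    ((k + 1) ^ (q + 2)) hYc (fun e he => by
      rw [hY, Fintype.mem_piFinset]
      intro i
      exact hlz i (by have := i.2; omega) e he) ⟨e0, he0⟩
  set l : ℕ → ℕ := fun i => if h : i < m + 1 then y ⟨i, h⟩ else 0 with hl
  have hEE : E'' ⊆ E := hE''.trans hE'
  have hpos : 0 < (k + 1) ^ (q + 2) := pow_pos (Nat.succ_pos k) _
  refine ⟨m, l, E'', z, v, by omega, ⟨hm1, fun i hi e he => hL i hi e (hE'' he),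
    fun i hi e he => hR i hi e (hE'' he), ?_, ?_, ?_⟩, ⟨?_, ?_⟩, ?_⟩
  · intro i hi e he
    have h1 := congrFun (hy' e he) ⟨i, by omega⟩
    change len (z i e) = l i
    rw [hl]
    change _ = dite _ _ _
    rw [dif_pos (by omega : i < m + 1)]
    exact h1
  · intro i hi hi' e he e' he' h1
    refine hinj (2 * i) (by omega) (by omega) (hEE he) (hEE he') ?_
    rw [hPz e (hE'' he) i hi'.le, hPz e' (hE'' he') i hi'.le, h1]
  · intro e he e' he' h1 h2
    refine hends e (hEE he) e' (hEE he') ?_ ?_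
    · have h3 := hPz e (hE'' he) 0 (Nat.zero_le _)
      have h4 := hPz e' (hE'' he') 0 (Nat.zero_le _)
      rw [Nat.mul_zero] at h3 h4
      rw [h3, h4, h1]
    · rw [hm, hPz e (hE'' he) m le_rfl, hPz e' (hE'' he') m le_rfl, h2]
  · rw [← Finset.card_pos]
    by_contra h1
    have h2 : E''.card = 0 := by omega
    rw [h2, Nat.mul_zero] at hc
    have h3 : 0 < E'.card := Finset.card_pos.2 ⟨e0, he0⟩
    omega
  · have h1 : nim E'' (z 0) ≤ nim E (P 0) := L1_nim E E'' hEE (P 0) (z 0) fun e he => by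
      have h3 := hPz e (hE'' he) 0 (Nat.zero_le _)
      rwa [Nat.mul_zero] at h3
    have h2 : nim E'' (z m) ≤ nim E (P (q + 1)) := L1_nim E E'' hEE _ (z m) fun e he => by
      rw [hm]
      exact hPz e (hE'' he) m le_rfl
    have h3 : (k + 1) ^ (q + 2) * (d * (nim E (P 0) + nim E (P (q + 1)))) ≤ (k + 1) ^ (q + 2) * E''.card := by
      refine le_trans (le_of_eq ?_) (hcard.trans hc)
      ring
    have h4 := Nat.le_of_mul_le_mul_left h3 hpos
    exact (Nat.mul_le_mul_left d (Nat.add_le_add h1 h2)).trans h4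
  · unfold sumL
    have h1 : ∀ i ∈ Finset.range (m + 1), l i ≤ k := by
      intro i hi
      have hi' := Finset.mem_range.1 hi
      rw [hl]
      change dite _ _ _ ≤ k
      rw [dif_pos hi']
      exact (Finset.mem_Icc.1 (Fintype.mem_piFinset.1 hy ⟨i, hi'⟩)).2
    refine (Finset.sum_le_sum h1).trans (le_of_eq ?_)
    rw [Finset.sum_const, Finset.card_range, smul_eq_mul, mul_comm]

theorem lps_of_minor (r K k d : ℕ) :
    ∃ C : ℕ, ∀ (V Γ W : Type) [Finite V] [Finite Γ] [Finite W] (A : V → Finset Γ) (len : Γ → ℕ) (H : SimpleGraph W),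
      (∀ x, (A x).card ≤ K) → (∀ x, ∀ g ∈ A x, 1 ≤ len g ∧ len g ≤ k) → ShallowMinor r H (BG A) →
      C * Nat.card W < H.edgeSet.ncard →
      ∃ (m : ℕ) (l : ℕ → ℕ) (ε : Type) (E : Finset ε) (z : ℕ → ε → Γ) (v : ℕ → ε → V), m ≤ 2 * r + 1 ∧
        LPS A len m l E z v ∧ Dense d E z m ∧ sumL m l ≤ k * (m + 1) := by
  obtain ⟨C, hC⟩ := paths r (d * (k + 1) ^ (2 * r + 2) + K)
  refine ⟨C, ?_⟩
  intro V Γ W _ _ _ A len H hK hlen hM hcard
  obtain ⟨q, hq, ε, E, P, h1, h2, h3, h4⟩ := hC (V ⊕ Γ) W (BG A) H hM hcard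
  have h5 : (k + 1) ^ (q + 2) ≤ (k + 1) ^ (2 * r + 2) := Nat.pow_le_pow_right (Nat.succ_pos k) (by omega)
  have h6 : (d * (k + 1) ^ (q + 2) + K) * (nim E (P 0) + nim E (P (q + 1))) < E.card :=
    lt_of_le_of_lt (Nat.mul_le_mul_right _ (Nat.add_le_add_right (Nat.mul_le_mul_left d h5) K)) h4
  obtain ⟨m, l, E', z, v, h7, h8, h9, h10⟩ := lps_of_paths A len K k d q hK hlen E P h1 h2 h3 h6
  exact ⟨m, l, ε, E', z, v, by omega, h8, h9, h10⟩

end Pool.Agent.Lib.MP_767201_co.SE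
end

section

/-!
# TASK SE L3: the normal form

Proof of `step`. If `l s ≤ 1` take `E' = E` (`ConstPar` is void as `len (z s e) = l s`; `dense_mono`). Let `l s ≥ 2`, `c e = par (z s e)`. If there is `E' ⊆ E` with `c` constant and `Dense d E' z m`: done. Otherwise `colour_orient'`: `E₁`, `E₂`.
 - `s = 0`: `end_left`. - `s = m` (`m ≥ 1`): `end_left` for the reversed system (`rev_lps`, `sumL_rev`, `dense_rev`) with `E₁`, `E₂` exchanged.
 - `1 ≤ s < m`: `E.card ≤ 2 E₁.card` or `E.card ≤ 2 E₂.card`. First case: `interior_left`. Second case: `interior_left` for the reversed system at the position `m - s` (the left end of the reversed system is `z m`).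
 (`NoSmaller` depends on `m` and the sum only; `sumL_rev`. Rewriting `m - (m - s) = s`, `m - 0 = m`, `m - m = 0`.)
Proof of `normal`. `d1 := (32 ds²)^(m+1) d`. Induction on `j ≤ m+1`: there is `E_j ⊆ E` with `Dense ((32 ds²)^(m+1-j) d) E_j z m` and constant parents at all positions `i < j`: apply `step` to `E_j` (`sub_lps`), `ConstPar` passes to subsets.
-/

set_option autoImplicit false

namespace Pool.Agent.Lib.MP_767201_co.SE

variable {V Γ ε : Type} {A : V → Finset Γ} {len : Γ → ℕ} {par : Γ → Γ} {m : ℕ} {l : ℕ → ℕ} {E : Finset ε}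
  {z : ℕ → ε → Γ} {v : ℕ → ε → V}

theorem step (hpar : ∀ x, ∀ g ∈ A x, 2 ≤ len g → par g ∈ A x ∧ len (par g) + 1 = len g)
    (hL : LPS A len m l E z v) {s : ℕ} (hs : s ≤ m) {ds d : ℕ} (hds : 1 ≤ ds) (hd : 1 ≤ d)
    (hno : NoSmaller A len m (sumL m l) ds) (hD : Dense (32 * d * ds * ds) E z m) :
    ∃ E' ⊆ E, Dense d E' z m ∧ ConstPar len par E' z s := by
  by_cases hl : 2 ≤ l s
  swap
  · refine ⟨E, Finset.Subset.refl E, dense_mono hD ?_, ?_⟩
    · nlinarith [Nat.mul_le_mul hds hds, Nat.mul_le_mul (le_refl d) (Nat.mul_le_mul hds hds)]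
    · intro e he e' _ h2
      rw [hL.len s hs e he] at h2
      exact absurd h2 hl
  by_contra hcon
  have h : ¬ ∃ E' ⊆ E, (∀ e ∈ E', ∀ e' ∈ E', (fun e => par (z s e)) e = (fun e => par (z s e)) e') ∧
      Dense d E' z m := by
    rintro ⟨E', h1, h2, h3⟩
    exact hcon ⟨E', h1, h3, fun e he e' he' _ => h2 e he e' he'⟩
  obtain ⟨E₁, E₂, h1, h2, hcov, hf1, hf2⟩ := colour_orient' Γ (fun e => par (z s e)) d h
  have hno' : NoSmaller A len m (sumL m (fun i => l (m - i))) ds := by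
    rw [sumL_rev]
    exact hno
  by_cases hs0 : s = 0
  · subst hs0
    exact end_left hpar hL hl hds hd hno hD h1 h2 hcov hf1 hf2
  by_cases hsm : s = m
  · subst hsm
    refine end_left (E₁ := E₂) (E₂ := E₁) hpar (rev_lps hL) hl hds hd hno' (dense_rev hD) h2 h1
      (fun e he => (hcov e he).symm) hf2 ?_
    intro x
    have h3 := hf1 x
    rw [← Nat.sub_self s] at h3
    exact h3
  have hs1 : 1 ≤ s := Nat.one_le_iff_ne_zero.2 hs0
  have hs2 : s < m := lt_of_le_of_ne hs hsm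
  have hc : E.card ≤ E₁.card + E₂.card := by
    classical
    refine (Finset.card_le_card (t := E₁ ∪ E₂) ?_).trans (Finset.card_union_le _ _)
    intro e he
    rw [Finset.mem_union]
    exact hcov e he
  by_cases hcard : E.card ≤ 2 * E₁.card
  · exact interior_left hpar hL hs1 hs2 hl hds hd hno hD h1 hf1 hcard
  · have hcard2 : E.card ≤ 2 * E₂.card := by omega
    have e1 : m - (m - s) = s := by omega
    refine interior_left (s := m - s) (E₁ := E₂) hpar (rev_lps hL) (by omega) (by omega) ?_ hds hd hno'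
      (dense_rev hD) h2 ?_ hcard2
    · show 2 ≤ l (m - (m - s))
      rw [e1]
      exact hl
    · intro x
      show fib E₂ (fun e => (z m e, par (z (m - (m - s)) e))) x ≤ 2 * d
      rw [e1]
      exact hf2 x

theorem normal (hpar : ∀ x, ∀ g ∈ A x, 2 ≤ len g → par g ∈ A x ∧ len (par g) + 1 = len g)
    (hL : LPS A len m l E z v) {ds d : ℕ} (hds : 1 ≤ ds) (hd : 1 ≤ d)
    (hno : NoSmaller A len m (sumL m l) ds) (hD : Dense ((32 * ds * ds) ^ (m + 1) * d) E z m) :
    ∃ E' ⊆ E, Dense d E' z m ∧ ∀ i ≤ m, ConstPar len par E' z i := by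
  have key : ∀ j ≤ m + 1, ∃ E' ⊆ E, Dense ((32 * ds * ds) ^ (m + 1 - j) * d) E' z m ∧
      ∀ i < j, ConstPar len par E' z i := by
    intro j
    induction j with
    | zero =>
      intro _
      exact ⟨E, Finset.Subset.refl E, hD, fun i hi => absurd hi (Nat.not_lt_zero i)⟩
    | succ j ih =>
      intro hj
      obtain ⟨E', h1, h2, h3⟩ := ih (by omega)
      have e1 : m + 1 - j = (m + 1 - (j + 1)) + 1 := by omega
      have h4 : Dense (32 * ((32 * ds * ds) ^ (m + 1 - (j + 1)) * d) * ds * ds) E' z m := by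
        have e2 : 32 * ((32 * ds * ds) ^ (m + 1 - (j + 1)) * d) * ds * ds
            = (32 * ds * ds) ^ (m + 1 - j) * d := by
          rw [e1, pow_succ]
          ring
        rw [e2]
        exact h2
      have h5 : 1 ≤ (32 * ds * ds) ^ (m + 1 - (j + 1)) * d := by
        have : 0 < (32 * ds * ds) ^ (m + 1 - (j + 1)) := by positivity
        exact Nat.mul_pos this hd
      obtain ⟨E'', k1, k2, k3⟩ := step hpar (sub_lps hL h1) (s := j) (by omega) hds h5 hno h4
      refine ⟨E'', k1.trans h1, k2, ?_⟩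
      intro i hi
      rcases Nat.lt_succ_iff_lt_or_eq.1 hi with h6 | h6
      · exact fun e he e' he' h7 => h3 i h6 e (k1 he) e' (k1 he') h7
      · rw [h6]
        exact k3
  obtain ⟨E', h1, h2, h3⟩ := key (m + 1) (le_refl _)
  refine ⟨E', h1, ?_, fun i hi => h3 i (by omega)⟩
  rw [Nat.sub_self, pow_zero, one_mul] at h2
  exact h2

end Pool.Agent.Lib.MP_767201_co.SE
end

section

/-!
# TASK SE L4: dense label path systems with constant parents in a class

`incClass K k D C`: all incidence graphs of label structures of members of `C`.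

Proof of `selection` (pure logic). The set `U` of the pairs `(m, σ)`, `m ≤ M`, `σ ≤ B` with `∀ d, P m σ d` is nonempty: otherwise for each of the finitely many pairs there is `d(m,σ)` with `¬ P m σ d(m,σ)`; take the maximum `d` of them; by `hanti` no pair has `P m σ d`,
a contradiction to `h d`. Let `(m, σ) ∈ U` be lexicographically minimal. For the finitely many `(m', σ')` with `σ' ≤ B` and (`m' < m` or `m' = m`, `σ' < σ`) there is a `d` with `¬ P m' σ' d`; `ds` := maximum of them and 1.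

Proof of `class_normal`. `hC` gives an `r` such that for every `c` there are a member `B = (G.V ⊕ Γ, BG A)` of `incClass` and a graph `H : FG` with `ShallowMinor r H.G (BG A)` and `c * Nat.card H.V < H.G.edgeSet.ncard`. `P m σ d := ∃ G ∈ C, ∃` a label structure of `G` and an LPS with
`sumL m l = σ` and density `d` (`Dense d`). `lps_of_minor` (`r, K, k, d`; `LSok.card`, `pos`, `le`) gives for every `d` an `m ≤ 2r+1` and a `σ ≤ k (2r+2)` with `P m σ d`; `hanti`: `dense_mono`. `selection` gives `(m, σ)` and `ds`. For `d ≥ 1` (otherwise use 1) take the instance of `P m σ ((32 ds²)^(m+1) d)`.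
`NoSmaller A len m σ ds` holds in it: an LPS of a smaller type `(m', l')` with density `ds` would give `P m' (sumL m' l') ds`; `sumL m' l' ≤ k (m'+1) ≤ k (2r+2)` since the lengths are at most `k` (the system is nonempty). `normal` gives `E' ⊆ E` (`sub_lps`).
-/

set_option autoImplicit false

namespace Pool.Agent.Lib.MP_767201_co.SE

/-- The incidence graphs of the label structures of the members of `C`. -/
def incClass (K k D : ℕ) (C : Set FG) : Set FG :=
  {B | ∃ G ∈ C, ∃ (Γ : Type) (_ : Finite Γ) (b : Prop) (A : G.V → Finset Γ) (len : Γ → ℕ) (par : Γ → Γ),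
    LSof K k D G b A len par ∧ ∃ hs : Finite (G.V ⊕ Γ), B = ⟨G.V ⊕ Γ, hs, BG A⟩}

theorem selection (P : ℕ → ℕ → ℕ → Prop) (M B : ℕ) (hanti : ∀ m σ d d', d ≤ d' → P m σ d' → P m σ d)
    (h : ∀ d, ∃ m ≤ M, ∃ σ ≤ B, P m σ d) :
    ∃ m ≤ M, ∃ σ ≤ B, (∀ d, P m σ d) ∧
      ∃ ds, 1 ≤ ds ∧ ∀ m' σ', (m' < m ∨ (m' = m ∧ σ' < σ)) → σ' ≤ B → ¬ P m' σ' ds := by
  classical
  have hf0 : ∀ q : ℕ × ℕ, ∃ d0, (¬ ∀ d, P q.1 q.2 d) → ¬ P q.1 q.2 d0 := by
    intro q
    by_cases hq : ∀ d, P q.1 q.2 d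
    · exact ⟨0, fun h' => absurd hq h'⟩
    · obtain ⟨d0, hd0⟩ := not_forall.1 hq
      exact ⟨d0, fun _ => hd0⟩
  choose f hf using hf0
  set D := ((Finset.range (M + 1)) ×ˢ (Finset.range (B + 1))).sup f + 1 with hDdef
  have hD : ∀ m ≤ M, ∀ σ ≤ B, P m σ D → ∀ d, P m σ d := by
    intro m hm σ hσ hP
    by_contra hn
    refine hf (m, σ) hn (hanti m σ _ D ?_ hP)
    have hmem : (m, σ) ∈ (Finset.range (M + 1)) ×ˢ (Finset.range (B + 1)) := by
      rw [Finset.mem_product, Finset.mem_range, Finset.mem_range]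
      exact ⟨Nat.lt_succ_of_le hm, Nat.lt_succ_of_le hσ⟩
    have := Finset.le_sup (f := f) hmem
    omega
  obtain ⟨m0, hm0, σ0, hσ0, h0⟩ := h D
  have hex : ∃ m, m ≤ M ∧ ∃ σ ≤ B, ∀ d, P m σ d := ⟨m0, hm0, σ0, hσ0, hD m0 hm0 σ0 hσ0 h0⟩
  obtain ⟨hmM, hex1⟩ := Nat.find_spec hex
  have hex2 : ∃ σ, σ ≤ B ∧ ∀ d, P (Nat.find hex) σ d := hex1
  obtain ⟨hσB, hall⟩ := Nat.find_spec hex2
  refine ⟨Nat.find hex, hmM, Nat.find hex2, hσB, hall, D, by omega, ?_⟩
  rintro m' σ' (hlt | ⟨he, hlt⟩) hσ' hP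
  · exact Nat.find_min hex hlt ⟨(le_of_lt hlt).trans hmM, σ', hσ', hD _ ((le_of_lt hlt).trans hmM) _ hσ' hP⟩
  · subst he
    exact Nat.find_min hex2 hlt ⟨hσ', hD _ hmM _ hσ' hP⟩

private theorem L4_len_le {V Γ ε : Type} {A : V → Finset Γ} {len : Γ → ℕ} {m k : ℕ} {l : ℕ → ℕ} {E : Finset ε}
    {z : ℕ → ε → Γ} {v : ℕ → ε → V} (hle : ∀ x, ∀ g ∈ A x, len g ≤ k) (hL : LPS A len m l E z v)
    (hne : E.Nonempty) : sumL m l ≤ k * (m + 1) := by
  obtain ⟨e, he⟩ := hne
  have h1 : ∀ i ∈ Finset.range (m + 1), l i ≤ k := by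
    intro i hi
    have him : i ≤ m := Nat.lt_succ_iff.1 (Finset.mem_range.1 hi)
    rw [← hL.len i him e he]
    rcases Nat.lt_or_ge i m with h | h
    · exact hle _ _ (hL.memL i h e he)
    · have hp := hL.pos
      have e1 : i = (m - 1) + 1 := by omega
      rw [e1]
      exact hle _ _ (hL.memR (m - 1) (by omega) e he)
  unfold sumL
  calc ∑ i ∈ Finset.range (m + 1), l i ≤ ∑ _i ∈ Finset.range (m + 1), k := Finset.sum_le_sum h1
    _ = k * (m + 1) := by rw [Finset.sum_const, Finset.card_range, smul_eq_mul, mul_comm]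

theorem class_normal (K k D : ℕ) (C : Set FG) (hC : ¬ BoundedExpansion (incClass K k D C)) :
    ∃ m, ∀ d, ∃ G ∈ C, ∃ (Γ : Type) (_ : Finite Γ) (b : Prop) (A : G.V → Finset Γ) (len : Γ → ℕ) (par : Γ → Γ),
      LSof K k D G b A len par ∧
      ∃ (l : ℕ → ℕ) (ε : Type) (E : Finset ε) (z : ℕ → ε → Γ) (v : ℕ → ε → G.V),
        LPS A len m l E z v ∧ Dense d E z m ∧ ∀ i ≤ m, ConstPar len par E z i := by
  classical
  unfold BoundedExpansion at hC
  push Not at hC
  obtain ⟨r, hr⟩ := hC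
  let P : ℕ → ℕ → ℕ → Prop := fun m σ d => ∃ G ∈ C, ∃ (Γ : Type) (_ : Finite Γ) (b : Prop) (A : G.V → Finset Γ)
    (len : Γ → ℕ) (par : Γ → Γ), LSof K k D G b A len par ∧
      ∃ (l : ℕ → ℕ) (ε : Type) (E : Finset ε) (z : ℕ → ε → Γ) (v : ℕ → ε → G.V),
        LPS A len m l E z v ∧ Dense d E z m ∧ sumL m l = σ
  have hanti : ∀ m σ d d', d ≤ d' → P m σ d' → P m σ d := by
    rintro m σ d d' hdd ⟨G, hG, Γ, hΓ, b, A, len, par, hls, l, ε, E, z, v, hL, hD, hs⟩
    exact ⟨G, hG, Γ, hΓ, b, A, len, par, hls, l, ε, E, z, v, hL, dense_mono hD hdd, hs⟩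
  have hP : ∀ d, ∃ m ≤ 2 * r + 1, ∃ σ ≤ k * (2 * r + 2), P m σ d := by
    intro d
    obtain ⟨c, hc⟩ := lps_of_minor r K k d
    obtain ⟨B, ⟨G, hG, Γ, hΓ, b, A, len, par, hls, hs, hB⟩, H, hmin, hcard⟩ := hr c
    subst hB
    have i1 : Finite G.V := G.fin
    have i2 : Finite H.V := H.fin
    obtain ⟨m, l, ε, E, z, v, hm, hL, hD, hsum⟩ := hc G.V Γ H.V A len H.G hls.card
      (fun x g hg => ⟨hls.pos x g hg, hls.le x g hg⟩) hmin hcard
    refine ⟨m, hm, sumL m l, hsum.trans (Nat.mul_le_mul_left k (by omega)), G, hG, Γ, hΓ, b, A, len, par, hls,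
      l, ε, E, z, v, hL, hD, rfl⟩
  obtain ⟨m, hm, σ, hσ, hall, ds, hds, hno⟩ := selection P _ _ hanti hP
  refine ⟨m, fun d => ?_⟩
  obtain ⟨G, hG, Γ, hΓ, b, A, len, par, hls, l, ε, E, z, v, hL, hD, hs⟩ := hall ((32 * ds * ds) ^ (m + 1) * max d 1)
  have hpar : ∀ x, ∀ g ∈ A x, 2 ≤ len g → par g ∈ A x ∧ len (par g) + 1 = len g :=
    fun x g hg h2 => ⟨hls.parA x g hg h2, hls.parL x g hg h2⟩
  have hnos : NoSmaller A len m (sumL m l) ds := by
    intro m' l' ε' E' z' v' hlt hL' hD'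
    rw [hs] at hlt
    have hsum := L4_len_le hls.le hL' hD'.1
    have hm' : m' ≤ m := by
      rcases hlt with h | h
      · exact h.le
      · exact h.1.le
    exact hno m' (sumL m' l') hlt (hsum.trans (Nat.mul_le_mul_left k (by omega)))
      ⟨G, hG, Γ, hΓ, b, A, len, par, hls, l', ε', E', z', v', hL', hD', rfl⟩
  obtain ⟨E', hE', hD', hc'⟩ := normal hpar hL hds (le_max_right d 1) hnos hD
  exact ⟨G, hG, Γ, hΓ, b, A, len, par, hls, l, ε, E', z, v, sub_lps hL hE', dense_mono hD' (le_max_left d 1), hc'⟩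

end Pool.Agent.Lib.MP_767201_co.SE
end

section

/-!
# TASK SE F4: if the incidence graphs do not have bounded expansion, neither has the output class

Proof. `class_normal`: `m`. `R := m D + 1`. Suppose that `outClass R C` has bounded expansion; let `c` be the constant for `r = R`. `survivors K D m c`: `d1`. `class_normal` at `d1`: `G ∈ C`, a label structure, an LPS with constant parents, `Dense d1`. `survivors` (`G.V` is finite: `G.fin`): `M ≤ R`, `ι`, `w`, `κ`, `E'`, `Chain`, `Typed`,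
`c (nim E' (z 0) + nim E' (z m)) < E'.card`. `out_mem`: the output graph is in `outClass R C`. `out_minor`: an `R`-shallow minor `W` with `E'.card` edges and `nim E' (z 0) + nim E' (z m)` vertices. So `E'.card ≤ c * (..)`, a contradiction.
-/

set_option autoImplicit false

namespace Pool.Agent.Lib.MP_767201_co.SE

theorem not_be_out (K k D : ℕ) (C : Set FG) (hC : ¬ BoundedExpansion (incClass K k D C)) :
    ∃ R, ¬ BoundedExpansion (outClass R C) := by
  obtain ⟨m, hm⟩ := class_normal K k D C hC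
  refine ⟨m * D + 1, fun hBE => ?_⟩
  obtain ⟨c, hc⟩ := hBE (m * D + 1)
  obtain ⟨d1, hd1⟩ := survivors K D m c
  obtain ⟨G, hG, Γ, hΓ, b, A, len, par, hL, l, ε, E, z, v, hLPS, hD, hpar⟩ := hm d1
  have := G.fin
  have := hΓ
  obtain ⟨M, ι, w, κ, E', hM, hCh, hT, hlt⟩ :=
    hd1 G.V Γ ε k (fun x y => ¬ (G.G.Adj x y ↔ b)) A len par hL l E z v hLPS hpar hD
  have hfin : Finite (outV M E' w) := Subtype.finite
  have hmem := out_mem hG hL hCh hT hM hfin
  obtain ⟨W, hW, hcard, hV⟩ := out_minor hL hCh hT hM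
  have h1 := hc _ hmem W hW
  rw [hcard, hV] at h1
  exact absurd h1 (Nat.not_le.mpr hlt)

end Pool.Agent.Lib.MP_767201_co.SE
end

section

/-!
# TASK SE I1: if the incidence graphs have bounded expansion, the class has structurally bounded expansion

Proof. One copy (`1`), colours `Bool ⊕ Fin (k+1)`. For `i : Fin (k+1)` let `Com i x y := ∃ z, (x.2 = z.2 ∧ Adj x.1 z.1) ∧ (χ z = Sum.inr i ∧ (z.2 = y.2 ∧ Adj z.1 y.1))` (definable: `Defb.edge`, `Defb.colL`, `Defb.and`, `Defb.comp`). `OddL x y := ∃ i, Odd i.val ∧ Com i x y ∧ ∀ j, i < j → ¬ Com j x y`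
(`iUnion`, `iInter`; a condition on the index is handled with `Defb.true` and its negation, or by cases).
`φ`: `P x y := (χ x = Sum.inl true ∧ χ y = Sum.inl true ∧ ¬ OddL x y) ∨ (χ x = Sum.inl false ∧ χ y = Sum.inl false ∧ OddL x y)`.
For `H ∈ C` with its label structure `Γ, b, A, len, par` take `G := ⟨H.V ⊕ Γ, _, BG A⟩ ∈ incClass K k D C`, `χ (Sum.inl x, _) = Sum.inl (decide b)` (classical), `χ (Sum.inr g, _) = Sum.inr (len g)` (as an element of `Fin (k+1)`: `len g % (k+1)`, or `min (len g) k`; `len g ≤ k` for the labels in use),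
`i x = (Sum.inl x, 0)`. For `x ≠ y` in `H.V`: the neighbours of `Sum.inl x` in `BG A` are the `Sum.inr g`, `g ∈ A x`; so `Com i` at `(i x, i y)` says that there is a common label of length `i`. Let `n` be the maximal length of a common label (`IsL A len x y n`; exists). `OddL ↔ Odd n` (`n = 0`: no common label
as all lengths are at least 1). By `val`: `¬ (H.Adj x y ↔ b) ↔ Odd n`. So `P (i x) (i y) ↔ H.Adj x y`, and `P` at `(i y, i x)` gives `H.Adj y x`.
-/

set_option autoImplicit false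

namespace Pool.Agent.Lib.MP_767201_co.SE

private theorem I1_const {k : ℕ} {K : Type} (c : Prop) : Defb k K (fun _ _ _ _ _ => c) := by
  by_cases hc : c
  · have h : (fun (V : Type) (_ : SimpleGraph V) (_ : V × Fin k → K) (_ _ : V × Fin k) => c) =
        fun _ _ _ _ _ => True := by
      funext V G χ x y
      exact propext ⟨fun _ => trivial, fun _ => hc⟩
    rw [h]
    exact Defb.true
  · have h : (fun (V : Type) (_ : SimpleGraph V) (_ : V × Fin k → K) (_ _ : V × Fin k) => c) =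
        fun _ _ _ _ _ => ¬ True := by
      funext V G χ x y
      exact propext ⟨fun h => absurd h hc, fun h => absurd trivial h⟩
    rw [h]
    exact Defb.not Defb.true

/-- There is a common neighbour with the colour `i`. -/
private def I1_Com {k : ℕ} (i : Fin (k + 1)) (V : Type) (G : SimpleGraph V) (χ : V × Fin 1 → Bool ⊕ Fin (k + 1))
    (x y : V × Fin 1) : Prop :=
  ∃ z : V × Fin 1, (x.2 = z.2 ∧ G.Adj x.1 z.1) ∧ (χ z = Sum.inr i ∧ (z.2 = y.2 ∧ G.Adj z.1 y.1))

private theorem I1_Com_def {k : ℕ} (i : Fin (k + 1)) : Defb 1 (Bool ⊕ Fin (k + 1)) (I1_Com i) :=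
  Defb.comp Defb.edge (Defb.and (Defb.colL (Sum.inr i)) Defb.edge)

/-- The largest colour of a common neighbour is odd. -/
private def I1_Odd {k : ℕ} (V : Type) (G : SimpleGraph V) (χ : V × Fin 1 → Bool ⊕ Fin (k + 1))
    (x y : V × Fin 1) : Prop :=
  ∃ i : Fin (k + 1), Odd i.val ∧ (I1_Com i V G χ x y ∧ ∀ j : Fin (k + 1), (¬ i < j ∨ ¬ I1_Com j V G χ x y))

private theorem I1_Odd_def {k : ℕ} : Defb 1 (Bool ⊕ Fin (k + 1)) (I1_Odd (k := k)) :=
  Defb.iUnion fun i => Defb.and (I1_const _) (Defb.and (I1_Com_def i)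
    (Defb.iInter fun j => Defb.or (I1_const _) (Defb.not (I1_Com_def j))))

private def I1_P {k : ℕ} (V : Type) (G : SimpleGraph V) (χ : V × Fin 1 → Bool ⊕ Fin (k + 1))
    (x y : V × Fin 1) : Prop :=
  (χ x = Sum.inl true ∧ (χ y = Sum.inl true ∧ ¬ I1_Odd V G χ x y)) ∨
    (χ x = Sum.inl false ∧ (χ y = Sum.inl false ∧ I1_Odd V G χ x y))

private theorem I1_P_def {k : ℕ} : Defb 1 (Bool ⊕ Fin (k + 1)) (I1_P (k := k)) :=
  Defb.or (Defb.and (Defb.colL _) (Defb.and (Defb.colR _) (Defb.not I1_Odd_def)))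
    (Defb.and (Defb.colL _) (Defb.and (Defb.colR _) I1_Odd_def))

private theorem I1_adj {V Γ : Type} (A : V → Finset Γ) (x : V) (b : V ⊕ Γ) :
    (BG A).Adj (Sum.inl x) b ↔ ∃ g, b = Sum.inr g ∧ g ∈ A x := by
  constructor
  · rintro (⟨v, g, h1, h2, h3⟩ | ⟨v, g, h1, h2, h3⟩)
    · obtain rfl := Sum.inl_injective h1
      exact ⟨g, h2, h3⟩
    · exact absurd h2 (by simp)
  · rintro ⟨g, h1, h2⟩
    exact Or.inl ⟨x, g, rfl, h1, h2⟩

open Classical in
/-- The colouring of the incidence graph. -/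
private noncomputable def I1_χ {V Γ : Type} (k : ℕ) (b : Prop) (len : Γ → ℕ) : (V ⊕ Γ) × Fin 1 → Bool ⊕ Fin (k + 1) :=
  fun z => match z.1 with
    | Sum.inl _ => Sum.inl (decide b)
    | Sum.inr g => Sum.inr ⟨min (len g) k, by omega⟩

private theorem I1_Com_iff {V Γ : Type} {k : ℕ} {b : Prop} {len : Γ → ℕ} {A : V → Finset Γ}
    (hle : ∀ x, ∀ g ∈ A x, len g ≤ k) (x y : V) (j : Fin (k + 1)) :
    I1_Com j (V ⊕ Γ) (BG A) (I1_χ k b len) (Sum.inl x, 0) (Sum.inl y, 0) ↔
      ∃ g, g ∈ A x ∧ g ∈ A y ∧ len g = j.val := by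
  constructor
  · rintro ⟨⟨z, t⟩, ⟨_, h1⟩, h2, _, h3⟩
    obtain ⟨g, h4, h5⟩ := (I1_adj A x z).1 h1
    have h4' : z = Sum.inr g := h4
    subst h4'
    obtain ⟨g', h6, h7⟩ := (I1_adj A y (Sum.inr g)).1 h3.symm
    obtain rfl := Sum.inr_injective h6
    refine ⟨g, h5, h7, ?_⟩
    have h8 : (⟨min (len g) k, by omega⟩ : Fin (k + 1)) = j := Sum.inr_injective h2
    rw [← h8]
    have := hle x g h5
    show len g = min (len g) k
    omega
  · rintro ⟨g, h1, h2, h3⟩
    refine ⟨(Sum.inr g, 0), ⟨rfl, (I1_adj A x _).2 ⟨g, rfl, h1⟩⟩, ?_, rfl, ((I1_adj A y _).2 ⟨g, rfl, h2⟩).symm⟩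
    have h4 : (⟨min (len g) k, by omega⟩ : Fin (k + 1)) = j := by
      refine Fin.ext ?_
      have := hle x g h1
      show min (len g) k = j.val
      omega
    exact congrArg Sum.inr h4

private theorem I1_exists {V Γ : Type} (A : V → Finset Γ) (len : Γ → ℕ) (x y : V) : ∃ n, IsL A len x y n := by
  classical
  refine ⟨(A x ∩ A y).sup len, ?_, ?_⟩
  · intro g h1 h2
    exact Finset.le_sup (f := len) (Finset.mem_inter.2 ⟨h1, h2⟩)
  · by_cases h : (A x ∩ A y).Nonempty
    · obtain ⟨g, hg, hg'⟩ := Finset.exists_mem_eq_sup (A x ∩ A y) h len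
      exact Or.inr ⟨g, (Finset.mem_inter.1 hg).1, (Finset.mem_inter.1 hg).2, hg'.symm⟩
    · left
      rw [Finset.not_nonempty_iff_eq_empty.1 h, Finset.sup_empty]
      rfl

private theorem I1_Odd_iff {V Γ : Type} {k : ℕ} {b : Prop} {len : Γ → ℕ} {A : V → Finset Γ}
    (hle : ∀ x, ∀ g ∈ A x, len g ≤ k) (x y : V) (n : ℕ) (hn : IsL A len x y n) :
    I1_Odd (V ⊕ Γ) (BG A) (I1_χ k b len) (Sum.inl x, 0) (Sum.inl y, 0) ↔ Odd n := by
  constructor
  · rintro ⟨i, hi, hc, hj⟩
    rw [I1_Com_iff hle] at hc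
    obtain ⟨g, h1, h2, h3⟩ := hc
    have h4 := hn.1 g h1 h2
    have h5 : n = i.val := by
      by_contra hne
      rcases hn.2 with h0 | ⟨g', h6, h7, h8⟩
      · omega
      · have h9 := hle x g' h6
        rcases hj ⟨n, by omega⟩ with h10 | h10
        · refine h10 ?_
          show i.val < n
          omega
        · refine h10 ?_
          rw [I1_Com_iff hle]
          exact ⟨g', h6, h7, h8⟩
    rw [h5]
    exact hi
  · intro hodd
    rcases hn.2 with h0 | ⟨g, h1, h2, h3⟩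
    · rw [h0] at hodd
      exact absurd hodd (by decide)
    · have h4 := hle x g h1
      refine ⟨⟨n, by omega⟩, hodd, ?_, ?_⟩
      · rw [I1_Com_iff hle]
        exact ⟨g, h1, h2, h3⟩
      · intro j
        by_cases hlt : (⟨n, by omega⟩ : Fin (k + 1)) < j
        · right
          rw [I1_Com_iff hle]
          rintro ⟨g', h5, h6, h7⟩
          have h8 := hn.1 g' h5 h6
          have h9 : n < j.val := hlt
          omega
        · exact Or.inl hlt

theorem structBE_of_inc (K k D : ℕ) (C : Set FG) (hB : BoundedExpansion (incClass K k D C))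
    (hC : ∀ G ∈ C, ∃ (Γ : Type) (_ : Finite Γ) (b : Prop) (A : G.V → Finset Γ) (len : Γ → ℕ) (par : Γ → Γ),
      LSof K k D G b A len par) : StructBE C := by
  classical
  refine ⟨incClass K k D C, hB, 1, Bool ⊕ Fin (k + 1), ?_⟩
  obtain ⟨φ, hφ⟩ := I1_P_def (k := k)
  refine ⟨φ, Nat.one_pos, inferInstance, ?_⟩
  intro H hH
  obtain ⟨Γ, hΓ, b, A, len, par, hL⟩ := hC H hH
  have hfin : Finite H.V := H.fin
  have hs : Finite (H.V ⊕ Γ) := inferInstance
  refine ⟨⟨H.V ⊕ Γ, hs, BG A⟩, ⟨H, hH, Γ, hΓ, b, A, len, par, hL, hs, rfl⟩, I1_χ k b len,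
    fun x => (Sum.inl x, 0), ?_, ?_⟩
  · intro x y hxy
    exact Sum.inl_injective (congrArg Prod.fst hxy)
  · have key : ∀ x y : H.V, x ≠ y → (sat (BG A) (I1_χ k b len) φ (Sum.inl x, 0) (Sum.inl y, 0) ↔ H.G.Adj x y) := by
      intro x y hxy
      rw [hφ]
      obtain ⟨n, hn⟩ := I1_exists A len x y
      have h1 := hL.val x y n hxy hn
      unfold I1_P
      rw [I1_Odd_iff hL.le x y n hn, ← h1]
      by_cases hb : b
      · have e1 : ∀ v : H.V, I1_χ k b len ((Sum.inl v : H.V ⊕ Γ), 0) = Sum.inl true := by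
          intro v
          show Sum.inl (decide b) = Sum.inl true
          rw [decide_eq_true hb]
        rw [e1, e1]
        simp [hb]
      · have e1 : ∀ v : H.V, I1_χ k b len ((Sum.inl v : H.V ⊕ Γ), 0) = Sum.inl false := by
          intro v
          show Sum.inl (decide b) = Sum.inl false
          rw [decide_eq_false hb]
        rw [e1, e1]
        simp [hb]
    intro x y
    constructor
    · intro hxy
      exact ⟨hxy.ne, Or.inl ((key x y hxy.ne).2 hxy)⟩
    · rintro ⟨hne, h1 | h1⟩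
      · exact (key x y hne).1 h1
      · exact ((key y x hne.symm).1 h1).symm

end Pool.Agent.Lib.MP_767201_co.SE
end
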